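import Pool.Agent.Lib.MP_1a91b9_nuW.Defs
import Pool.Agent.Lib.MP_1a91b9_nuT.D6.Co3

/-!
# G7, stream VA, file Defs: smoothing elements and weights for the partial series with weights

`SmE`: smoothing elements (`Ell.Smooth`) which are moreover congruent to `ε` modulo `q ^ k`.
`WtA`: weights `H` on the class `t + 𝔪 𝔟`, as functions on `F`.
`FrOK`: the values of the unimodular frames are in `M` (the hypothesis on the frames used in `co_valW`; proved in file FrM).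
-/

set_option autoImplicit false

namespace Pool.Agent.Lib.MP_1a91b9_nuW.VA

variable [Pool.Agent.Lib.MP_1a91b9_nuT.CD]

open Pool.Agent.Lib.MP_1a91b9_nuT hiding cj
open Pool.Agent.Lib.MP_1a91b9_nuT.Ell
open NumberField Module

universe u

variable {F : Type u} [Field F] [NumberField F] [Algebra K F]

/-- Smoothing elements congruent to `ε` modulo `q ^ k`. -/
def SmE (q R k : ℕ) (ε : 𝓞 K) (β : 𝓞 F) (b : 𝓞 K) : Prop :=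
  Ell.Smooth q R β b ∧ ((q ^ k : ℕ) : 𝓞 F) ∣ β - algebraMap (𝓞 K) (𝓞 F) ε

/-- Weights on the class `t + 𝔪 𝔟`, as functions on `F`. -/
structure WtA (q k : ℕ) (ε : 𝓞 K) (𝔟 𝔪 : Ideal (𝓞 F)) (t : 𝓞 F) (H : F → ℂ) : Prop where
  bdd : ∃ C : ℝ, ∀ z, ‖H z‖ ≤ C
  per : ∀ z ∈ cls 𝔟 𝔪 t, ∀ w ∈ 𝔪 * 𝔟, H (z + ((((q ^ k : ℕ) : 𝓞 F) * w : 𝓞 F) : F)) = H z
  unit : ∀ v ∈ unV 𝔪, ∀ z ∈ cls 𝔟 𝔪 t, H (((v : 𝓞 F) : F) * z) = H z
  beta : ∀ β : 𝓞 F, β - 1 ∈ 𝔪 → ((q ^ k : ℕ) : 𝓞 F) ∣ β - algebraMap (𝓞 K) (𝓞 F) ε →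
    ∀ z ∈ cls 𝔟 𝔪 t, H ((β : F) * z) = H z

/-- the value of a frame, as given by `s2_main` -/
def FrVal {m : ℕ} (σ : Fin (m + 1) → (F →ₐ[K] ℂ)) (δ : F → ℂ) (w : Fin (m + 1) → F) (y : ℂ) :
    Prop :=
  ∀ D c : ℕ, 0 < D → 0 < c →
    (∀ i z, δ z ≠ 0 → ∃ a : 𝓞 K, (D : K) * Algebra.trace K F (w i * z) = a) →
    (∀ μ : F, (∀ i, ∃ a : 𝓞 K, Algebra.trace K F (w i * μ) = (c : K) * a) →
      ∀ z, δ (z + μ) = δ z) →
    ∀ zz : (Fin (m + 1) → K) → F, (∀ a i, Algebra.trace K F (w i * zz a) = a i) →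
    y = (Matrix.of fun i j => σ j (w i)).det *
      ∑ x : Fin (m + 1) → Fin (c * D) × Fin (c * D), δ (zz fun i => ixK D c (x i)) *
        ∏ i, (c : ℂ)⁻¹ * E1 (ixC D c (x i) / c)

/-- The values of the unimodular frames with vectors in `S` are in `M`, for the smoothing elements `β` with a suitable `R₁ ∣ R`. -/
def FrOK (q k : ℕ) (ε : 𝓞 K) (𝔟 𝔪 : Ideal (𝓞 F)) (t β' : 𝓞 F) (H : F → ℂ) {m : ℕ}
    (σ : Fin (m + 1) → (F →ₐ[K] ℂ)) (bb : Basis (Fin (m + 1)) K F) (S : Finset F)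
    (M : AddSubgroup ℂ) : Prop :=
  ∃ R₁ : ℕ, R₁.Coprime q ∧ ∀ (R : ℕ) (β : 𝓞 F) (b : 𝓞 K), R₁ ∣ R → SmE q R k ε β b →
    ∀ w : Fin (m + 1) → F, (∀ i, w i ∈ S) → LinearIndependent K w → Unimod q bb w →
    ∀ y : ℂ, FrVal σ (fun z => H z * del 𝔟 𝔪 t β' β b z) w y → y ∈ M

end Pool.Agent.Lib.MP_1a91b9_nuW.VA
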