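import Pool.Agent.Lib.MP_1a91b9_nuW.VA.Orth
import Pool.Agent.Lib.MP_1a91b9_nuW.VA.Defs

/-!
# G7, stream VA, file Char: the characters of `𝔟 / β 𝔟`

PROOFS.
* `tr_b`: `b = β y` in `𝓞 F` for some `y` (`nf_dvd β b h.nrm`), so `b Tr (v₀ z) = Tr (y (β v₀) z)`, `β v₀ ∈ DL 𝔟`, `dl_smul`.
* `tr_iff`: `gen_ne` (nuT/S6/Du2.lean); conversely `z = β w`, `w ∈ 𝔟`: `Tr (v₀ β w) ∈ 𝓞 K` as `β v₀ ∈ DL 𝔟`.
* `one_sub`: `orth` for `x = Tr (v₀ z)` (`tr_b`, `tr_iff`); the term with `b ∣ a i` is `1` (`exK_int` since `b Tr (v₀ z) ∈ 𝓞 K`): there is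
  exactly one such `i` (`IsCRS` at `0`). So `∑_{¬ b ∣ a i} = ‖embK b‖² [z ∈ β 𝔟] - 1`.
* `gen_mul`: `de_iff` (nuT/D6/Du.lean) with `z = 0`: there is `x` with `y α ∈ mulI 𝔟 β ↔ b ∣ y - x` for all `y`; `y = 0` gives `b ∣ x`.
* `cop_u`: `𝓞 K` is a principal ideal domain. If `u, b` are not coprime there is a prime `π` with `π ∣ u`, `π ∣ b = π y`. Then
  `Tr (v₀ (y α)) = y u / b = u / π ∈ 𝓞 K`, so `y α ∈ mulI 𝔟 β` (`tr_iff`), so `b ∣ y` by `hα`, `y = b c = π y c`, and `y ≠ 0` as `b ≠ 0`: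
  `π` is a unit, contradiction.
-/

set_option autoImplicit false

namespace Pool.Agent.Lib.MP_1a91b9_nuW.VA

variable [Pool.Agent.Lib.MP_1a91b9_nuT.CD]

open Pool.Agent.Lib.MP_1a91b9_nuT hiding cj
open Pool.Agent.Lib.MP_1a91b9_nuT.Ell
open NumberField Module

universe u

variable {F : Type u} [Field F] [NumberField F] [Algebra K F]

private theorem char_map (a : 𝓞 K) :
    algebraMap K F (a : K) = ((algebraMap (𝓞 K) (𝓞 F) a : 𝓞 F) : F) := rfl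

private theorem char_mul {L : Type*} [Field L] [NumberField L] (x y : 𝓞 L) :
    ((x * y : 𝓞 L) : L) = (x : L) * (y : L) := map_mul (algebraMap (𝓞 L) L) x y

private theorem char_tr (x : K) (y : F) :
    Algebra.trace K F (algebraMap K F x * y) = x * Algebra.trace K F y := by
  rw [← Algebra.smul_def, map_smul, smul_eq_mul]

theorem tr_b {q R : ℕ} {𝔟 : Ideal (𝓞 F)} {β : 𝓞 F} {b : 𝓞 K} (h : Ell.Smooth q R β b) {v₀ : F}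
    (hv : Gen 𝔟 β v₀) {z : 𝓞 F} (hz : z ∈ 𝔟) :
    ∃ c : 𝓞 K, (b : K) * Algebra.trace K F (v₀ * (z : F)) = c := by
  obtain ⟨y, hy⟩ := nf_dvd β b h.nrm
  obtain ⟨c, hc⟩ := dl_smul 𝔟 y hv.1 z hz
  refine ⟨c, ?_⟩
  rw [← hc, ← char_tr, char_map, hy, char_mul]
  congr 1
  ring

theorem tr_iff {q R : ℕ} (hq : q ≠ 1) {𝔟 : Ideal (𝓞 F)} (hb : 𝔟 ≠ ⊥) {β : 𝓞 F} {b : 𝓞 K}
    (h : Ell.Smooth q R β b) {v₀ : F} (hv : Gen 𝔟 β v₀) {z : 𝓞 F} (hz : z ∈ 𝔟) :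
    (∃ c : 𝓞 K, Algebra.trace K F (v₀ * (z : F)) = c) ↔ (z : F) ∈ mulI 𝔟 β := by
  constructor
  · rintro ⟨c, hc⟩
    exact gen_ne 𝔟 hb β (smooth_ne hq h) v₀ hv z hz c hc
  · rintro ⟨w, hw, hzw⟩
    obtain ⟨c, hc⟩ := hv.1 w hw
    refine ⟨c, ?_⟩
    rw [← hc, hzw]
    congr 1
    ring

open Classical in
theorem one_sub {q R : ℕ} (hq : q ≠ 1) {𝔟 : Ideal (𝓞 F)} (hb : 𝔟 ≠ ⊥) {β : 𝓞 F} {b : 𝓞 K}
    (h : Ell.Smooth q R β b) {v₀ : F} (hv : Gen 𝔟 β v₀) {ι : Type*} [Fintype ι] {a : ι → 𝓞 K}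
    (ha : IsCRS b a) {z : 𝓞 F} (hz : z ∈ 𝔟) :
    (1 : ℂ) - (‖embK (b : K)‖ ^ 2 : ℝ) * (if (z : F) ∈ mulI 𝔟 β then 1 else 0) =
      -∑ i ∈ Finset.univ.filter (fun i => ¬ b ∣ a i),
        exK (embK ((a i : K) * Algebra.trace K F (v₀ * (z : F)))) := by
  have hb0 : b ≠ 0 := kq_ne hq h.c0
  obtain ⟨c, hc⟩ := tr_b h hv hz
  have h1 := orth hb0 ha (Algebra.trace K F (v₀ * (z : F))) ⟨c, hc⟩
  have h2 : (∃ c : 𝓞 K, Algebra.trace K F (v₀ * (z : F)) = c) ↔ (z : F) ∈ mulI 𝔟 β :=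
    tr_iff hq hb h hv hz
  rw [if_congr h2 rfl rfl] at h1
  obtain ⟨i₀, hi₀, hu⟩ := ha.ex 0
  have hi₀' : b ∣ a i₀ := by
    have h3 : b ∣ (0 : 𝓞 K) - a i₀ := hi₀
    rwa [zero_sub, dvd_neg] at h3
  have hfil : Finset.univ.filter (fun i => b ∣ a i) = {i₀} := by
    ext i
    simp only [Finset.mem_filter, Finset.mem_univ, true_and, Finset.mem_singleton]
    constructor
    · intro hi
      refine hu i ?_
      show b ∣ (0 : 𝓞 K) - a i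
      rwa [zero_sub, dvd_neg]
    · rintro rfl
      exact hi₀'
  have h4 : exK (embK ((a i₀ : K) * Algebra.trace K F (v₀ * (z : F)))) = 1 := by
    obtain ⟨d, hd⟩ := hi₀'
    have h5 : (a i₀ : K) * Algebra.trace K F (v₀ * (z : F)) = ((d * c : 𝓞 K) : K) := by
      rw [hd, char_mul, char_mul, ← hc]
      ring
    rw [h5]
    exact exK_int _
  have h6 := Finset.sum_filter_add_sum_filter_not Finset.univ (fun i => b ∣ a i)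
    (fun i => exK (embK ((a i : K) * Algebra.trace K F (v₀ * (z : F)))))
  rw [hfil, Finset.sum_singleton, h4, h1] at h6
  have h7 : ((‖embK (b : K)‖ ^ 2 : ℝ) : ℂ) * (if (z : F) ∈ mulI 𝔟 β then (1 : ℂ) else 0) =
      if (z : F) ∈ mulI 𝔟 β then (((‖embK (b : K)‖ ^ 2 : ℝ)) : ℂ) else 0 := by
    split_ifs <;> simp
  rw [h7, ← h6]
  ring

theorem gen_mul {q : ℕ} (hq : q.Prime) {R : ℕ} {𝔟 : Ideal (𝓞 F)} {β : 𝓞 F} {b : 𝓞 K}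
    (h : Ell.Smooth q R β b) (α : 𝓞 F) (hα : α ∈ 𝔟) (hα0 : α ≠ 0)
    (hR : ∀ t : ℕ, t.Coprime q → t ∣ Ideal.absNorm (Ideal.span {α}) → t ∣ R) (y : 𝓞 K) :
    ((algebraMap (𝓞 K) (𝓞 F) y * α : 𝓞 F) : F) ∈ mulI 𝔟 β ↔ b ∣ y := by
  obtain ⟨x, hx⟩ := de_iff hq 𝔟 h α hα hα0 hR 0 𝔟.zero_mem
  have h0 : b ∣ x := by
    have h1 := (hx 0).1 (by
      rw [map_zero, zero_mul, add_zero]
      exact de1_mem.2 ⟨0, 𝔟.zero_mem, by rw [mul_zero]⟩)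
    rwa [zero_sub, dvd_neg] at h1
  have h2 := hx y
  rw [zero_add] at h2
  rw [h2]
  exact dvd_sub_left h0

theorem cop_u {q R : ℕ} (hq : q ≠ 1) {𝔟 : Ideal (𝓞 F)} (hb : 𝔟 ≠ ⊥) {β : 𝓞 F} {b : 𝓞 K}
    (h : Ell.Smooth q R β b) {v₀ : F} (hv : Gen 𝔟 β v₀) {α : 𝓞 F} (hα : α ∈ 𝔟)
    (hα2 : ∀ y : 𝓞 K, ((algebraMap (𝓞 K) (𝓞 F) y * α : 𝓞 F) : F) ∈ mulI 𝔟 β ↔ b ∣ y) (u : 𝓞 K)
    (hu : (b : K) * Algebra.trace K F (v₀ * (α : F)) = u) : IsCoprime u b := by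
  have hb0 : b ≠ 0 := kq_ne hq h.c0
  have := kf_pid
  refine isCoprime_of_prime_dvd (fun h0 => hb0 h0.2) ?_
  rintro π hπ ⟨u', hu'⟩ ⟨y, hy⟩
  have hπK : (π : K) ≠ 0 := fun h0 => hπ.ne_zero
    (RingOfIntegers.coe_injective (h0.trans (map_zero (algebraMap (𝓞 K) K)).symm))
  have hz : algebraMap (𝓞 K) (𝓞 F) y * α ∈ 𝔟 := 𝔟.mul_mem_left _ hα
  have h1 : ∃ c : 𝓞 K, Algebra.trace K F (v₀ * ((algebraMap (𝓞 K) (𝓞 F) y * α : 𝓞 F) : F)) = c := by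
    refine ⟨u', ?_⟩
    have h2 : v₀ * ((algebraMap (𝓞 K) (𝓞 F) y * α : 𝓞 F) : F) =
        algebraMap K F (y : K) * (v₀ * (α : F)) := by
      rw [char_mul, char_map]
      ring
    rw [h2, char_tr]
    apply mul_left_cancel₀ hπK
    rw [hy, hu', char_mul, char_mul] at hu
    rw [← hu]
    ring
  obtain ⟨c, hc⟩ := (hα2 y).1 ((tr_iff hq hb h hv hz).1 h1)
  have hy0 : y ≠ 0 := by
    rintro rfl
    exact hb0 (by rw [hy, mul_zero])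
  apply hπ.not_isUnit
  refine IsUnit.of_mul_eq_one c ?_
  apply mul_left_cancel₀ hy0
  rw [hy] at hc
  rw [mul_one]
  calc y * (π * c) = π * y * c := by ring
    _ = y := hc.symm

end Pool.Agent.Lib.MP_1a91b9_nuW.VA
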