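import Pool.Agent.Lib.MP_1a91b9_nuW.VA.Defs

/-!
# G7, stream VA, file De: the smoothed weights are admissible
-/

set_option autoImplicit false

namespace Pool.Agent.Lib.MP_1a91b9_nuW.VA

variable [Pool.Agent.Lib.MP_1a91b9_nuT.CD]

open Pool.Agent.Lib.MP_1a91b9_nuT hiding cj
open Pool.Agent.Lib.MP_1a91b9_nuT.Ell
open NumberField Module

universe u

variable {F : Type u} [Field F] [NumberField F] [Algebra K F] {q : ℕ}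

/-- The weight is periodic. -/
theorem WtA.per' {q k : ℕ} {ε : 𝓞 K} {𝔟 𝔪 : Ideal (𝓞 F)} {t : 𝓞 F} {H : F → ℂ}
    (hH : WtA q k ε 𝔟 𝔪 t H) {w : 𝓞 F}
    (hw : w ∈ (Ideal.span {((q ^ k : ℕ) : 𝓞 F)} * 𝔪) * 𝔟) {z : F} (hz : z ∈ cls 𝔟 𝔪 t) :
    H (z + (w : F)) = H z := by
  rw [mul_assoc, Ideal.mem_span_singleton_mul] at hw
  obtain ⟨w', hw', rfl⟩ := hw
  exact hH.per z hz w' hw'

private theorem de_norm {H : F → ℂ} {d : F → ℂ} (h1 : ∃ C : ℝ, ∀ z, ‖H z‖ ≤ C)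
    (h2 : ∃ C : ℝ, ∀ z, ‖d z‖ ≤ C) : ∃ C : ℝ, ∀ z, ‖H z * d z‖ ≤ C := by
  obtain ⟨C1, hC1⟩ := h1
  obtain ⟨C2, hC2⟩ := h2
  refine ⟨C1 * C2, fun z => ?_⟩
  rw [norm_mul]
  exact mul_le_mul (hC1 z) (hC2 z) (norm_nonneg _) ((norm_nonneg _).trans (hC1 z))

theorem deW_adm (hq : q.Prime) (k : ℕ) {ε : 𝓞 K} (𝔟 𝔪 : Ideal (𝓞 F)) (hb : 𝔟 ≠ ⊥) (hm : 𝔪 ≠ ⊥)
    (t : 𝓞 F) (ht : t ∈ 𝔟) {H : F → ℂ} (hH : WtA q k ε 𝔟 𝔪 t H) {R' : ℕ}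
    (f : ℕ) (hf : 3 ≤ f) (h3 : f ∣ R') (β' : 𝓞 F) (b' : 𝓞 K) (hβ' : Ell.Smooth q R' β' b')
    (S : Finset F)
    (hS : ∀ v ∈ S, Gen 𝔟 β' v) :
    ∃ R₀ : ℕ, R₀.Coprime q ∧ ∀ (R : ℕ) (β : 𝓞 F) (b : 𝓞 K), R₀ ∣ R → Ell.Smooth q R β b →
      Adm2 (fun z => H z * del 𝔟 𝔪 t β' β b z) (S : Set F) := by
  classical
  obtain ⟨R₁, hR₁, hadm⟩ := Ell.de_adm hq 𝔟 𝔪 hb hm t ht f hf h3 β' b' hβ' S hS
  have hβ0 : β' ≠ 0 := smooth_ne hq.one_lt.ne' hβ'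
  have hq0 : ((q ^ k : ℕ) : 𝓞 F) ≠ 0 := by
    have := pow_ne_zero k hq.ne_zero
    exact_mod_cast this
  have hm' : Ideal.span {((q ^ k : ℕ) : 𝓞 F)} * 𝔪 ≠ ⊥ := by
    refine mul_ne_zero ?_ hm
    rw [Ideal.zero_eq_bot, Ne, Ideal.span_singleton_eq_bot]
    exact hq0
  choose nn hodd hnn using fun B : Finset F =>
    Ell.de2_choice hq 𝔟 (Ideal.span {((q ^ k : ℕ) : 𝓞 F)} * 𝔪) hb hm' β' hβ0 B
  refine ⟨R₁ * ∏ B ∈ S.powerset, nn B, ?_, ?_⟩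
  · exact Nat.Coprime.mul_left hR₁ (Nat.Coprime.prod_left fun B _ => hodd B)
  intro R β b hR hsm
  have hA := hadm R β b ((Dvd.intro _ rfl).trans hR) hsm
  refine ⟨de_norm hH.bdd hA.bdd, ?_, ?_, ?_, ?_⟩
  · obtain ⟨D, hD, hD'⟩ := hA.lat
    exact ⟨D, hD, fun z hz => hD' z (right_ne_zero_of_mul hz)⟩
  · show H 0 * del 𝔟 𝔪 t β' β b 0 = 0
    rw [hA.zero, mul_zero]
  · intro v hv
    obtain ⟨h1, h2⟩ := hA.ne v hv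
    exact ⟨h1, fun z hz => h2 z (right_ne_zero_of_mul hz)⟩
  · intro B hB α hα0 hα
    have hB1 : ∀ v, v ∈ S.filter (fun v => v ∈ B) ↔ v ∈ B := by
      intro v
      rw [Finset.mem_filter]
      exact ⟨fun h => h.2, fun h => ⟨hB h, h⟩⟩
    obtain ⟨α', hα', hα'0, hα'B, hqq⟩ := hnn (S.filter (fun v => v ∈ B))
      ⟨α, hα0, fun v hv => hα v ((hB1 v).1 hv)⟩
    have hα'b : α' ∈ 𝔟 := Ideal.mul_le_right hα'
    have hα'm : α' ∈ 𝔪 * 𝔟 := by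
      have h4 := Ideal.mul_mono_left (K := 𝔟) (Ideal.mul_le_right (I := Ideal.span
        {((q ^ k : ℕ) : 𝓞 F)}) (J := 𝔪))
      exact h4 hα'
    have hmem : β' * α' ∈ 𝔟 := 𝔟.mul_mem_left _ hα'b
    have hne : β' * α' ≠ 0 := mul_ne_zero hβ0 hα'0
    obtain ⟨r, x, hr, hx⟩ := Ell.de2_sum hq 𝔟 hsm (β' * α') hmem hne (fun q h1 h2 =>
      dvd_trans (hqq q h1 h2) (dvd_trans (Finset.dvd_prod_of_mem nn
        (Finset.mem_powerset.2 (Finset.filter_subset _ _))) ((Dvd.intro_left _ rfl).trans hR)))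
    refine ⟨r, fun j => ((algebraMap (𝓞 K) (𝓞 F) (x j) * (β' * α') : 𝓞 F) : F), hr, ?_, ?_⟩
    · intro j v hv
      dsimp only
      rw [de2_mul, de2_tr, hα'B v ((hB1 v).2 hv), mul_zero]
    · intro z
      have h1 : ∀ j, (z + ((algebraMap (𝓞 K) (𝓞 F) (x j) * (β' * α') : 𝓞 F) : F) ∈ cls 𝔟 𝔪 t ↔
          z ∈ cls 𝔟 𝔪 t) := fun j =>
        de2_cls 𝔟 𝔪 t _ ((𝔪 * 𝔟).mul_mem_left _ ((𝔪 * 𝔟).mul_mem_left _ hα'm)) z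
      have h2 : ∀ j, (z + ((algebraMap (𝓞 K) (𝓞 F) (x j) * (β' * α') : 𝓞 F) : F) ∈ mulI 𝔟 β' ↔
          z ∈ mulI 𝔟 β') := by
        intro j
        have h4 : algebraMap (𝓞 K) (𝓞 F) (x j) * (β' * α') =
            β' * (algebraMap (𝓞 K) (𝓞 F) (x j) * α') := by ring
        rw [h4]
        exact de2_mulI 𝔟 β' _ (𝔟.mul_mem_left _ hα'b) z
      unfold del
      simp only [h1, h2]
      by_cases hc : z ∈ cls 𝔟 𝔪 t ∧ z ∉ mulI 𝔟 β'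
      · have h5 : ∀ j, H (z + ((algebraMap (𝓞 K) (𝓞 F) (x j) * (β' * α') : 𝓞 F) : F)) = H z :=
          fun j => hH.per' (Ideal.mul_mem_left _ _ (Ideal.mul_mem_left _ _ hα')) hc.1
        simp only [if_pos hc, h5]
        obtain ⟨⟨w, hw, hwt⟩, _⟩ := hc
        have hwb : w ∈ 𝔟 := by
          have h4 : w = (w - t) + t := by ring
          rw [h4]
          exact Ideal.add_mem _ (Ideal.mul_le_right hwt) ht
        rw [← Finset.mul_sum, ← hw, hx w hwb, mul_zero]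
      · simp only [if_neg hc, mul_zero]
        exact Finset.sum_const_zero

theorem deW_adm1 (hq : q.Prime) (k : ℕ) {ε : 𝓞 K} (𝔟 𝔪 : Ideal (𝓞 F)) (hb : 𝔟 ≠ ⊥) (hm : 𝔪 ≠ ⊥)
    (t : 𝓞 F) (ht : t ∈ 𝔟) (ht' : t ∉ 𝔪 * 𝔟) {H : F → ℂ} (hH : WtA q k ε 𝔟 𝔪 t H) :
    ∃ R₀ : ℕ, R₀.Coprime q ∧ ∀ (R : ℕ) (β : 𝓞 F) (b : 𝓞 K), R₀ ∣ R → Ell.Smooth q R β b →
      Adm2 (fun z => H z * del1 𝔟 𝔪 t β b z) (∅ : Set F) := by
  classical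
  obtain ⟨R₁, hR₁, hadm⟩ := Ell.de_adm1 hq 𝔟 𝔪 hb hm t ht ht'
  have hq0 : ((q ^ k : ℕ) : 𝓞 F) ≠ 0 := by
    have := pow_ne_zero k hq.ne_zero
    exact_mod_cast this
  have hm' : Ideal.span {((q ^ k : ℕ) : 𝓞 F)} * 𝔪 ≠ ⊥ := by
    refine mul_ne_zero ?_ hm
    rw [Ideal.zero_eq_bot, Ne, Ideal.span_singleton_eq_bot]
    exact hq0
  obtain ⟨nn, hodd, hnn⟩ := Ell.de2_choice hq 𝔟 (Ideal.span {((q ^ k : ℕ) : 𝓞 F)} * 𝔪) hb hm'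
    (1 : 𝓞 F) one_ne_zero ∅
  obtain ⟨α', hα', hα'0, _, hqq⟩ :=
    hnn ⟨1, one_ne_zero, fun v hv => absurd hv (Finset.notMem_empty v)⟩
  rw [one_mul] at hqq
  refine ⟨R₁ * nn, Nat.Coprime.mul_left hR₁ hodd, ?_⟩
  intro R β b hR hsm
  have hA := hadm R β b ((Dvd.intro _ rfl).trans hR) hsm
  refine ⟨de_norm hH.bdd hA.bdd, ?_, ?_, ?_, ?_⟩
  · obtain ⟨D, hD, hD'⟩ := hA.lat
    exact ⟨D, hD, fun z hz => hD' z (right_ne_zero_of_mul hz)⟩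
  · show H 0 * del1 𝔟 𝔪 t β b 0 = 0
    rw [hA.zero, mul_zero]
  · intro v hv
    exact absurd hv (Set.notMem_empty v)
  · intro B hB α hα0 hα
    have hα'b : α' ∈ 𝔟 := Ideal.mul_le_right hα'
    have hα'm : α' ∈ 𝔪 * 𝔟 := by
      have h4 := Ideal.mul_mono_left (K := 𝔟) (Ideal.mul_le_right (I := Ideal.span
        {((q ^ k : ℕ) : 𝓞 F)}) (J := 𝔪))
      exact h4 hα'
    obtain ⟨r, x, hr, hx⟩ := Ell.de2_sum hq 𝔟 hsm α' hα'b hα'0 (fun q h1 h2 =>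
      dvd_trans (hqq q h1 h2) ((Dvd.intro_left _ rfl).trans hR))
    refine ⟨r, fun j => ((algebraMap (𝓞 K) (𝓞 F) (x j) * α' : 𝓞 F) : F), hr, ?_, ?_⟩
    · intro j v hv
      exact absurd (hB hv) (Set.notMem_empty v)
    · intro z
      have h1 : ∀ j, (z + ((algebraMap (𝓞 K) (𝓞 F) (x j) * α' : 𝓞 F) : F) ∈ cls 𝔟 𝔪 t ↔
          z ∈ cls 𝔟 𝔪 t) := fun j =>
        de2_cls 𝔟 𝔪 t _ ((𝔪 * 𝔟).mul_mem_left _ hα'm) z
      unfold del1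
      simp only [h1]
      by_cases hc : z ∈ cls 𝔟 𝔪 t
      · have h5 : ∀ j, H (z + ((algebraMap (𝓞 K) (𝓞 F) (x j) * α' : 𝓞 F) : F)) = H z :=
          fun j => hH.per' (Ideal.mul_mem_left _ _ hα') hc
        simp only [if_pos hc, h5]
        obtain ⟨w, hw, hwt⟩ := hc
        have hwb : w ∈ 𝔟 := by
          have h4 : w = (w - t) + t := by ring
          rw [h4]
          exact Ideal.add_mem _ (Ideal.mul_le_right hwt) ht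
        rw [← Finset.mul_sum, ← hw, hx w hwb, mul_zero]
      · simp only [if_neg hc, mul_zero]
        exact Finset.sum_const_zero

end Pool.Agent.Lib.MP_1a91b9_nuW.VA
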