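import Pool.Agent.Lib.MP_1a91b9_nuW.VA.Sm
import Pool.Agent.Lib.MP_1a91b9_nuW.VA.De

/-!
# G7, stream VA, file Co1: effect of the smoothing for `Re s > 2`, with weights
-/

set_option autoImplicit false

namespace Pool.Agent.Lib.MP_1a91b9_nuW.VA

variable [Pool.Agent.Lib.MP_1a91b9_nuT.CD]

open Pool.Agent.Lib.MP_1a91b9_nuT hiding cj
open Pool.Agent.Lib.MP_1a91b9_nuT.Ell
open NumberField Module

universe u

variable {F : Type u} [Field F] [NumberField F] [Algebra K F] {q : ℕ}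

theorem SmE.one_mem {R k : ℕ} {ε : 𝓞 K} {β : 𝓞 F} {b : 𝓞 K} (h : SmE q R k ε β b)
    {𝔪 : Ideal (𝓞 F)} (hR : (R : 𝓞 F) ∈ 𝔪) : β - 1 ∈ 𝔪 := by
  obtain ⟨c, hc⟩ := h.1.one
  rw [hc]
  exact 𝔪.mul_mem_right c hR

/-- The weighted summand is invariant under the units. -/
theorem coW_termV {k : ℕ} {ε : 𝓞 K} {𝔟 𝔪 : Ideal (𝓞 F)} {t : 𝓞 F} {H : F → ℂ}
    (hH : WtA q k ε 𝔟 𝔪 t H)
    (hu : ∀ v ∈ unV 𝔪, Algebra.norm K ((v : 𝓞 F) : F) = 1) (v : (𝓞 F)ˣ) (hv : v ∈ unV 𝔪)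
    (s : ℂ) (z : F) (hz : z ∈ cls 𝔟 𝔪 t) :
    H (((v : 𝓞 F) : F) * z) * term s (((v : 𝓞 F) : F) * z) = H z * term s z := by
  rw [hH.unit v hv z hz, Ell.co_termV 𝔪 hu v hv s z]

theorem coW_term {R k : ℕ} {ε : 𝓞 K} {𝔟 𝔪 : Ideal (𝓞 F)} {t : 𝓞 F} {H : F → ℂ}
    (hH : WtA q k ε 𝔟 𝔪 t H) (hR : (R : 𝓞 F) ∈ 𝔪) (β : 𝓞 F) (b : 𝓞 K) (h : SmE q R k ε β b)
    (s : ℂ) (z : F) (hz : z ∈ cls 𝔟 𝔪 t) :
    H ((β : F) * z) * term s ((β : F) * z) =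
      (starRingEnd ℂ) (embK (b : K)) * (‖embK (b : K)‖ : ℂ) ^ (-2 * s) * (H z * term s z) := by
  rw [hH.beta β (h.one_mem hR) h.2 z hz, Ell.co_term β b h.1 s z]
  ring

/-- Effect of the smoothing by `β` on a summable family. -/
theorem coW_smooth1 (hq : q ≠ 1) {k : ℕ} {ε : 𝓞 K} (𝔟 𝔪 : Ideal (𝓞 F)) (t : 𝓞 F) (ht : t ∈ 𝔟)
    {H : F → ℂ} (hH : WtA q k ε 𝔟 𝔪 t H)
    (hu : ∀ v ∈ unV 𝔪, Algebra.norm K ((v : 𝓞 F) : F) = 1) {R : ℕ} (hR : (R : 𝓞 F) ∈ 𝔪)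
    {β : 𝓞 F} {b : 𝓞 K}
    (h : SmE q R k ε β b) (X : Set F) (hX : IsRepsU 𝔪 (cls 𝔟 𝔪 t) X) (s : ℂ) (a : ℂ)
    (ha : HasSum (fun z : X => H (z : F) * term s (z : F)) a) :
    HasSum (fun z : X => H (z : F) * del1 𝔟 𝔪 t β b z * term s (z : F))
      (a * (1 - (‖embK (b : K)‖ ^ 2 : ℝ) * (starRingEnd ℂ) (embK (b : K)) *
        (‖embK (b : K)‖ : ℂ) ^ (-2 * s))) := by
  classical
  have hY := Ell.co1_reps 𝔟 𝔪 t ht hR h.1 X hX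
  have h1 : HasSum (fun w : {w | w ∈ cls 𝔟 𝔪 t ∧ (β : F) * w ∈ X} =>
      H (w : F) * term s (w : F)) a :=
    (co_indep 𝔪 (cls 𝔟 𝔪 t) X _ hX hY (fun v hv z hz => co1_clsV 𝔟 𝔪 t ht v hv z hz)
      (fun z => H z * term s z) (fun v hv z hz => coW_termV hH hu v hv s z hz) a).mp ha
  have h2 : HasSum (fun w : {w | w ∈ cls 𝔟 𝔪 t ∧ (β : F) * w ∈ X} =>
      H ((β : F) * (w : F)) * term s ((β : F) * (w : F)))
      ((starRingEnd ℂ) (embK (b : K)) * (‖embK (b : K)‖ : ℂ) ^ (-2 * s) * a) := by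
    have e : (fun w : {w | w ∈ cls 𝔟 𝔪 t ∧ (β : F) * w ∈ X} =>
        H ((β : F) * (w : F)) * term s ((β : F) * (w : F))) =
        fun w : {w | w ∈ cls 𝔟 𝔪 t ∧ (β : F) * w ∈ X} =>
          (starRingEnd ℂ) (embK (b : K)) * (‖embK (b : K)‖ : ℂ) ^ (-2 * s) *
            (H (w : F) * term s (w : F)) :=
      funext fun w => coW_term hH hR β b h s (w : F) w.2.1
    rw [e]
    exact h1.mul_left _
  have h4 := Ell.co1_push hq 𝔟 𝔪 t ht hR h.1 X hX (fun z => H z * term s z) _ h2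
  have h5 := ha.sub (h4.mul_left ((‖embK (b : K)‖ ^ 2 : ℝ) : ℂ))
  have e : (fun z : X => H (z : F) * del1 𝔟 𝔪 t β b z * term s (z : F)) = fun z : X =>
      H (z : F) * term s (z : F) - ((‖embK (b : K)‖ ^ 2 : ℝ) : ℂ) *
        (if (z : F) ∈ mulI 𝔟 β then H (z : F) * term s (z : F) else 0) := by
    funext z
    unfold del1
    rw [if_pos (hX.1 z.2)]
    by_cases hm : (z : F) ∈ mulI 𝔟 β
    · rw [if_pos hm, if_pos hm]; ring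
    · rw [if_neg hm, if_neg hm]; ring
  have e2 : a * (1 - (‖embK (b : K)‖ ^ 2 : ℝ) * (starRingEnd ℂ) (embK (b : K)) *
        (‖embK (b : K)‖ : ℂ) ^ (-2 * s)) = a - ((‖embK (b : K)‖ ^ 2 : ℝ) : ℂ) *
        ((starRingEnd ℂ) (embK (b : K)) * (‖embK (b : K)‖ : ℂ) ^ (-2 * s) * a) := by ring
  rw [e, e2]
  exact h5

theorem coW_smooth (hq : q ≠ 1) {k : ℕ} {ε : 𝓞 K} (𝔟 𝔪 : Ideal (𝓞 F)) (t : 𝓞 F) (ht : t ∈ 𝔟)
    {H : F → ℂ} (hH : WtA q k ε 𝔟 𝔪 t H)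
    (hu : ∀ v ∈ unV 𝔪, Algebra.norm K ((v : 𝓞 F) : F) = 1) {R R' : ℕ} (hR : (R : 𝓞 F) ∈ 𝔪)
    (hR' : (R' : 𝓞 F) ∈ 𝔪)
    {β β' : 𝓞 F} {b b' : 𝓞 K} (h : SmE q R k ε β b) (h' : SmE q R' k ε β' b')
    (hcop : IsCoprime β β') (X : Set F) (hX : IsRepsU 𝔪 (cls 𝔟 𝔪 t) X) (s : ℂ) (a : ℂ)
    (ha : HasSum (fun z : X => H (z : F) * term s (z : F)) a) :
    HasSum (fun z : X => H (z : F) * del 𝔟 𝔪 t β' β b z * term s (z : F))
      (a * (1 - (‖embK (b : K)‖ ^ 2 : ℝ) * (starRingEnd ℂ) (embK (b : K)) *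
        (‖embK (b : K)‖ : ℂ) ^ (-2 * s)) *
        (1 - (starRingEnd ℂ) (embK (b' : K)) * (‖embK (b' : K)‖ : ℂ) ^ (-2 * s))) := by
  classical
  have hY := Ell.co1_reps 𝔟 𝔪 t ht hR' h'.1 X hX
  have h1 : HasSum (fun w : {w | w ∈ cls 𝔟 𝔪 t ∧ (β' : F) * w ∈ X} =>
      H (w : F) * term s (w : F)) a :=
    (co_indep 𝔪 (cls 𝔟 𝔪 t) X _ hX hY (fun v hv z hz => co1_clsV 𝔟 𝔪 t ht v hv z hz)
      (fun z => H z * term s z) (fun v hv z hz => coW_termV hH hu v hv s z hz) a).mp ha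
  have hX1 := coW_smooth1 hq 𝔟 𝔪 t ht hH hu hR h X hX s a ha
  have hY1 := coW_smooth1 hq 𝔟 𝔪 t ht hH hu hR h _ hY s a h1
  set A1 := a * (1 - (‖embK (b : K)‖ ^ 2 : ℝ) * (starRingEnd ℂ) (embK (b : K)) *
        (‖embK (b : K)‖ : ℂ) ^ (-2 * s)) with hA1
  have h2 : HasSum (fun w : {w | w ∈ cls 𝔟 𝔪 t ∧ (β' : F) * w ∈ X} =>
      H ((β' : F) * (w : F)) * del1 𝔟 𝔪 t β b ((β' : F) * (w : F)) *
        term s ((β' : F) * (w : F)))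
      ((starRingEnd ℂ) (embK (b' : K)) * (‖embK (b' : K)‖ : ℂ) ^ (-2 * s) * A1) := by
    have e : (fun w : {w | w ∈ cls 𝔟 𝔪 t ∧ (β' : F) * w ∈ X} =>
        H ((β' : F) * (w : F)) * del1 𝔟 𝔪 t β b ((β' : F) * (w : F)) *
          term s ((β' : F) * (w : F))) =
        fun w : {w | w ∈ cls 𝔟 𝔪 t ∧ (β' : F) * w ∈ X} =>
          (starRingEnd ℂ) (embK (b' : K)) * (‖embK (b' : K)‖ : ℂ) ^ (-2 * s) *
            (H (w : F) * del1 𝔟 𝔪 t β b w * term s (w : F)) := by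
      funext w
      have hd : del1 𝔟 𝔪 t β b ((β' : F) * (w : F)) = del1 𝔟 𝔪 t β b (w : F) := by
        have hc : (β' : F) * (w : F) ∈ cls 𝔟 𝔪 t :=
          ((Ell.co_mul 𝔟 𝔪 t ht hR' h'.1 _).mpr ⟨(w : F), w.2.1, rfl⟩).1
        unfold del1
        rw [if_pos hc, if_pos w.2.1, Ell.co1_cop 𝔟 𝔪 t ht h'.1 hcop w.2.1]
      have hw := coW_term hH hR' β' b' h' s (w : F) w.2.1
      rw [hd]
      linear_combination (del1 𝔟 𝔪 t β b (w : F)) * hw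
    rw [e]
    exact hY1.mul_left _
  have h4 := Ell.co1_push hq 𝔟 𝔪 t ht hR' h'.1 X hX
    (fun z => H z * del1 𝔟 𝔪 t β b z * term s z) _ h2
  have h5 := hX1.sub h4
  have e : (fun z : X => H (z : F) * del 𝔟 𝔪 t β' β b z * term s (z : F)) =
      fun z : X => H (z : F) * del1 𝔟 𝔪 t β b z * term s (z : F) -
        (if (z : F) ∈ mulI 𝔟 β' then H (z : F) * del1 𝔟 𝔪 t β b (z : F) * term s (z : F)
          else 0) := by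
    funext z
    unfold del del1
    by_cases hm : (z : F) ∈ mulI 𝔟 β'
    · rw [if_neg (fun hh => hh.2 hm), if_pos hm]; ring
    · rw [if_pos ⟨hX.1 z.2, hm⟩, if_neg hm, if_pos (hX.1 z.2)]; ring
  have e2 : A1 * (1 - (starRingEnd ℂ) (embK (b' : K)) * (‖embK (b' : K)‖ : ℂ) ^ (-2 * s)) =
      A1 - (starRingEnd ℂ) (embK (b' : K)) * (‖embK (b' : K)‖ : ℂ) ^ (-2 * s) * A1 := by ring
  rw [e, e2]
  exact h5

/-- Representatives of a stable subset. -/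
theorem repsU_sub {𝔪 : Ideal (𝓞 F)} {C D X : Set F} (hX : IsRepsU 𝔪 C X) (hD : D ⊆ C)
    (hV : ∀ v : (𝓞 F)ˣ, (v : 𝓞 F) - 1 ∈ 𝔪 → ∀ z ∈ D, ((v : 𝓞 F) : F) * z ∈ D) :
    IsRepsU 𝔪 D (X ∩ D) := by
  refine ⟨fun z hz => hz.2, fun z hz => ?_⟩
  obtain ⟨v, ⟨hv1, hv2⟩, hv3⟩ := hX.2 z (hD hz)
  refine ⟨v, ⟨hv1, hv2, hV v hv1 z hz⟩, ?_⟩
  rintro y ⟨hy1, hy2, -⟩
  exact hv3 y ⟨hy1, hy2⟩

/-- A sum over the part of the representatives where the function does not vanish. -/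
theorem hasSum_inter {X D : Set F} {f : F → ℂ} (hf : ∀ z ∈ X, z ∉ D → f z = 0) (a : ℂ) :
    HasSum (fun z : (X ∩ D : Set F) => f (z : F)) a ↔ HasSum (fun z : X => f (z : F)) a := by
  have h1 := fun Y : Set F => hasSum_subtype_iff_indicator (f := f) (s := Y) (a := a)
  have h2 : (X ∩ D).indicator f = X.indicator f := by
    funext z
    by_cases hz : z ∈ X
    · by_cases hz2 : z ∈ D
      · rw [Set.indicator_of_mem (show z ∈ X ∩ D from ⟨hz, hz2⟩), Set.indicator_of_mem hz]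
      · rw [Set.indicator_of_notMem (fun h => hz2 h.2), Set.indicator_of_mem hz, hf z hz hz2]
    · rw [Set.indicator_of_notMem (fun h => hz h.1), Set.indicator_of_notMem hz]
  have h3 := h1 (X ∩ D)
  have h4 := h1 X
  rw [h2] at h3
  exact h3.trans h4.symm

end Pool.Agent.Lib.MP_1a91b9_nuW.VA
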