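import Pool.Agent.Lib.MP_1a91b9_nuW.VA.Co1

/-!
# G7, stream VA, file Co2: entire continuation of the partial series with weights
-/

set_option autoImplicit false

namespace Pool.Agent.Lib.MP_1a91b9_nuW.VA

variable [Pool.Agent.Lib.MP_1a91b9_nuT.CD]

open Pool.Agent.Lib.MP_1a91b9_nuT hiding cj
open Pool.Agent.Lib.MP_1a91b9_nuT.Ell
open NumberField Module

universe u

variable {F : Type u} [Field F] [NumberField F] [Algebra K F] {q : ℕ}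

private theorem del1_ne {𝔟 𝔪 : Ideal (𝓞 F)} {t β : 𝓞 F} {b : 𝓞 K} {z : F}
    (h : del1 𝔟 𝔪 t β b z ≠ 0) : z ∈ cls 𝔟 𝔪 t := by
  by_contra hz
  exact h (by unfold del1; rw [if_neg hz])

private theorem del_ne {𝔟 𝔪 : Ideal (𝓞 F)} {t β' β : 𝓞 F} {b : 𝓞 K} {z : F}
    (h : del 𝔟 𝔪 t β' β b z ≠ 0) : z ∈ cls 𝔟 𝔪 t := by
  by_contra hz
  exact h (by unfold del; rw [if_neg (fun hh => hz hh.1)])

/-- the smoothed weights are invariant under the units -/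
theorem coW_inv {k : ℕ} {ε : 𝓞 K} {𝔟 𝔪 : Ideal (𝓞 F)} {t : 𝓞 F} (ht : t ∈ 𝔟) {H : F → ℂ}
    (hH : WtA q k ε 𝔟 𝔪 t H) (β' β : 𝓞 F) (b : 𝓞 K) (v : (𝓞 F)ˣ) (hv : v ∈ unV 𝔪) (z : F) :
    (H (((v : 𝓞 F) : F) * z) * del 𝔟 𝔪 t β' β b (((v : 𝓞 F) : F) * z) =
      H z * del 𝔟 𝔪 t β' β b z) ∧
    (H (((v : 𝓞 F) : F) * z) * del1 𝔟 𝔪 t β b (((v : 𝓞 F) : F) * z) =
      H z * del1 𝔟 𝔪 t β b z) := by
  obtain ⟨h1, h2⟩ := co_inv 𝔟 𝔪 t ht β' β b v hv z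
  rw [h1, h2]
  constructor
  · by_cases hz : del 𝔟 𝔪 t β' β b z = 0
    · rw [hz, mul_zero, mul_zero]
    · rw [hH.unit v hv z (del_ne hz)]
  · by_cases hz : del1 𝔟 𝔪 t β b z = 0
    · rw [hz, mul_zero, mul_zero]
    · rw [hH.unit v hv z (del1_ne hz)]

/-- representatives of the support of a function invariant under the units -/
theorem coW_sup {𝔟 𝔪 : Ideal (𝓞 F)} {t : 𝓞 F} {X : Set F}
    (hX : IsRepsU 𝔪 (cls 𝔟 𝔪 t) X) {δ : F → ℂ} (h1 : ∀ z, δ z ≠ 0 → z ∈ cls 𝔟 𝔪 t)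
    (h2 : ∀ v ∈ unV 𝔪, ∀ z, δ (((v : 𝓞 F) : F) * z) = δ z) :
    IsRepsU 𝔪 (Function.support δ) (X ∩ Function.support δ) := by
  refine repsU_sub hX (fun z hz => h1 z hz) fun v hv z hz => ?_
  rw [Function.mem_support, h2 v hv z]
  exact hz

theorem coW_gb (hq : q.Prime) (f : ℕ) (hf : 3 ≤ f) (hfq : f.Coprime q) {k : ℕ} {ε₀ : 𝓞 K} {m : ℕ}
    (σ : Fin (m + 1) → (F →ₐ[K] ℂ)) (hσ : Function.Bijective σ)
    (𝔟 𝔪 : Ideal (𝓞 F)) (hb : 𝔟 ≠ ⊥) (hm : 𝔪 ≠ ⊥) (hm2 : IsCoprime 𝔪 (Ideal.span {(q : 𝓞 F)}))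
    (hu : ∀ v ∈ unV 𝔪, Algebra.norm K ((v : 𝓞 F) : F) = 1)
    (htor : ∀ v ∈ unV 𝔪, ∀ k : ℕ, 0 < k → v ^ k = 1 → v = 1)
    (t : 𝓞 F) (ht : t ∈ 𝔟) (ht' : t ∉ 𝔪 * 𝔟) {H : F → ℂ} (hH : WtA q k ε₀ 𝔟 𝔪 t H) :
    ∃ R₁ : ℕ, R₁.Coprime q ∧ f ∣ R₁ ∧ ∀ (β : 𝓞 F) (b : 𝓞 K), SmE q R₁ k ε₀ β b →
      ∃ g : ℂ → ℂ, Differentiable ℂ g ∧ ∀ X : Set F, IsRepsU 𝔪 (cls 𝔟 𝔪 t) X →
        ∀ s : ℂ, 2 < s.re → ∃ T : ℂ, HasSum (fun z : X => H (z : F) * term s (z : F)) T ∧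
          g s = T * facQ b s := by
  obtain ⟨R₀, hR₀, hadm⟩ := deW_adm1 hq k 𝔟 𝔪 hb hm t ht ht' hH
  have hN := absNorm_cop hq 𝔪 hm2
  obtain ⟨ε, hε, hbas⟩ := un_free σ hσ 𝔪 hm htor
  have hdet := un_det σ hσ 𝔪 hm ε hbas
  refine ⟨f * R₀ * Ideal.absNorm 𝔪, Nat.Coprime.mul_left (Nat.Coprime.mul_left hfq hR₀) hN,
    ⟨R₀ * Ideal.absNorm 𝔪, by ring⟩, ?_⟩
  intro β b hsm
  have hR : ((f * R₀ * Ideal.absNorm 𝔪 : ℕ) : 𝓞 F) ∈ 𝔪 := by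
    push_cast
    exact 𝔪.mul_mem_left _ (Ideal.absNorm_mem 𝔪)
  have h3R : f ∣ f * R₀ * Ideal.absNorm 𝔪 := ⟨R₀ * Ideal.absNorm 𝔪, by ring⟩
  have hA := hadm _ β b (⟨f * Ideal.absNorm 𝔪, by ring⟩ : R₀ ∣ f * R₀ * Ideal.absNorm 𝔪) hsm.1
  obtain ⟨δ, hδ⟩ : ∃ δ : F → ℂ, δ = fun z => H z * del1 𝔟 𝔪 t β b z := ⟨_, rfl⟩
  have hδz : ∀ z, δ z = H z * del1 𝔟 𝔪 t β b z := fun z => by rw [hδ]
  rw [← hδ] at hA
  have hinv : ∀ v ∈ unV 𝔪, ∀ z, δ (((v : 𝓞 F) : F) * z) = δ z := fun v hv z => by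
    rw [hδz, hδz]
    exact (coW_inv ht hH β β b v hv z).2
  obtain ⟨I, -, -, -, h4⟩ := s2_main σ hσ δ ∅ Set.finite_empty hA
  obtain ⟨g, hg, hgs, -⟩ := h4 (fun i => ((ε i : 𝓞 F) : F)) (fun i => by
      intro h0
      have h1 : ((ε i : (𝓞 F)ˣ) : 𝓞 F) = 0 := RingOfIntegers.ext h0
      exact (ε i).ne_zero h1) (fun i => hu (ε i) (hε i))
    (fun i z => hinv (ε i) (hε i) z) hdet
  refine ⟨g, hg, fun X hX s hs => ?_⟩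
  have hX' : IsReps (fun i => ((ε i : 𝓞 F) : F)) (Function.support δ)
      (X ∩ Function.support δ) :=
    (co_reps 𝔪 ε hε hbas _ _).mp (coW_sup hX (fun z hz => del1_ne
      (right_ne_zero_of_mul ((hδz z) ▸ hz))) hinv)
  have h5 := hgs _ hX' s hs
  have h6 : HasSum (fun z : X => H (z : F) * del1 𝔟 𝔪 t β b z * term s (z : F)) (g s) := by
    have e : (fun z : (X ∩ Function.support δ : Set F) => δ z * (starRingEnd ℂ) (NF (z : F)) *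
        (‖NF (z : F)‖ : ℂ) ^ (-2 * s)) = fun z : (X ∩ Function.support δ : Set F) =>
        H (z : F) * del1 𝔟 𝔪 t β b z * term s (z : F) := by
      funext z
      rw [hδz]
      unfold term
      rw [mul_assoc]
    rw [e] at h5
    refine (hasSum_inter (f := fun z => H z * del1 𝔟 𝔪 t β b z * term s z) (fun z _ hz => ?_)
      _).mp h5
    rw [Function.mem_support, not_not, hδz] at hz
    rw [hz, zero_mul]
  have hgt := sm_gt hq.one_lt.ne' f hf _ h3R β b hsm.1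
  have h7 : Summable (fun z : X => H (z : F) * term s (z : F)) := by
    have h8 : Summable (fun z : X => ‖H (z : F) * del1 𝔟 𝔪 t β b z * term s (z : F)‖) :=
      h6.summable.norm
    refine Summable.of_norm_bounded h8 fun z => ?_
    rw [show H (z : F) * del1 𝔟 𝔪 t β b z * term s (z : F) =
      del1 𝔟 𝔪 t β b z * (H (z : F) * term s (z : F)) by ring,
      norm_mul (del1 𝔟 𝔪 t β b (z : F))]
    refine le_mul_of_one_le_left (norm_nonneg _) ?_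
    unfold del1
    rw [if_pos (hX.1 z.2)]
    by_cases hm : (z : F) ∈ mulI 𝔟 β
    · rw [if_pos hm, mul_one, ← Complex.ofReal_one, ← Complex.ofReal_sub, Complex.norm_real,
        Real.norm_eq_abs, abs_sub_comm, abs_of_nonneg (by linarith)]
      linarith
    · rw [if_neg hm, mul_zero, sub_zero, norm_one]
  obtain ⟨T, hT⟩ := h7
  refine ⟨T, hT, ?_⟩
  exact h6.unique (coW_smooth1 hq.one_lt.ne' 𝔟 𝔪 t ht hH hu hR hsm X hX s T hT)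

theorem coW_entire (hq : q.Prime) (f : ℕ) (hf : 3 ≤ f) (hfq : f.Coprime q) {k : ℕ} {ε : 𝓞 K}
    (hε : IsCoprime ε (q : 𝓞 K)) (hε1 : IsCoprime (ε ^ Module.finrank K F - 1) (q : 𝓞 K))
    {m : ℕ} (σ : Fin (m + 1) → (F →ₐ[K] ℂ)) (hσ : Function.Bijective σ)
    (𝔟 𝔪 : Ideal (𝓞 F)) (hb : 𝔟 ≠ ⊥) (hm : 𝔪 ≠ ⊥) (hm2 : IsCoprime 𝔪 (Ideal.span {(q : 𝓞 F)}))
    (hu : ∀ v ∈ unV 𝔪, Algebra.norm K ((v : 𝓞 F) : F) = 1)
    (htor : ∀ v ∈ unV 𝔪, ∀ k : ℕ, 0 < k → v ^ k = 1 → v = 1)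
    (t : 𝓞 F) (ht : t ∈ 𝔟) (ht' : t ∉ 𝔪 * 𝔟) {H : F → ℂ} (hH : WtA q k ε 𝔟 𝔪 t H) :
    ∃ g : ℂ → ℂ, Differentiable ℂ g ∧ ∀ X : Set F, IsRepsU 𝔪 (cls 𝔟 𝔪 t) X →
      ∀ s : ℂ, 2 < s.re → HasSum (fun z : X => H (z : F) * term s (z : F)) (g s) := by
  obtain ⟨R₁, hodd, h3R, hall⟩ := coW_gb hq f hf hfq σ hσ 𝔟 𝔪 hb hm hm2 hu htor t ht ht' hH
  obtain ⟨h0, hV⟩ := co_cls 𝔟 𝔪 t ht ht'
  obtain ⟨X₀, hX₀⟩ := co_exists 𝔪 (cls 𝔟 𝔪 t) h0 hV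
  have hsel : ∀ s₀ : ℂ, ∃ (b : 𝓞 K) (G : ℂ → ℂ), b ≠ 0 ∧ facQ b s₀ ≠ 0 ∧ Differentiable ℂ G ∧
      ∀ X : Set F, IsRepsU 𝔪 (cls 𝔟 𝔪 t) X →
        ∀ s : ℂ, 2 < s.re → ∃ T : ℂ, HasSum (fun z : X => H (z : F) * term s (z : F)) T ∧
          G s = T * facQ b s := by
    intro s₀
    obtain ⟨β, b, hsm, hne⟩ := smE_var hq ε hε hε1 k f hf R₁ hodd h3R s₀
    obtain ⟨G, hG, hGs⟩ := hall β b hsm
    exact ⟨b, G, kq_ne hq.one_lt.ne' hsm.1.c0, hne, hG, hGs⟩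
  choose b G hbne hfac hG hGs using hsel
  have hident : ∀ s₀ s₁ : ℂ, (fun s => G s₀ s * facQ (b s₁) s) = fun s => G s₁ s * facQ (b s₀) s := by
    intro s₀ s₁
    have hd1 : Differentiable ℂ (fun s => G s₀ s * facQ (b s₁) s) :=
      (hG s₀).mul (facQ_diff _ (hbne s₁))
    have hd2 : Differentiable ℂ (fun s => G s₁ s * facQ (b s₀) s) :=
      (hG s₁).mul (facQ_diff _ (hbne s₀))
    have ha1 : AnalyticOnNhd ℂ (fun s => G s₀ s * facQ (b s₁) s) Set.univ :=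
      fun z _ => hd1.analyticAt z
    have ha2 : AnalyticOnNhd ℂ (fun s => G s₁ s * facQ (b s₀) s) Set.univ :=
      fun z _ => hd2.analyticAt z
    refine ha1.eq_of_eventuallyEq ha2 (z₀ := 3) ?_
    have hopen : IsOpen {s : ℂ | 2 < s.re} := isOpen_lt continuous_const Complex.continuous_re
    filter_upwards [hopen.mem_nhds (show (3 : ℂ) ∈ {s : ℂ | 2 < s.re} by
      show (2 : ℝ) < (3 : ℂ).re
      norm_num)] with s hs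
    obtain ⟨T, hT, e1⟩ := hGs s₀ X₀ hX₀ s hs
    obtain ⟨T', hT', e2⟩ := hGs s₁ X₀ hX₀ s hs
    rw [e1, e2, hT.unique hT']
    ring
  refine ⟨fun s => G s s / facQ (b s) s, ?_, ?_⟩
  · intro s₀
    have hd : DifferentiableAt ℂ (fun s => G s₀ s / facQ (b s₀) s) s₀ :=
      ((hG s₀) s₀).div ((facQ_diff _ (hbne s₀)) s₀) (hfac s₀)
    refine hd.congr_of_eventuallyEq ?_
    have hc : ContinuousAt (facQ (b s₀)) s₀ := ((facQ_diff _ (hbne s₀)) s₀).continuousAt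
    filter_upwards [hc.eventually_ne (hfac s₀)] with s hs
    have h1 := congrFun (hident s s₀) s
    rw [div_eq_div_iff (hfac s) hs]
    exact h1
  · intro X hX s hs
    obtain ⟨T, hT, e1⟩ := hGs s X hX s hs
    have e2 : G s s / facQ (b s) s = T := by
      rw [e1, mul_div_cancel_right₀ _ (hfac s)]
    show HasSum (fun z : X => H (z : F) * term s (z : F)) (G s s / facQ (b s) s)
    rw [e2]
    exact hT

end Pool.Agent.Lib.MP_1a91b9_nuW.VA
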