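import Pool.Agent.Lib.MP_1a91b9_nuW.VA.Co2

/-!
# G7, stream VA, file Co3: the value at 1 of the partial series with weights

Port of nuT/D6/{Sm, De, Co1, Co2, Co3} with the weight `H`.
-/

set_option autoImplicit false

namespace Pool.Agent.Lib.MP_1a91b9_nuW.VA

variable [Pool.Agent.Lib.MP_1a91b9_nuT.CD]

open Pool.Agent.Lib.MP_1a91b9_nuT hiding cj
open Pool.Agent.Lib.MP_1a91b9_nuT.Ell
open NumberField Module

universe u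

variable {F : Type u} [Field F] [NumberField F] [Algebra K F]

/-- The functional equation of the smoothing: the value at `1`. -/
private theorem co3W_id {g g₂ : ℂ → ℂ} (hg : Differentiable ℂ g)
    (hg₂ : Differentiable ℂ g₂) {b b' : 𝓞 K} (hb : b ≠ 0) (hb' : b' ≠ 0)
    (heq : ∀ s : ℂ, 2 < s.re → g₂ s = g s * facQ b s * facP b' s) :
    g₂ 1 = g 1 * facQ b 1 * facP b' 1 := by
  have hd2 : Differentiable ℂ (fun s => g s * facQ b s * facP b' s) :=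
    (hg.mul (facQ_diff b hb)).mul (facP_diff b' hb')
  have ha1 : AnalyticOnNhd ℂ g₂ Set.univ := fun z _ => hg₂.analyticAt z
  have ha2 : AnalyticOnNhd ℂ (fun s => g s * facQ b s * facP b' s) Set.univ :=
    fun z _ => hd2.analyticAt z
  have hid : g₂ = fun s => g s * facQ b s * facP b' s := by
    refine ha1.eq_of_eventuallyEq ha2 (z₀ := 3) ?_
    have hopen : IsOpen {s : ℂ | 2 < s.re} := isOpen_lt continuous_const Complex.continuous_re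
    filter_upwards [hopen.mem_nhds (show (3 : ℂ) ∈ {s : ℂ | 2 < s.re} by
      show (2 : ℝ) < (3 : ℂ).re
      norm_num)] with s hs
    exact heq s hs
  exact congrFun hid 1

theorem co_valW {q : ℕ} (hq : q.Prime) (ε : 𝓞 K) (hε : IsCoprime ε (q : 𝓞 K))
    (hε1 : IsCoprime (ε ^ finrank K F - 1) (q : 𝓞 K)) (k : ℕ)
    {m : ℕ} (σ : Fin (m + 1) → (F →ₐ[K] ℂ)) (hσ : Function.Bijective σ)
    (𝔟 𝔪 : Ideal (𝓞 F)) (hb : 𝔟 ≠ ⊥) (hbq : IsCoprime 𝔟 (Ideal.span {(q : 𝓞 F)})) (hm : 𝔪 ≠ ⊥)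
    (hmq : IsCoprime 𝔪 (Ideal.span {(q : 𝓞 F)}))
    (hu : ∀ v ∈ unV 𝔪, Algebra.norm K ((v : 𝓞 F) : F) = 1)
    (htor : ∀ v ∈ unV 𝔪, ∀ k : ℕ, 0 < k → v ^ k = 1 → v = 1)
    (t : 𝓞 F) (ht : t ∈ 𝔟) (ht' : t ∉ 𝔪 * 𝔟) (H : F → ℂ) (hH : WtA q k ε 𝔟 𝔪 t H)
    (bb : Basis (Fin (m + 1)) K F)
    (hbb : ∀ v : F, v ∈ DL 𝔟 ↔ ∀ i, ∃ a : 𝓞 K, bb.repr v i = a)
    (hbb' : ∀ z : F, (∀ i, ∃ a : 𝓞 K, Algebra.trace K F (bb i * z) = a) ↔ ∃ w ∈ 𝔟, (w : F) = z)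
    (A : ValuationSubring ℂ) (hA : Pl q A) (M : AddSubgroup ℂ)
    (hMA : ∀ a ∈ A, ∀ x ∈ M, a * x ∈ M)
    (hFr : ∀ (R' : ℕ) (β' : 𝓞 F) (b' : 𝓞 K), SmE q R' k ε β' b' → ∀ S : Finset F,
      (∀ w ∈ S, Gen 𝔟 β' w) → FrOK q k ε 𝔟 𝔪 t β' H σ bb S M) :
    ∃ g : ℂ → ℂ, Differentiable ℂ g ∧
      (∀ X : Set F, IsRepsU 𝔪 (cls 𝔟 𝔪 t) X → ∀ s : ℂ, 2 < s.re →
        HasSum (fun z : X => H (z : F) * term s (z : F)) (g s)) ∧ g 1 ∈ M := by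
  classical
  have hn : Module.finrank K F = m + 1 := nf_card σ hσ
  have hq1 : q ≠ 1 := hq.one_lt.ne'
  obtain ⟨f, hf, hfq⟩ : ∃ f : ℕ, 3 ≤ f ∧ f.Coprime q := by
    refine ⟨q + 1, ?_, ?_⟩
    · have := hq.two_le
      omega
    · exact (Nat.coprime_self_add_left (m := q) (n := 1)).2 (Nat.coprime_one_left q)
  obtain ⟨g, hg, hgs⟩ := coW_entire hq f hf hfq hε hε1 σ hσ 𝔟 𝔪 hb hm hmq hu htor t ht ht' hH
  refine ⟨g, hg, hgs, ?_⟩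
  obtain ⟨N, hNodd, hN⟩ : ∃ N : ℕ, N.Coprime q ∧ (N : 𝓞 F) ∈ 𝔪 :=
    ⟨Ideal.absNorm 𝔪, absNorm_cop hq 𝔪 hmq, Ideal.absNorm_mem 𝔪⟩
  have hN3 : (f * N).Coprime q := Nat.Coprime.mul_left hfq hNodd
  obtain ⟨β', b', hβ'⟩ := smE_exists (F := F) hq ε hε hε1 k (f * N) hN3
  have hR' : ((f * N : ℕ) : 𝓞 F) ∈ 𝔪 := by
    push_cast
    exact 𝔪.mul_mem_left _ hN
  obtain ⟨v₀, hv₀⟩ := gen_exists hq1 𝔟 hb hβ'.1
  obtain ⟨ep, hep, hepb⟩ := un_free σ hσ 𝔪 hm htor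
  obtain ⟨S, hS1, hS2, hS3⟩ := co_S hq 𝔟 β' b' hβ'.1 bb hbb v₀ hv₀ ep
  obtain ⟨R₀, hR₀, hadm⟩ := deW_adm hq k 𝔟 𝔪 hb hm t ht hH f hf (Dvd.intro N rfl) β' b' hβ'.1 S
    hS1
  obtain ⟨R₁, hR₁, hfr⟩ := hFr (f * N) β' b' hβ' S hS1
  have hN1 : (Ideal.absNorm (Ideal.span {β'})).Coprime q := absNorm_cop' hq β' (de_copq hβ'.1)
  have hN2 : β' ∣ ((Ideal.absNorm (Ideal.span {β'}) : ℕ) : 𝓞 F) := by
    rw [← Ideal.mem_span_singleton]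
    exact Ideal.absNorm_mem _
  obtain ⟨N', hN'⟩ : ∃ N' : ℕ, N' = Ideal.absNorm (Ideal.span {β'}) := ⟨_, rfl⟩
  rw [← hN'] at hN1 hN2
  obtain ⟨Q, hQ⟩ : ∃ Q : ℕ, Q = f * R₀ * R₁ * N * N' := ⟨_, rfl⟩
  have hRodd : Q.Coprime q := by
    rw [hQ]
    exact Nat.Coprime.mul_left (Nat.Coprime.mul_left (Nat.Coprime.mul_left
      (Nat.Coprime.mul_left hfq hR₀) hR₁) hNodd) hN1
  obtain ⟨β, b, hβ⟩ := smE_exists (F := F) hq ε hε hε1 k Q hRodd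
  have hNQ : N ∣ Q := ⟨f * R₀ * R₁ * N', by rw [hQ]; ring⟩
  have hR : (Q : 𝓞 F) ∈ 𝔪 := by
    obtain ⟨x, hx⟩ := hNQ
    rw [hx]
    push_cast
    exact 𝔪.mul_mem_right _ hN
  have hcop : IsCoprime β β' := by
    have h := de_cop hq hβ.1 N' (Nat.pos_of_ne_zero (cop_ne hq hN1)) (fun t _ ht2 => by
      rw [hQ]
      exact ht2.mul_left _)
    exact h.of_isCoprime_of_dvd_right hN2
  have hAdm := hadm Q β b ⟨f * R₁ * N * N', by rw [hQ]; ring⟩ hβ.1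
  have hfrv := hfr Q β b ⟨f * R₀ * N * N', by rw [hQ]; ring⟩ hβ
  obtain ⟨δ, hδ⟩ : ∃ δ : F → ℂ, δ = fun z => H z * del 𝔟 𝔪 t β' β b z := ⟨_, rfl⟩
  have hδz : ∀ z, δ z = H z * del 𝔟 𝔪 t β' β b z := fun z => by rw [hδ]
  rw [← hδ] at hAdm hfrv
  have hinv : ∀ v ∈ unV 𝔪, ∀ z, δ (((v : 𝓞 F) : F) * z) = δ z := fun v hv z => by
    rw [hδz, hδz]
    exact (coW_inv ht hH β' β b v hv z).1
  obtain ⟨I, hI1, hI2, hI3, hI4⟩ := s2_main σ hσ δ (S : Set F) S.finite_toSet hAdm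
  set ε' : Fin m → F := fun i => ((ep i : 𝓞 F) : F) with hε'
  obtain ⟨g₂, hg₂, hg₂s, hg₂v⟩ := hI4 ε' (fun i => by
      have h1 : ((ep i : (𝓞 F)ˣ) : 𝓞 F) ≠ 0 := (ep i).ne_zero
      exact RingOfIntegers.coe_ne_zero_iff.2 h1)
    (fun i => hu (ep i) (hep i))
    (fun i z => hinv (ep i) (hep i) z)
    (un_det σ hσ 𝔪 hm ep hepb)
  -- the value of `g₂` at `1`
  have hval := hg₂v v₀ (by
      have h1 := hS2 ∅
      rw [Finset.prod_empty, mul_one] at h1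
      exact (hAdm.ne v₀ h1).1) (fun T => hS2 T)
  have hpathM : ∀ s : Equiv.Perm (Fin m), I (path ε' s v₀) ∈ M := by
    refine hS3 I M (fun w hw => hI1 w hw) (fun w hw => hI2 w hw) ?_
    intro w hw hl huni
    refine hfrv w hw hl huni (I w) ?_
    intro D c hD hc h1 h2 zz hzz
    exact hI3 w hw hl D c hD hc h1 h2 zz hzz
  have hg2M : g₂ 1 ∈ M := by
    have hint : ∀ (z : ℤ) (x : ℂ), x ∈ M → (z : ℂ) * x ∈ M := by
      intro z x hx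
      have h := M.zsmul_mem hx z
      rwa [zsmul_eq_mul] at h
    rw [hval]
    refine hint _ _ (AddSubgroup.sum_mem _ fun s _ => ?_)
    exact hint _ _ (hpathM s)
  -- the functional equation of the smoothing
  obtain ⟨h0cls, hVcls⟩ := co_cls 𝔟 𝔪 t ht ht'
  obtain ⟨X, hX⟩ := co_exists 𝔪 (cls 𝔟 𝔪 t) h0cls hVcls
  have hδc : ∀ z, δ z ≠ 0 → z ∈ cls 𝔟 𝔪 t := by
    intro z hz
    by_contra hz'
    refine hz ?_
    rw [hδz]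
    unfold del
    rw [if_neg (fun hh => hz' hh.1), mul_zero]
  have hX'' : IsReps ε' (Function.support δ) (X ∩ Function.support δ) :=
    (co_reps 𝔪 ep hep hepb _ _).1 (coW_sup hX hδc hinv)
  have heq : ∀ s : ℂ, 2 < s.re → g₂ s = g s * facQ b s * facP b' s := by
    intro s hs
    have h1 := hg₂s _ hX'' s hs
    have h2 := coW_smooth hq1 𝔟 𝔪 t ht hH hu hR hR' hβ hβ' hcop X hX s (g s) (hgs X hX s hs)
    have e : (fun z : (X ∩ Function.support δ : Set F) => δ z * (starRingEnd ℂ) (NF (z : F)) *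
        (‖NF (z : F)‖ : ℂ) ^ (-2 * s)) = fun z : (X ∩ Function.support δ : Set F) =>
        H (z : F) * del 𝔟 𝔪 t β' β b z * term s (z : F) := by
      funext z
      rw [hδz]
      unfold term
      rw [mul_assoc]
    rw [e] at h1
    have h5 := (hasSum_inter (f := fun z => H z * del 𝔟 𝔪 t β' β b z * term s z)
      (fun z _ hz => by
        rw [Function.mem_support, not_not, hδz] at hz
        rw [hz, zero_mul]) _).mp h1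
    exact h5.unique h2
  obtain ⟨hQ1, hQ2, hP1, hP2⟩ := co3_fac A hA b b' hβ.1.c0 hβ.1.c1 hβ'.1.c0 hβ'.1.c1
  have h1 : g₂ 1 = g 1 * facQ b 1 * facP b' 1 :=
    co3W_id hg hg₂ (kq_ne hq1 hβ.1.c0) (kq_ne hq1 hβ'.1.c0) heq
  have h2 : g 1 = (facP b' 1)⁻¹ * ((facQ b 1)⁻¹ * g₂ 1) := by
    rw [h1]
    field_simp
  rw [h2]
  exact hMA _ hP2 _ (hMA _ hQ2 _ hg2M)

end Pool.Agent.Lib.MP_1a91b9_nuW.VA
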