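import Pool.Agent.Lib.MP_1a91b9_nuW.VA.CoreA

/-!
# G7, stream VA, file Core: the sum attached to a frame

PROOF.
* `core_sum`: put `φ_j x = exK (embK (Y_j * x / D)) * (c⁻¹ * E1 (embK x / (D c)))` for `x : 𝓞 K`, `f x = G x * ∏ φ_j (x_j)`.
  `ixK D c x = (x.1 + x.2 om) / D`, `ixC D c x = embK (..) / D`, so the sum in the statement is the sum of `f` over the residue system
  `crs_fin (c * D)`. `φ_j` is periodic modulo `c D` (`exK_int` with `c Y_j u = c₁ c₂ Y_j u`; `E1_congr`), and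
  `D c₁ ∣ c D`, so `f` is periodic modulo `c D`. `(D c₁) * c₂ = c D`: by `crs_exists` for `D c₁` (`ι₁, ρ`) and for `c₂` (`ι₂, s`),
  `crs_mul`, `sum_crs`: the sum is `∑_{x : Fin n → ι₁ × ι₂} f (ρ (x i).1 + D c₁ s (x i).2)`, and by `Equiv.arrowProdEquivProdArrow`
  (or `Fintype.sum_equiv` with a direct equivalence) and `Finset.prod_univ_sum` (`Fintype.piFinset_univ`)
  `= ∑_{x : Fin n → ι₁} G (ρ ∘ x) * ∏_j ∑_{l : ι₂} φ_j (ρ (x j) + D c₁ s l)` (`G (ρ + D c₁ s) = G ρ` by `hGp`). Divide by `Om ^ n`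
  (`Finset.prod_div_distrib`): every term is `0` or all the inner sums divided by `Om` are in `A` by `inner_sum` (`hne`).
-/

set_option autoImplicit false

namespace Pool.Agent.Lib.MP_1a91b9_nuW.VA

variable [Pool.Agent.Lib.MP_1a91b9_nuT.CD]

open Pool.Agent.Lib.MP_1a91b9_nuT hiding cj
open Pool.Agent.Lib.MP_1a91b9_nuT.S3 (E1_congr)
open NumberField

/-- The sum attached to a frame. -/
theorem core_sum {A : ValuationSubring ℂ} {n : ℕ} (D c : ℕ) (hD0 : 0 < D) (hc0 : 0 < c)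
    (hD : A.valuation (D : ℂ) = 1) (c₁ c₂ : 𝓞 K) (hcc : c₁ * c₂ = (c : 𝓞 K))
    (hc₁ : A.valuation (embK (c₁ : K)) = 1) (hc₂ : A.valuation (embK ((cK c₂ : 𝓞 K) : K)) = 1)
    (G : (Fin n → 𝓞 K) → ℂ) (hGA : ∀ x, G x ∈ A)
    (hGp : ∀ x y : Fin n → 𝓞 K, (∀ i, (D : 𝓞 K) * c₁ ∣ x i - y i) → G x = G y)
    (Y : Fin n → K) (hY1 : ∀ j, ∃ a : 𝓞 K, (c₁ : K) * (c₂ : K) * Y j = a)
    (hY2 : ∀ j, ¬ ∃ a : 𝓞 K, (c₁ : K) * Y j = a)
    (hne : ∀ x, G x ≠ 0 → ∀ j, ¬ (D : 𝓞 K) * c₁ ∣ cK c₂ * x j) :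
    (∑ x : Fin n → Fin (c * D) × Fin (c * D),
      G (fun i => (((x i).1 : ℕ) : 𝓞 K) + (((x i).2 : ℕ) : 𝓞 K) * ta) *
        ∏ i, (exK (embK (Y i * ixK D c (x i))) * ((c : ℂ)⁻¹ * E1 (ixC D c (x i) / c)))) /
      Om ^ n ∈ A := by
  classical
  have hDK : (D : K) ≠ 0 := by exact_mod_cast hD0.ne'
  have hcO : (c : 𝓞 K) ≠ 0 := by exact_mod_cast hc0.ne'
  have hDO : (D : 𝓞 K) ≠ 0 := by exact_mod_cast hD0.ne'
  have hDC : (D : ℂ) ≠ 0 := by exact_mod_cast hD0.ne'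
  have hcC : (c : ℂ) ≠ 0 := by exact_mod_cast hc0.ne'
  have hc₁0 : c₁ ≠ 0 := by
    rintro rfl
    exact hcO (by rw [← hcc, zero_mul])
  have hc₂0 : c₂ ≠ 0 := by
    rintro rfl
    exact hcO (by rw [← hcc, mul_zero])
  have hN : (D : 𝓞 K) * c₁ * c₂ = ((c * D : ℕ) : 𝓞 K) := by
    rw [mul_assoc, hcc, Nat.cast_mul, mul_comm]
  obtain ⟨φ, hφ⟩ : ∃ φ : Fin n → 𝓞 K → ℂ, ∀ j x, φ j x =
      exK (embK (Y j * (x : K) / D)) * ((c : ℂ)⁻¹ * E1 (embK (x : K) / D / c)) :=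
    ⟨_, fun _ _ => rfl⟩
  have hφp : ∀ j x y, ((c * D : ℕ) : 𝓞 K) ∣ x - y → φ j x = φ j y := by
    rintro j x y ⟨u, hu⟩
    obtain ⟨a, ha⟩ := hY1 j
    have hx : (x : K) = (y : K) + (c : K) * (D : K) * (u : K) := by
      have h0 : x = y + (c : 𝓞 K) * (D : 𝓞 K) * u := by
        push_cast at hu
        linear_combination hu
      have h1 := congrArg (fun z : 𝓞 K => (z : K)) h0
      simpa using h1
    have hcK : (c₁ : K) * (c₂ : K) = (c : K) := by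
      have h1 := congrArg (fun z : 𝓞 K => (z : K)) hcc
      simpa using h1
    have e1 : embK (Y j * (x : K) / D) =
        embK (Y j * (y : K) / D) + embK ((a * u : 𝓞 K) : K) := by
      have e : ((a * u : 𝓞 K) : K) = (a : K) * (u : K) := map_mul (algebraMap (𝓞 K) K) a u
      rw [← map_add, e, ← ha, hcK, hx]
      congr 1
      field_simp
    have e2 : embK (x : K) / D / c = embK (y : K) / D / c + embK (u : K) := by
      rw [hx, map_add, map_mul, map_mul, map_natCast, map_natCast]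
      field_simp
    rw [hφ, hφ, e1, exK_add, exK_int, mul_one, E1_congr (x := embK (x : K) / D / c)
      (y := embK (y : K) / D / c)]
    rw [e2, add_sub_cancel_left]
    exact Pool.Agent.Lib.MP_1a91b9_nuT.S3.mem_PP_iff.2 ⟨u, rfl⟩
  obtain ⟨f, hf⟩ : ∃ f : (Fin n → 𝓞 K) → ℂ, ∀ X, f X = G X * ∏ i, φ i (X i) :=
    ⟨_, fun _ => rfl⟩
  have hfp : ∀ x y : Fin n → 𝓞 K, (∀ i, ((c * D : ℕ) : 𝓞 K) ∣ x i - y i) → f x = f y := by
    intro x y h
    rw [hf, hf, hGp x y fun i => ?_, Finset.prod_congr rfl fun i _ => hφp i _ _ (h i)]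
    refine dvd_trans ⟨c₂, ?_⟩ (h i)
    rw [hN]
  obtain ⟨ι₁, iι₁, ρ, hρ⟩ := crs_exists ((D : 𝓞 K) * c₁) (mul_ne_zero hDO hc₁0)
  obtain ⟨ι₂, iι₂, s, hs⟩ := crs_exists c₂ hc₂0
  have h2 := crs_mul (mul_ne_zero hDO hc₁0) hρ hs
  rw [hN] at h2
  have h1 := crs_fin (c * D) (Nat.mul_pos hc0 hD0)
  have e0 : ∑ x : Fin n → Fin (c * D) × Fin (c * D),
      G (fun i => (((x i).1 : ℕ) : 𝓞 K) + (((x i).2 : ℕ) : 𝓞 K) * ta) *
        ∏ i, (exK (embK (Y i * ixK D c (x i))) * ((c : ℂ)⁻¹ * E1 (ixC D c (x i) / c))) =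
      ∑ x : Fin n → Fin (c * D) × Fin (c * D),
        f (fun i => (((x i).1 : ℕ) : 𝓞 K) + (((x i).2 : ℕ) : 𝓞 K) * ta) := by
    refine Finset.sum_congr rfl fun x _ => ?_
    rw [hf]
    refine congrArg _ (Finset.prod_congr rfl fun i _ => ?_)
    have e : ((((x i).1 : ℕ) : 𝓞 K) + (((x i).2 : ℕ) : 𝓞 K) * ta : 𝓞 K) =
        (D : K) * ixK D c (x i) := by
      rw [ixK, mul_div_cancel₀ _ hDK]
      have e' : ∀ m k : ℕ, (((m : 𝓞 K) + (k : 𝓞 K) * ta : 𝓞 K) : K) = (m : K) + (k : K) * om := by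
        intro m k
        have h3 : (((m : 𝓞 K) + (k : 𝓞 K) * ta : 𝓞 K) : K) =
            ((m : 𝓞 K) : K) + ((k : 𝓞 K) : K) * (ta : K) := by
          have a1 : (((m : 𝓞 K) + (k : 𝓞 K) * ta : 𝓞 K) : K) =
              ((m : 𝓞 K) : K) + (((k : 𝓞 K) * ta : 𝓞 K) : K) :=
            map_add (algebraMap (𝓞 K) K) _ _
          have a2 : (((k : 𝓞 K) * ta : 𝓞 K) : K) = ((k : 𝓞 K) : K) * (ta : K) :=
            map_mul (algebraMap (𝓞 K) K) _ _
          rw [a1, a2]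
        have n1 : ∀ m : ℕ, ((m : 𝓞 K) : K) = (m : K) := fun m =>
          map_natCast (algebraMap (𝓞 K) K) m
        rw [h3, n1, n1]
      exact e' _ _
    have e'' : ixC D c (x i) = embK (ixK D c (x i)) := by
      rw [ixC, ixK, map_div₀, map_add, map_mul, map_natCast, map_natCast, map_natCast, embK_om]
    rw [hφ, e, e'']
    congr 2
    · congr 1
      field_simp
    · congr 2
      rw [map_mul, map_natCast]
      field_simp
  rw [e0, sum_crs h1 h2 f hfp]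
  have e1 : ∑ x : Fin n → ι₁ × ι₂, f (fun i => ρ (x i).1 + (D : 𝓞 K) * c₁ * s (x i).2) =
      ∑ x : Fin n → ι₁, G (fun i => ρ (x i)) *
        ∏ i, ∑ l, φ i (ρ (x i) + (D : 𝓞 K) * c₁ * s l) := by
    rw [Fintype.sum_equiv (Equiv.arrowProdEquivProdArrow (Fin n) (fun _ => ι₁) (fun _ => ι₂))
      (fun x : Fin n → ι₁ × ι₂ => f (fun i => ρ (x i).1 + (D : 𝓞 K) * c₁ * s (x i).2))
      (fun p : (Fin n → ι₁) × (Fin n → ι₂) =>
        f (fun i => ρ (p.1 i) + (D : 𝓞 K) * c₁ * s (p.2 i))) fun x => rfl,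
      Fintype.sum_prod_type]
    refine Finset.sum_congr rfl fun x _ => ?_
    rw [Finset.prod_univ_sum, Fintype.piFinset_univ, Finset.mul_sum]
    refine Finset.sum_congr rfl fun y _ => ?_
    rw [hf]
    congr 1
    refine hGp _ _ fun i => ⟨s (y i), ?_⟩
    ring
  rw [e1, Finset.sum_div]
  refine A.sum_mem fun x _ => ?_
  have e2 : (G fun i => ρ (x i)) * (∏ i, ∑ l, φ i (ρ (x i) + (D : 𝓞 K) * c₁ * s l)) / Om ^ n =
      (G fun i => ρ (x i)) * ∏ i, ((∑ l, φ i (ρ (x i) + (D : 𝓞 K) * c₁ * s l)) / Om) := by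
    rw [Finset.prod_div_distrib, Finset.prod_const, Finset.card_univ, Fintype.card_fin,
      mul_div_assoc]
  rw [e2]
  by_cases h0 : (G fun i => ρ (x i)) = 0
  · rw [h0, zero_mul]
    exact A.zero_mem
  · refine A.mul_mem _ _ (hGA _) (prod_mem fun i _ => ?_)
    have h3 := inner_sum D c hD0 hc0 hD c₁ c₂ hcc hc₁ hc₂ hs (Y i) (hY1 i) (hY2 i) (ρ (x i))
      (hne _ h0 i)
    rw [Finset.sum_congr rfl fun l _ => hφ i (ρ (x i) + (D : 𝓞 K) * c₁ * s l)]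
    exact h3

end Pool.Agent.Lib.MP_1a91b9_nuW.VA
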