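import Pool.Agent.Lib.MP_1a91b9_nuT.S6.De1
import Pool.Agent.Lib.MP_1a91b9_nuT.Nrm

/-!
# G7, stream VA, file Crs: complete residue systems of `𝓞 K`

PROOFS.
* `crs_exists`: the quotient `𝓞 K ⧸ span {N}` is finite; or `de_fam` (nuT/S6/De1.lean).
* `crs_fin`: coordinates (`exists_coords`, `coords_inj` of nuT/Nrm.lean) and `Int.emod`.
* `crs_mul`: first the class modulo `N₁`, then the class of the quotient modulo `N₂`.
* `sum_crs`: each residue system gives the same classes: the map `i ↦` the unique `j` with `N ∣ ρ i - s j` is a bijection `e`; reindex by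
  `Equiv.arrowCongr` / `Fintype.sum_equiv`.
-/

set_option autoImplicit false

namespace Pool.Agent.Lib.MP_1a91b9_nuW.VA

variable [Pool.Agent.Lib.MP_1a91b9_nuT.CD]

open Pool.Agent.Lib.MP_1a91b9_nuT
open NumberField

/-- `ρ` is a complete residue system modulo `N`. -/
structure IsCRS {ι : Type*} (N : 𝓞 K) (ρ : ι → 𝓞 K) : Prop where
  ex : ∀ x : 𝓞 K, ∃! i, N ∣ x - ρ i

theorem crs_exists (N : 𝓞 K) (hN : N ≠ 0) :
    ∃ (ι : Type) (_ : Fintype ι) (ρ : ι → 𝓞 K), IsCRS N ρ := by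
  obtain ⟨r, x, -, -, h⟩ := de_fam N hN
  refine ⟨Fin r, inferInstance, x, ⟨fun y => ?_⟩⟩
  obtain ⟨j, hj, hu⟩ := h y
  exact ⟨j, (dvd_sub_comm).1 hj, fun i hi => hu i ((dvd_sub_comm).1 hi)⟩

theorem crs_fin (M : ℕ) (hM : 0 < M) :
    IsCRS (M : 𝓞 K) (fun x : Fin M × Fin M => ((x.1 : ℕ) : 𝓞 K) + ((x.2 : ℕ) : 𝓞 K) * ta) := by
  have hM' : (0 : ℤ) < (M : ℤ) := by exact_mod_cast hM
  have key : ∀ (m n : ℤ) (x : Fin M × Fin M),
      ((M : 𝓞 K) ∣ ((m : 𝓞 K) + (n : 𝓞 K) * ta) - (((x.1 : ℕ) : 𝓞 K) + ((x.2 : ℕ) : 𝓞 K) * ta)) ↔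
        ((x.1 : ℕ) : ℤ) = m % M ∧ ((x.2 : ℕ) : ℤ) = n % M := by
    intro m n x
    have h1 : (0 : ℤ) ≤ ((x.1 : ℕ) : ℤ) := Int.natCast_nonneg _
    have h2 : ((x.1 : ℕ) : ℤ) < (M : ℤ) := by exact_mod_cast x.1.isLt
    have h3 : (0 : ℤ) ≤ ((x.2 : ℕ) : ℤ) := Int.natCast_nonneg _
    have h4 : ((x.2 : ℕ) : ℤ) < (M : ℤ) := by exact_mod_cast x.2.isLt
    constructor
    · rintro ⟨c, hc⟩
      obtain ⟨c1, c2, rfl⟩ := exists_coords c
      have h5 : (((m - ((x.1 : ℕ) : ℤ) : ℤ)) : 𝓞 K) + (((n - ((x.2 : ℕ) : ℤ) : ℤ)) : 𝓞 K) * ta =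
          (((M : ℤ) * c1 : ℤ) : 𝓞 K) + (((M : ℤ) * c2 : ℤ) : 𝓞 K) * ta := by
        push_cast
        linear_combination hc
      obtain ⟨h6, h7⟩ := coords_inj h5
      constructor
      · have h8 : m = ((x.1 : ℕ) : ℤ) + (M : ℤ) * c1 := by linarith
        rw [h8, Int.add_mul_emod_self_left, Int.emod_eq_of_lt h1 h2]
      · have h8 : n = ((x.2 : ℕ) : ℤ) + (M : ℤ) * c2 := by linarith
        rw [h8, Int.add_mul_emod_self_left, Int.emod_eq_of_lt h3 h4]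
    · rintro ⟨h5, h6⟩
      refine ⟨((m / M : ℤ) : 𝓞 K) + ((n / M : ℤ) : 𝓞 K) * ta, ?_⟩
      have h7 : (m : ℤ) = m % M + M * (m / M) := (Int.emod_add_mul_ediv m M).symm
      have h8 : (n : ℤ) = n % M + M * (n / M) := (Int.emod_add_mul_ediv n M).symm
      rw [← h5] at h7
      rw [← h6] at h8
      have h9 : (m : 𝓞 K) = ((x.1 : ℕ) : 𝓞 K) + (M : 𝓞 K) * ((m / M : ℤ) : 𝓞 K) := by
        have := congrArg (fun z : ℤ => (z : 𝓞 K)) h7
        push_cast at this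
        exact this
      have h10 : (n : 𝓞 K) = ((x.2 : ℕ) : 𝓞 K) + (M : 𝓞 K) * ((n / M : ℤ) : 𝓞 K) := by
        have := congrArg (fun z : ℤ => (z : 𝓞 K)) h8
        push_cast at this
        exact this
      linear_combination h9 + h10 * ta
  refine ⟨fun x => ?_⟩
  obtain ⟨m, n, rfl⟩ := exists_coords x
  have hm0 : 0 ≤ m % M := Int.emod_nonneg _ hM'.ne'
  have hm1 : m % M < M := Int.emod_lt_of_pos _ hM'
  have hn0 : 0 ≤ n % M := Int.emod_nonneg _ hM'.ne'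
  have hn1 : n % M < M := Int.emod_lt_of_pos _ hM'
  refine ⟨(⟨(m % M).toNat, by omega⟩, ⟨(n % M).toNat, by omega⟩), ?_, ?_⟩
  · refine (key m n _).2 ⟨?_, ?_⟩
    · exact Int.toNat_of_nonneg hm0
    · exact Int.toNat_of_nonneg hn0
  · intro y hy
    obtain ⟨h1, h2⟩ := (key m n y).1 hy
    refine Prod.ext (Fin.ext ?_) (Fin.ext ?_)
    · change (y.1 : ℕ) = (m % M).toNat
      omega
    · change (y.2 : ℕ) = (n % M).toNat
      omega

theorem crs_mul {ι κ : Type*} {N₁ N₂ : 𝓞 K} (hN : N₁ ≠ 0) {ρ : ι → 𝓞 K} {s : κ → 𝓞 K}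
    (h1 : IsCRS N₁ ρ) (h2 : IsCRS N₂ s) :
    IsCRS (N₁ * N₂) (fun x : ι × κ => ρ x.1 + N₁ * s x.2) := by
  refine ⟨fun x => ?_⟩
  obtain ⟨i, ⟨y, hy⟩, hi⟩ := h1.ex x
  obtain ⟨j, ⟨z, hz⟩, hj⟩ := h2.ex y
  refine ⟨(i, j), ⟨z, ?_⟩, ?_⟩
  · change x - (ρ i + N₁ * s j) = N₁ * N₂ * z
    linear_combination hy + N₁ * hz
  · rintro ⟨i', j'⟩ ⟨w, hw⟩
    change x - (ρ i' + N₁ * s j') = N₁ * N₂ * w at hw
    have hi' : i' = i := hi i' ⟨s j' + N₂ * w, by linear_combination hw⟩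
    subst hi'
    have hj' : j' = j := by
      refine hj j' ⟨w, ?_⟩
      refine mul_left_cancel₀ hN ?_
      linear_combination hw - hy
    subst hj'
    rfl

theorem sum_crs {ι κ : Type*} [Fintype ι] [Fintype κ] {N : 𝓞 K} {ρ : ι → 𝓞 K} {s : κ → 𝓞 K}
    (h1 : IsCRS N ρ) (h2 : IsCRS N s) {n : ℕ} (f : (Fin n → 𝓞 K) → ℂ)
    (hf : ∀ x y : Fin n → 𝓞 K, (∀ i, N ∣ x i - y i) → f x = f y) :
    ∑ x : Fin n → ι, f (fun i => ρ (x i)) = ∑ x : Fin n → κ, f (fun i => s (x i)) := by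
  choose e he he' using fun i => h2.ex (ρ i)
  choose g hg hg' using fun j => h1.ex (s j)
  have hge : ∀ i, g (e i) = i := by
    intro i
    exact (hg' (e i) i ((dvd_sub_comm).1 (he i))).symm
  have heg : ∀ j, e (g j) = j := by
    intro j
    exact (he' (g j) j ((dvd_sub_comm).1 (hg j))).symm
  let E : ι ≃ κ := ⟨e, g, hge, heg⟩
  refine Fintype.sum_equiv (Equiv.arrowCongr (Equiv.refl (Fin n)) E) _ _ ?_
  intro x
  refine hf _ _ fun i => ?_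
  exact he (x i)

end Pool.Agent.Lib.MP_1a91b9_nuW.VA
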