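import Pool.Agent.Lib.MP_1a91b9_nuW.KT.Ksum
import Pool.Agent.Lib.MP_1a91b9_nuW.KT.Int
import Pool.Agent.Lib.MP_1a91b9_nuW.Ex
import Pool.Agent.Lib.MP_1a91b9_nuW.VA.Crs

/-!
# G7, stream VA, file CoreA: the inner sums in terms of the Kronecker theta function

PROOFS. `L = PP.lattice = embK (𝓞 K)` (`emb_coords`, `mem_PP`; the conjugate of `embK a` is `embK (cK a)`, see nuT/Nrm.lean, and
`conj_mem`). `V = A.valuation`.
* `pr_exK`: `etaE_eq` (nuW/KT/Pr.lean) and the definitions.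
* `exK_memA`: `exK x ^ N = exK (N x) = 1` (`exK_nat`), so `V (exK x) = 1`.
* `inner_sum`: let `s₀` be the sign of `pr_exK`, `w = s₀ * conj (embK (c₁ Y))`, `α = embK c₂`, `τ_l = embK (s_l) / embK c₂`,
  `z = embK ρ / (D * embK c₁)`. Then for each `l`, with `x = ρ + D c₁ s_l`:
  `exK (embK (Y * x / D)) = exK (embK (Y ρ / D)) * exK (embK (c₁ Y s_l))`, `exK (embK (c₁ Y s_l)) = pr (α τ_l) w` (as
  `s₀ * (embK s_l * conj w) = s₀² embK (s_l c₁ Y)`), and `c⁻¹ * E1 (embK x / (D c)) = (embK c₁)⁻¹ * (α⁻¹ * E1 (z / α + τ_l))`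
  because `c = embK c₁ * embK c₂`. So the sum is `exK (embK (Y ρ / D)) * (embK c₁)⁻¹ * ∑_l pr (α τ_l) w * (α⁻¹ * E1 (z / α + τ_l))`,
  and `Phi_sum` (nuW/KT/Ksum.lean) applies: `α ∈ L`, `α ≠ 0`; `α τ_l = embK s_l ∈ L`; if `α x ∈ L`, `α x = embK u`, then
  `x - τ_l = embK (u - s_l) / embK c₂ ∈ L` iff `c₂ ∣ u - s_l` (`IsCRS`); `w ∉ L` by `hY2`; `conj α * w = s₀ conj (embK (c₁ c₂ Y)) ∈ L` by
  `hY1`; `z ∉ L` by `hρ` (if `z ∈ L` then `D c₁ ∣ ρ`).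
  So the sum is `exK (embK (Y ρ / D)) * (embK c₁)⁻¹ * Phi w z`. Its quotient by `Om` is in `A`: `exK_memA` with `N = c D`
  (`c D * (Y ρ / D) = c₁ c₂ Y ρ` in `𝓞 K`, `exK_int`); `V (embK c₁) = 1`; `Phi_int`: `TorP A w` with the annihilator `cK c₂`
  (`embK (cK c₂) = conj (embK c₂)`), `TorP A z` with the annihilator `D c₁`; `w, z ∉ L`; `z + k w ∉ L`: otherwise multiply by
  `embK (cK c₂)`: `embK (cK c₂) z ∈ L`, i.e. `D c₁ ∣ cK c₂ * ρ`, against `hρ`.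
-/

set_option autoImplicit false

namespace Pool.Agent.Lib.MP_1a91b9_nuW.VA

variable [Pool.Agent.Lib.MP_1a91b9_nuT.CD]

open Pool.Agent.Lib.MP_1a91b9_nuT hiding cj
open Pool.Agent.Lib.MP_1a91b9_nuT.S3 (E1_congr)
open Pool.Agent.Lib.MP_1a91b9_nuW.KT
open NumberField

theorem pr_exK : ∃ s : ℤ, (s = 1 ∨ s = -1) ∧
    ∀ γ w : ℂ, pr γ w = exK ((s : ℂ) * (γ * (starRingEnd ℂ) w)) := by
  obtain ⟨s, hs, e⟩ := etaE_eq
  refine ⟨s, hs, fun γ w => ?_⟩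
  unfold pr exK
  rw [e]
  congr 1
  rw [map_mul, map_mul, Complex.conj_conj, map_intCast]
  push_cast
  ring

theorem exK_memA (A : ValuationSubring ℂ) (N : ℕ) (hN : 0 < N) (x : ℂ) (h : exK ((N : ℂ) * x) = 1) :
    exK x ∈ A := by
  rw [exK_nat] at h
  rw [← A.valuation_le_one_iff]
  have h1 : A.valuation (exK x) ^ N = 1 := by rw [← map_pow, h, map_one]
  exact (pow_le_one_iff hN.ne').1 h1.le

private theorem corea_mem {x : ℂ} : x ∈ PP.lattice ↔ ∃ a : 𝓞 K, embK (a : K) = x :=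
  Pool.Agent.Lib.MP_1a91b9_nuT.S3.mem_PP_iff

private theorem corea_mul (a b : 𝓞 K) :
    embK ((a * b : 𝓞 K) : K) = embK (a : K) * embK (b : K) := by
  have e : ((a * b : 𝓞 K) : K) = (a : K) * (b : K) := map_mul (algebraMap (𝓞 K) K) a b
  rw [e, map_mul]

private theorem corea_add (a b : 𝓞 K) :
    embK ((a + b : 𝓞 K) : K) = embK (a : K) + embK (b : K) := by
  have e : ((a + b : 𝓞 K) : K) = (a : K) + (b : K) := map_add (algebraMap (𝓞 K) K) a b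
  rw [e, map_add]

private theorem corea_sub (a b : 𝓞 K) :
    embK ((a - b : 𝓞 K) : K) = embK (a : K) - embK (b : K) := by
  have e : ((a - b : 𝓞 K) : K) = (a : K) - (b : K) := map_sub (algebraMap (𝓞 K) K) a b
  rw [e, map_sub]

private theorem corea_nat (n : ℕ) : embK (((n : 𝓞 K) : 𝓞 K) : K) = (n : ℂ) := by
  have e : ((n : 𝓞 K) : K) = (n : K) := map_natCast (algebraMap (𝓞 K) K) n
  rw [e, map_natCast]

private theorem corea_inj {a b : 𝓞 K} (h : embK (a : K) = embK (b : K)) : a = b :=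
  embO_injective h

private theorem corea_sg {s₀ : ℤ} (hs₀ : s₀ = 1 ∨ s₀ = -1) {x : ℂ} :
    (s₀ : ℂ) * x ∈ PP.lattice ↔ x ∈ PP.lattice := by
  rcases hs₀ with rfl | rfl
  · rw [Int.cast_one, one_mul]
  · rw [Int.cast_neg, Int.cast_one, neg_one_mul]
    exact neg_mem_iff

/-- The inner sum: a value of the Kronecker theta function, integral. -/
theorem inner_sum {A : ValuationSubring ℂ} (D c : ℕ) (hD0 : 0 < D) (hc0 : 0 < c)
    (hD : A.valuation (D : ℂ) = 1) (c₁ c₂ : 𝓞 K) (hcc : c₁ * c₂ = (c : 𝓞 K))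
    (hc₁ : A.valuation (embK (c₁ : K)) = 1) (hc₂ : A.valuation (embK ((cK c₂ : 𝓞 K) : K)) = 1)
    {ι : Type*} [Fintype ι] {s : ι → 𝓞 K} (hs : IsCRS c₂ s) (Y : K)
    (hY1 : ∃ a : 𝓞 K, (c₁ : K) * (c₂ : K) * Y = a) (hY2 : ¬ ∃ a : 𝓞 K, (c₁ : K) * Y = a)
    (ρ : 𝓞 K) (hρ : ¬ (D : 𝓞 K) * c₁ ∣ cK c₂ * ρ) :
    (∑ l, exK (embK (Y * ((ρ + (D : 𝓞 K) * c₁ * s l : 𝓞 K) : K) / D)) *
      ((c : ℂ)⁻¹ * E1 (embK ((ρ + (D : 𝓞 K) * c₁ * s l : 𝓞 K) : K) / D / c))) / Om ∈ A := by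
  obtain ⟨s₀, hs₀, hpr⟩ := pr_exK
  obtain ⟨a, ha⟩ := hY1
  have hss : (s₀ : ℂ) * (s₀ : ℂ) = 1 := by
    rcases hs₀ with rfl | rfl
    · norm_num
    · norm_num
  have hDC : (D : ℂ) ≠ 0 := by exact_mod_cast hD0.ne'
  have hcC : (c : ℂ) ≠ 0 := by exact_mod_cast hc0.ne'
  have hDK : (D : K) ≠ 0 := by exact_mod_cast hD0.ne'
  have hc : embK (c₁ : K) * embK (c₂ : K) = (c : ℂ) := by
    rw [← corea_mul, hcc, corea_nat]
  have hα0 : embK (c₂ : K) ≠ 0 := by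
    intro h0
    rw [h0, mul_zero] at hc
    exact hcC hc.symm
  have ha10 : embK (c₁ : K) ≠ 0 := by
    intro h0
    rw [h0, zero_mul] at hc
    exact hcC hc.symm
  have hcj : embK ((cK c₂ : 𝓞 K) : K) = (starRingEnd ℂ) (embK (c₂ : K)) := emb_cj c₂
  -- the points
  obtain ⟨w, hwd⟩ : ∃ w : ℂ, w = (s₀ : ℂ) * (starRingEnd ℂ) (embK (c₁ : K) * embK Y) := ⟨_, rfl⟩
  obtain ⟨z, hzd⟩ : ∃ z : ℂ, z = embK (ρ : K) / ((D : ℂ) * embK (c₁ : K)) := ⟨_, rfl⟩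
  have hwc : (starRingEnd ℂ) w = (s₀ : ℂ) * (embK (c₁ : K) * embK Y) := by
    rw [hwd, map_mul, Complex.conj_conj, map_intCast]
  have hDz : (D : ℂ) * embK (c₁ : K) * z = embK (ρ : K) := by
    rw [hzd]
    field_simp
  -- the hypotheses of `Phi_sum`
  have h1 : ∀ i, embK (c₂ : K) * (embK (s i : K) / embK (c₂ : K)) ∈ PP.lattice := by
    intro i
    rw [mul_div_cancel₀ _ hα0]
    exact corea_mem.2 ⟨s i, rfl⟩
  have h2 : ∀ x, embK (c₂ : K) * x ∈ PP.lattice →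
      ∃! i, x - embK (s i : K) / embK (c₂ : K) ∈ PP.lattice := by
    intro x hx
    obtain ⟨u, hu⟩ := corea_mem.1 hx
    have key : ∀ i, x - embK (s i : K) / embK (c₂ : K) ∈ PP.lattice ↔ c₂ ∣ u - s i := by
      intro i
      have e : embK (c₂ : K) * (x - embK (s i : K) / embK (c₂ : K)) =
          embK ((u - s i : 𝓞 K) : K) := by
        rw [mul_sub, mul_div_cancel₀ _ hα0, corea_sub, hu]
      constructor
      · intro h3
        obtain ⟨b, hb⟩ := corea_mem.1 h3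
        refine ⟨b, corea_inj ?_⟩
        rw [← e, ← hb, corea_mul]
      · rintro ⟨b, hb⟩
        refine corea_mem.2 ⟨b, ?_⟩
        rw [hb, corea_mul] at e
        exact (mul_left_cancel₀ hα0 e).symm
    obtain ⟨i, hi, hi2⟩ := hs.ex u
    exact ⟨i, (key i).2 hi, fun j hj => hi2 j ((key j).1 hj)⟩
  have hw0 : w ∉ PP.lattice := by
    intro h
    have h3 := Pool.Agent.Lib.MP_1a91b9_nuT.S3.conj_mem h
    rw [hwc, corea_sg hs₀] at h3
    obtain ⟨b, hb⟩ := corea_mem.1 h3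
    apply hY2
    refine ⟨b, ?_⟩
    apply (embK : K →ₐ[ℚ] ℂ).toRingHom.injective
    change embK ((c₁ : K) * Y) = embK (b : K)
    rw [map_mul, hb]
  have hαw : (starRingEnd ℂ) (embK (c₂ : K)) * w ∈ PP.lattice := by
    have e : (starRingEnd ℂ) (embK (c₂ : K)) * w =
        (s₀ : ℂ) * (starRingEnd ℂ) (embK (a : K)) := by
      rw [hwd, ← ha, map_mul embK, map_mul embK, map_mul, map_mul, map_mul]
      ring
    rw [e, corea_sg hs₀]
    exact Pool.Agent.Lib.MP_1a91b9_nuT.S3.conj_mem (corea_mem.2 ⟨a, rfl⟩)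
  have hz' : ∀ b : 𝓞 K, embK ((cK c₂ : 𝓞 K) : K) * z ≠ embK (b : K) := by
    intro b hb
    apply hρ
    refine ⟨b, corea_inj ?_⟩
    rw [corea_mul, corea_mul, corea_mul, corea_nat, ← hb, ← hDz]
    ring
  have hz0 : z ∉ PP.lattice := by
    intro h
    obtain ⟨b, hb⟩ := corea_mem.1 h
    apply hz' (cK c₂ * b)
    rw [corea_mul, hb]
  -- the sum
  have hterm : ∀ l, exK (embK (Y * ((ρ + (D : 𝓞 K) * c₁ * s l : 𝓞 K) : K) / D)) *
      ((c : ℂ)⁻¹ * E1 (embK ((ρ + (D : 𝓞 K) * c₁ * s l : 𝓞 K) : K) / D / c)) =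
      exK (embK (Y * (ρ : K) / D)) * (embK (c₁ : K))⁻¹ *
        (pr (embK (c₂ : K) * (embK (s l : K) / embK (c₂ : K))) w *
          ((embK (c₂ : K))⁻¹ * E1 (z / embK (c₂ : K) + embK (s l : K) / embK (c₂ : K)))) := by
    intro l
    have e0 : embK ((ρ + (D : 𝓞 K) * c₁ * s l : 𝓞 K) : K) =
        embK (ρ : K) + (D : ℂ) * embK (c₁ : K) * embK (s l : K) := by
      rw [corea_add, corea_mul, corea_mul, corea_nat]
    have e1 : embK (Y * ((ρ + (D : 𝓞 K) * c₁ * s l : 𝓞 K) : K) / D) =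
        embK (Y * (ρ : K) / D) + embK (c₁ : K) * embK Y * embK (s l : K) := by
      rw [map_div₀, map_mul, e0, map_div₀, map_mul, map_natCast]
      field_simp
    have e2 : exK (embK (c₁ : K) * embK Y * embK (s l : K)) =
        pr (embK (c₂ : K) * (embK (s l : K) / embK (c₂ : K))) w := by
      rw [hpr, hwc, mul_div_cancel₀ _ hα0]
      congr 1
      linear_combination (-(embK (c₁ : K) * embK Y * embK (s l : K))) * hss
    have e3 : embK ((ρ + (D : 𝓞 K) * c₁ * s l : 𝓞 K) : K) / D / c =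
        z / embK (c₂ : K) + embK (s l : K) / embK (c₂ : K) := by
      rw [e0, hzd, ← hc]
      field_simp
    have e4 : (c : ℂ)⁻¹ = (embK (c₁ : K))⁻¹ * (embK (c₂ : K))⁻¹ := by
      rw [← hc, mul_inv]
    rw [e1, exK_add, e2, e3, e4]
    ring
  rw [Finset.sum_congr rfl fun l _ => hterm l, ← Finset.mul_sum,
    Phi_sum (corea_mem.2 ⟨c₂, rfl⟩) hα0 h1 h2 hw0 hαw hz0, mul_div_assoc]
  refine A.mul_mem _ _ (A.mul_mem _ _ ?_ ?_) ?_
  · refine exK_memA A (c * D) (Nat.mul_pos hc0 hD0) _ ?_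
    have e : ((c * D : ℕ) : ℂ) * embK (Y * (ρ : K) / D) = embK ((a * ρ : 𝓞 K) : K) := by
      rw [corea_mul, ← ha, map_div₀, map_mul, map_natCast, map_mul, map_mul, hc]
      push_cast
      field_simp
    rw [e]
    exact exK_int _
  · rw [← A.valuation_le_one_iff, map_inv₀, hc₁, inv_one]
  · refine Phi_int ⟨cK c₂, hc₂, ?_⟩ ⟨(D : 𝓞 K) * c₁, ?_, ?_⟩ hw0 hz0 fun k hk => ?_
    · rw [hcj]
      exact hαw
    · rw [corea_mul, corea_nat, map_mul, hD, hc₁, one_mul]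
    · rw [corea_mul, corea_nat, hDz]
      exact corea_mem.2 ⟨ρ, rfl⟩
    · have h3 : embK ((cK c₂ : 𝓞 K) : K) * (z + (k : ℂ) * w) ∈ PP.lattice :=
        Pool.Agent.Lib.MP_1a91b9_nuT.S3.mul_mem (corea_mem.2 ⟨cK c₂, rfl⟩) hk
      have h4 : (k : ℂ) * ((starRingEnd ℂ) (embK (c₂ : K)) * w) ∈ PP.lattice :=
        Pool.Agent.Lib.MP_1a91b9_nuT.S3.mul_mem (corea_mem.2 ⟨(k : 𝓞 K), corea_nat k⟩) hαw
      have e : embK ((cK c₂ : 𝓞 K) : K) * z = embK ((cK c₂ : 𝓞 K) : K) * (z + (k : ℂ) * w) -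
          (k : ℂ) * ((starRingEnd ℂ) (embK (c₂ : K)) * w) := by
        rw [hcj]
        ring
      have h5 := sub_mem h3 h4
      rw [← e] at h5
      obtain ⟨b, hb⟩ := corea_mem.1 h5
      exact hz' b hb.symm

end Pool.Agent.Lib.MP_1a91b9_nuW.VA
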