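import Pool.Agent.Lib.MP_1a91b9_nuW.VA.Defs
import Pool.Agent.Lib.MP_1a91b9_nuT.D6.Fr
import Mathlib.RingTheory.DedekindDomain.Different
import Mathlib.RingTheory.Ideal.Norm.RelNorm

/-!
# G7, stream VA, file Det: the determinant of a unimodular frame against the discriminant

`det_le`: the square of the determinant times the generator of the relative discriminant is
integral at the place. No hypothesis on the ramification.
-/

set_option autoImplicit false

namespace Pool.Agent.Lib.MP_1a91b9_nuW.VA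

variable [Pool.Agent.Lib.MP_1a91b9_nuT.CD]

open Pool.Agent.Lib.MP_1a91b9_nuT hiding cj
open Pool.Agent.Lib.MP_1a91b9_nuT.Ell
open NumberField Module

universe u

variable {F : Type u} [Field F] [NumberField F] [Algebra K F]

/-- An element of the different whose cofactor is prime to `q`. -/
theorem det_x0 {q : ℕ} (hq : q ≠ 0) :
    ∃ (x0 : 𝓞 F) (J : Ideal (𝓞 F)), Ideal.span {x0} = differentIdeal (𝓞 K) (𝓞 F) * J ∧
      IsCoprime J (Ideal.span {(q : 𝓞 F)}) := by
  have hD : differentIdeal (𝓞 K) (𝓞 F) ≠ ⊥ := differentIdeal_ne_bot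
  have hq0 : Ideal.span {(q : 𝓞 F)} ≠ 0 := by
    rw [Ne, Ideal.zero_eq_bot, Ideal.span_singleton_eq_bot]
    exact_mod_cast hq
  have hle : differentIdeal (𝓞 K) (𝓞 F) * Ideal.span {(q : 𝓞 F)} ≤
      differentIdeal (𝓞 K) (𝓞 F) := Ideal.mul_le_left
  obtain ⟨a, ha⟩ := IsDedekindDomain.exists_sup_span_eq hle (mul_ne_zero hD hq0)
  have hle2 : Ideal.span {a} ≤ differentIdeal (𝓞 K) (𝓞 F) := by
    rw [← ha]
    exact le_sup_right
  obtain ⟨J, hJ⟩ := Ideal.dvd_iff_le.mpr hle2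
  refine ⟨a, J, hJ, ?_⟩
  rw [hJ, ← Ideal.add_eq_sup, ← mul_add] at ha
  have h1 : differentIdeal (𝓞 K) (𝓞 F) * (Ideal.span {(q : 𝓞 F)} + J) =
      differentIdeal (𝓞 K) (𝓞 F) * 1 := by rw [ha, mul_one]
  have h2 := mul_left_cancel₀ hD h1
  rw [Ideal.isCoprime_iff_add, add_comm]
  exact h2

/-- Divisibility and the valuation. -/
theorem det_dvd (A : ValuationSubring ℂ) {a b : 𝓞 K} (h : a ∣ b) :
    A.valuation (embK (b : K)) ≤ A.valuation (embK (a : K)) := by
  obtain ⟨c, rfl⟩ := h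
  have e : ((a * c : 𝓞 K) : K) = (a : K) * (c : K) := rfl
  rw [e, map_mul, map_mul]
  calc A.valuation (embK (a : K)) * A.valuation (embK (c : K))
      ≤ A.valuation (embK (a : K)) * 1 :=
        mul_le_mul' le_rfl ((A.valuation_le_one_iff _).2 (kq_intA A c))
    _ = _ := mul_one _

/-- Elements of `𝓞 K` coprime to `q` have valuation one. -/
theorem det_unit {q : ℕ} (A : ValuationSubring ℂ) (hA : Pl q A) (a : 𝓞 K)
    (ha : IsCoprime a (q : 𝓞 K)) : A.valuation (embK (a : K)) = 1 := by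
  obtain ⟨h1, h2, h3⟩ := kq_unitA A hA a ha
  have h4 := (A.valuation_le_one_iff _).2 h1
  have h5 := (A.valuation_le_one_iff _).2 h2
  refine le_antisymm h4 ?_
  rw [map_inv₀] at h5
  have h6 : A.valuation (embK (a : K)) ≠ 0 := by
    rw [Ne, map_eq_zero]
    exact h3
  calc (1 : A.ValueGroup) = A.valuation (embK (a : K)) * (A.valuation (embK (a : K)))⁻¹ :=
        (mul_inv_cancel₀ h6).symm
    _ ≤ A.valuation (embK (a : K)) * 1 := mul_le_mul' le_rfl h5
    _ = _ := mul_one _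

/-- the integral norm and the norm -/
theorem det_intNorm (x : 𝓞 F) :
    Algebra.norm K (x : F) = ((Algebra.intNorm (𝓞 K) (𝓞 F) x : 𝓞 K) : K) := by
  have := nfa_finite (F := F)
  exact (Algebra.algebraMap_intNorm (A := 𝓞 K) (B := 𝓞 F) (K := K) (L := F) x).symm

/-- The generator of the norm of an ideal prime to `q` is prime to `q`. -/
theorem det_J {q : ℕ} (J : Ideal (𝓞 F)) (hJ : IsCoprime J (Ideal.span {(q : 𝓞 F)})) (j : 𝓞 K)
    (hj : Ideal.relNorm (𝓞 K) J = Ideal.span {j}) : IsCoprime j (q : 𝓞 K) := by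
  rw [Ideal.isCoprime_iff_exists] at hJ
  obtain ⟨s, hs, t, ht, hst⟩ := hJ
  have h1 : Algebra.intNorm (𝓞 K) (𝓞 F) s ∈ Ideal.span {j} := by
    rw [← hj, Ideal.relNorm_apply]
    exact Ideal.subset_span ⟨s, hs, rfl⟩
  rw [Ideal.mem_span_singleton] at h1 ht
  have h2 : (q : 𝓞 F) ∣ s - 1 := by
    have e : s - 1 = -t := by linear_combination hst
    rw [e]
    exact (dvd_neg).2 ht
  have h3 := nf_cong q s 1 (Algebra.intNorm (𝓞 K) (𝓞 F) s) 1 (det_intNorm s)
    (by simp) h2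
  obtain ⟨c, hc⟩ := h3
  have h4 : IsCoprime (Algebra.intNorm (𝓞 K) (𝓞 F) s) (q : 𝓞 K) :=
    ⟨1, -c, by linear_combination hc⟩
  exact h4.of_isCoprime_of_dvd_left h1

/-- The valuation of the norm of `x0`. -/
theorem det_val {q : ℕ} (A : ValuationSubring ℂ) (hA : Pl q A) (x0 : 𝓞 F) (J : Ideal (𝓞 F))
    (hx : Ideal.span {x0} = differentIdeal (𝓞 K) (𝓞 F) * J)
    (hJ : IsCoprime J (Ideal.span {(q : 𝓞 F)})) (d : 𝓞 K)
    (hd : Ideal.relNorm (𝓞 K) (differentIdeal (𝓞 K) (𝓞 F)) = Ideal.span {d}) :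
    A.valuation (NF (x0 : F)) = A.valuation (embK (d : K)) := by
  obtain ⟨j, hj⟩ : ∃ j : 𝓞 K, Ideal.relNorm (𝓞 K) J = Ideal.span {j} := by
    obtain ⟨j, hj⟩ := (IsPrincipalIdealRing.principal (Ideal.relNorm (𝓞 K) J)).principal
    exact ⟨j, hj⟩
  have h1 := congrArg (Ideal.relNorm (𝓞 K)) hx
  rw [Ideal.relNorm_singleton, map_mul, hd, hj, Ideal.span_singleton_mul_span_singleton] at h1
  have h2 : Associated (Algebra.intNorm (𝓞 K) (𝓞 F) x0) (d * j) :=
    Ideal.span_singleton_eq_span_singleton.1 h1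
  have h3 : A.valuation (embK ((d * j : 𝓞 K) : K)) = A.valuation (embK (d : K)) := by
    have e : ((d * j : 𝓞 K) : K) = (d : K) * (j : K) := rfl
    rw [e, map_mul, map_mul, det_unit A hA j (det_J J hJ j hj), mul_one]
  rw [NF, det_intNorm, ← h3]
  exact le_antisymm (det_dvd A h2.symm.dvd) (det_dvd A h2.dvd)

/-- The trace as a sum over the embeddings. -/
theorem det_tr {n : ℕ} (σ : Fin n → (F →ₐ[K] ℂ)) (hσ : Function.Bijective σ) (z : F) :
    embK (Algebra.trace K F z) = ∑ j, σ j z := by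
  have := nfa_finite (F := F)
  rw [← algebraMap_eq, trace_eq_sum_embeddings ℂ]
  exact (Fintype.sum_bijective σ hσ _ _ fun _ => rfl).symm

/-- The determinant of the twisted trace form. -/
theorem det_form {n : ℕ} (σ : Fin n → (F →ₐ[K] ℂ)) (hσ : Function.Bijective σ) (x : F)
    (u : Fin n → F) :
    (Matrix.of fun i k => embK (Algebra.trace K F (x * u i * u k))).det =
      (Matrix.of fun i j => σ j (u i)).det ^ 2 * NF x := by
  have h1 : (Matrix.of fun i k => embK (Algebra.trace K F (x * u i * u k))) =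
      (Matrix.of fun i j => σ j (u i)) * Matrix.diagonal (fun j => σ j x) *
        (Matrix.of fun i j => σ j (u i)).transpose := by
    ext i k
    rw [Matrix.mul_apply]
    simp only [Matrix.mul_diagonal, Matrix.transpose_apply, Matrix.of_apply]
    rw [det_tr σ hσ]
    refine Finset.sum_congr rfl fun j _ => ?_
    rw [map_mul, map_mul]
    ring
  rw [h1, Matrix.det_mul, Matrix.det_mul, Matrix.det_transpose, Matrix.det_diagonal,
    nf_prod σ hσ x]
  ring

/-- The determinant of a unimodular frame. -/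
theorem det_le {q : ℕ} (hq : q.Prime) {m : ℕ} (A : ValuationSubring ℂ) (hA : Pl q A)
    (𝔟 : Ideal (𝓞 F)) (h2 : IsCoprime 𝔟 (Ideal.span {(q : 𝓞 F)})) {R' : ℕ} (β' : 𝓞 F) (b' : 𝓞 K)
    (hβ' : Ell.Smooth q R' β' b') (σ : Fin (m + 1) → (F →ₐ[K] ℂ)) (hσ : Function.Bijective σ)
    (v : Fin (m + 1) → F) (hv : ∀ i, Gen 𝔟 β' (v i)) (d : 𝓞 K)
    (hd : Ideal.relNorm (𝓞 K) (differentIdeal (𝓞 K) (𝓞 F)) = Ideal.span {d}) :
    A.valuation (Matrix.of fun i j => σ j (v i)).det ^ 2 * A.valuation (embK (d : K)) ≤ 1 := by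
  obtain ⟨x0, J, hx, hJ⟩ := det_x0 (F := F) hq.ne_zero
  rw [← det_val A hA x0 J hx hJ d hd]
  obtain ⟨k', x', hk', hx'⟩ := fr1_mult hβ'
  obtain ⟨N, hNdef⟩ : ∃ N : ℕ, N = Ideal.absNorm 𝔟 := ⟨_, rfl⟩
  have hN : N.Coprime q := hNdef ▸ absNorm_cop hq 𝔟 h2
  have hNm : (N : 𝓞 F) ∈ 𝔟 := hNdef ▸ Ideal.absNorm_mem 𝔟
  obtain ⟨n, hn⟩ : ∃ n : ℕ, n = k' * N := ⟨_, rfl⟩
  have hnc : n.Coprime q := by
    rw [hn]
    exact Nat.Coprime.mul_left hk' hN
  -- the traces
  have htr : ∀ (i : Fin (m + 1)) (z : 𝓞 F), ∃ a : 𝓞 K,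
      Algebra.trace K F (((n : F) * v i) * (z : F)) = a := by
    intro i z
    have h1 : ((k' : 𝓞 F) : F) * v i ∈ DL 𝔟 := fr1_k hx' (hv i).1
    obtain ⟨a, ha⟩ := h1 ((N : 𝓞 F) * z) (𝔟.mul_mem_right z hNm)
    refine ⟨a, ?_⟩
    rw [← ha, fr1_vm, fr1_vn, fr1_vn, hn]
    congr 1
    push_cast
    ring
  have hdual : ∀ i, (n : F) * v i ∈ Submodule.traceDual (𝓞 K) K (1 : Submodule (𝓞 F) F) := by
    intro i
    rw [Submodule.mem_traceDual]
    intro a ha
    obtain ⟨z, rfl⟩ := Submodule.mem_one.1 ha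
    obtain ⟨c, hc⟩ := htr i z
    exact ⟨c, by rw [Algebra.traceForm_apply]; exact hc.symm⟩
  have hxD : x0 ∈ differentIdeal (𝓞 K) (𝓞 F) := by
    have h1 : Ideal.span {x0} ≤ differentIdeal (𝓞 K) (𝓞 F) := by
      rw [hx]
      exact Ideal.mul_le_left
    exact h1 (Ideal.mem_span_singleton_self _)
  have hxm : (algebraMap (𝓞 F) F) x0 ∈
      IsLocalization.coeSubmodule F (differentIdeal (𝓞 K) (𝓞 F)) :=
    Submodule.mem_map_of_mem hxD
  rw [coeSubmodule_differentIdeal (𝓞 K) K, Submodule.mem_div_iff_forall_mul_mem] at hxm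
  have hint : ∀ i k, ∃ a : 𝓞 K, Algebra.trace K F ((x0 : F) * ((n : F) * v i) *
      ((n : F) * v k)) = a := by
    intro i k
    obtain ⟨z, hz⟩ := Submodule.mem_one.1 (hxm _ (hdual i))
    obtain ⟨a, ha⟩ := htr k z
    refine ⟨a, ?_⟩
    rw [← ha, ← hz]
    congr 1
    ring
  have hdet := det_form σ hσ (x0 : F) (fun i => (n : F) * v i)
  have hmem : (Matrix.of fun i k => embK (Algebra.trace K F ((x0 : F) * ((n : F) * v i) *
      ((n : F) * v k)))).det ∈ A := by
    choose a ha using hint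
    have hmem' : ∀ i k, embK (Algebra.trace K F ((x0 : F) * ((n : F) * v i) *
        ((n : F) * v k))) ∈ A := by
      intro i k
      rw [ha i k]
      exact kq_intA A (a i k)
    have e : (Matrix.of fun i k => embK (Algebra.trace K F ((x0 : F) * ((n : F) * v i) *
        ((n : F) * v k)))) =
        (A.subtype).mapMatrix (Matrix.of fun i k => (⟨_, hmem' i k⟩ : A)) := by
      ext i k
      rfl
    rw [e, ← RingHom.map_det]
    exact (Matrix.det _ : A).2
  rw [hdet, ← A.valuation_le_one_iff, map_mul, map_pow] at hmem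
  have hU : (Matrix.of fun i j => σ j ((n : F) * v i)).det =
      (n : ℂ) ^ (m + 1) * (Matrix.of fun i j => σ j (v i)).det := by
    have e : (Matrix.of fun i j => σ j ((n : F) * v i)) =
        (n : ℂ) • (Matrix.of fun i j => σ j (v i)) := by
      ext i j
      rw [Matrix.smul_apply, Matrix.of_apply, Matrix.of_apply, map_mul, map_natCast, smul_eq_mul]
    rw [e, Matrix.det_smul, Fintype.card_fin]
  rw [hU, map_mul, map_pow, v_cop hA hnc, one_pow, one_mul] at hmem
  exact hmem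

end Pool.Agent.Lib.MP_1a91b9_nuW.VA
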