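import Pool.Agent.Lib.MP_1a91b9_nuW.VA.Wt
import Pool.Agent.Lib.MP_1a91b9_nuW.VA.Char

/-!
# G7, stream VA, file FD: the data of a unimodular frame

`FD`: `v` is a frame of vectors generating `β'⁻¹ DL 𝔟` modulo `DL 𝔟`, `u` is the dual basis, `N` a natural number in `𝔪`, `k'` a
multiple of `β'`, `κ` a natural number such that `Tr (v i μ) ∈ κ 𝓞 K` for all `i` implies `μ ∈ 𝔟`, `Nb = b * cK b`.
The constants of the frame are `D = k'`, `c₁ = N k' κ (cK p)^k`, `c₂ = Nb p^k`, `c = c₁ c₂ = N k' κ Nb ℓ^k`.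

PROOFS.
* `zz_eq`: the difference of both sides has all traces `Tr (v i μ) = 0` (`dual`), so `inj`.
* `cram1`: `Tr (v i μ) = N k' κ a_i`... : if `Tr (v i μ) = (κ : K) * (x : K) * a_i` with `x : 𝓞 K`, `x ≠ 0`, then
  `μ' = algebraMap K F x⁻¹ * μ` satisfies `Tr (v i μ') = κ a_i`, so `μ' = w ∈ 𝔟` (`cram`) and `μ = x w`.
* `supp1`: `z` in the class is `w ∈ 𝔟` and `k' v i ∈ DL 𝔟`: `k' v i = x' (β' v i)` (`fr1_k`, `fr1_tr` of nuT/S6/Fr1.lean).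
* `per1`: by `cram1` with `x = N k' Nb ℓ^k`, `μ = N k' Nb ℓ^k w`, `w ∈ 𝔟`. `z + μ ∈ cls ↔ z ∈ cls` (`de2_cls`: `N k' Nb ℓ^k w ∈ 𝔪 𝔟`),
  `z + μ ∈ mulI 𝔟 β' ↔ z ∈ mulI 𝔟 β'` (`de2_mulI`, `k' = β' x'`), the same for `β` (`β ∣ b ∣ Nb`: `nf_dvd`), so `del` is unchanged; if
  `z ∈ cls` then `H (z + μ) = H z` (`WtA.per`, as `N k' Nb w ∈ 𝔪 𝔟`); if `z ∉ cls` both products are `0`.
-/

set_option autoImplicit false

namespace Pool.Agent.Lib.MP_1a91b9_nuW.VA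

variable [Pool.Agent.Lib.MP_1a91b9_nuT.CD]

open Pool.Agent.Lib.MP_1a91b9_nuT hiding cj
open Pool.Agent.Lib.MP_1a91b9_nuT.Ell
open NumberField Module

universe u

variable {F : Type u} [Field F] [NumberField F] [Algebra K F]

/-- The data of a unimodular frame `v` with dual basis `u`. -/
structure FD (p : 𝓞 K) (ℓ : ℕ) (𝔟 𝔪 : Ideal (𝓞 F)) (β' β : 𝓞 F) (b' b : 𝓞 K) {m : ℕ}
    (v u : Fin (m + 1) → F) (N k' κ Nb : ℕ) : Prop where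
  spl : Spl p ℓ
  bne : 𝔟 ≠ ⊥
  nm : (N : 𝓞 F) ∈ 𝔪
  cop : (N * k' * κ * Nb).Coprime ℓ
  kb : ∃ x' : 𝓞 F, (k' : 𝓞 F) = β' * x'
  gen : ∀ i, Gen 𝔟 β' (v i)
  dual : ∀ i j, Algebra.trace K F (v i * u j) = if i = j then 1 else 0
  inj : ∀ μ : F, (∀ i, Algebra.trace K F (v i * μ) = 0) → μ = 0
  cram : ∀ μ : F, (∀ i, ∃ a : 𝓞 K, Algebra.trace K F (v i * μ) = (κ : K) * a) →
    ∃ w ∈ 𝔟, (w : F) = μ
  nrm' : Algebra.norm K (β' : F) = b'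
  ne' : β' ≠ 0
  sm : ∃ R : ℕ, Ell.Smooth ℓ R β b
  nb : b * cK b = (Nb : 𝓞 K)
  copb : IsCoprime b ((N * k' * κ : ℕ) : 𝓞 K)
  copp : IsCoprime b (ℓ : 𝓞 K)
  copb' : IsCoprime (Nb : 𝓞 K) b'
  alph : ∀ j, ∃ α ∈ 𝔟, (α : F) = (κ : F) * u j ∧
    ∀ y : 𝓞 K, ((algebraMap (𝓞 K) (𝓞 F) y * α : 𝓞 F) : F) ∈ mulI 𝔟 β ↔ b ∣ y

section
variable {p : 𝓞 K} {ℓ : ℕ} {𝔟 𝔪 : Ideal (𝓞 F)} {β' β : 𝓞 F} {b' b : 𝓞 K} {m : ℕ}
  {v u : Fin (m + 1) → F} {N k' κ Nb : ℕ}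

theorem zz_eq (h : FD p ℓ 𝔟 𝔪 β' β b' b v u N k' κ Nb) (zz : (Fin (m + 1) → K) → F)
    (hz : ∀ a i, Algebra.trace K F (v i * zz a) = a i) (a : Fin (m + 1) → K) :
    zz a = ∑ j, algebraMap K F (a j) * u j := by
  rw [← sub_eq_zero]
  apply h.inj
  intro i
  rw [mul_sub, map_sub, hz, Finset.mul_sum, map_sum, sub_eq_zero]
  have e : ∀ j, Algebra.trace K F (v i * (algebraMap K F (a j) * u j)) =
      if i = j then a j else 0 := by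
    intro j
    have e1 : v i * (algebraMap K F (a j) * u j) = (a j) • (v i * u j) := by
      rw [Algebra.smul_def]
      ring
    rw [e1, map_smul, smul_eq_mul, h.dual, mul_ite, mul_one, mul_zero]
  rw [Finset.sum_congr rfl fun j _ => e j, Finset.sum_ite_eq, if_pos (Finset.mem_univ _)]

theorem cram1 (h : FD p ℓ 𝔟 𝔪 β' β b' b v u N k' κ Nb) (x : 𝓞 K) (hx : x ≠ 0) (μ : F)
    (hμ : ∀ i, ∃ a : 𝓞 K, Algebra.trace K F (v i * μ) = (κ : K) * (x : K) * a) :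
    ∃ w ∈ 𝔟, μ = ((algebraMap (𝓞 K) (𝓞 F) x * w : 𝓞 F) : F) := by
  have hx0 : (x : K) ≠ 0 := fun h0 => hx (RingOfIntegers.coe_eq_zero_iff.1 h0)
  obtain ⟨w, hw, hwz⟩ := h.cram (algebraMap K F (x : K)⁻¹ * μ) (by
    intro i
    obtain ⟨a, ha⟩ := hμ i
    refine ⟨a, ?_⟩
    have e : v i * (algebraMap K F (x : K)⁻¹ * μ) = (x : K)⁻¹ • (v i * μ) := by
      rw [Algebra.smul_def]
      ring
    rw [e, map_smul, smul_eq_mul, ha]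
    field_simp)
  refine ⟨w, hw, ?_⟩
  have e1 : ((algebraMap (𝓞 K) (𝓞 F) x * w : 𝓞 F) : F) = algebraMap K F (x : K) * (w : F) :=
    fr1_vm _ _
  have hx1 : algebraMap K F (x : K) ≠ 0 := by
    rw [Ne, map_eq_zero]
    exact hx0
  rw [e1, hwz, map_inv₀, ← mul_assoc, mul_inv_cancel₀ hx1, one_mul]

theorem supp1 (h : FD p ℓ 𝔟 𝔪 β' β b' b v u N k' κ Nb) {t : 𝓞 F} (ht : t ∈ 𝔟) (H : F → ℂ) (i)
    (z : F) (hz : H z * del 𝔟 𝔪 t β' β b z ≠ 0) :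
    ∃ a : 𝓞 K, (k' : K) * Algebra.trace K F (v i * z) = a := by
  have hzc : z ∈ cls 𝔟 𝔪 t := by
    by_contra hzc
    apply hz
    unfold del
    rw [if_neg (fun h => hzc h.1), mul_zero]
  obtain ⟨w, rfl, hw⟩ := hzc
  have hw𝔟 : w ∈ 𝔟 := by
    have h1 : w - t ∈ 𝔟 := Ideal.mul_le_right hw
    have h2 : w = (w - t) + t := by ring
    rw [h2]
    exact 𝔟.add_mem h1 ht
  obtain ⟨x', hx'⟩ := h.kb
  obtain ⟨a, ha⟩ := (fr1_k hx' (h.gen i).1) w hw𝔟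
  refine ⟨a, ?_⟩
  rw [← ha, ← fr1_tr, mul_assoc]

theorem per1 (h : FD p ℓ 𝔟 𝔪 β' β b' b v u N k' κ Nb) {t : 𝓞 F} (ht : t ∈ 𝔟) {k : ℕ} {ε : 𝓞 K}
    {H : F → ℂ} (hH : WtA ℓ k ε 𝔟 𝔪 t H) (μ : F)
    (hμ : ∀ i, ∃ a : 𝓞 K, Algebra.trace K F (v i * μ) = ((N * k' * κ * Nb * ℓ ^ k : ℕ) : K) * a)
    (z : F) : H (z + μ) * del 𝔟 𝔪 t β' β b (z + μ) = H z * del 𝔟 𝔪 t β' β b z := by
  have hℓ : ℓ.Prime := h.spl.prime
  have hcop := h.cop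
  have hne : N * k' * κ * Nb ≠ 0 := by
    intro h0
    rw [h0, Nat.coprime_zero_left] at hcop
    exact hℓ.one_lt.ne' hcop
  have hx0 : N * k' * Nb * ℓ ^ k ≠ 0 := by
    intro h0
    rcases mul_eq_zero.1 h0 with h1 | h1
    · apply hne
      have e : N * k' * κ * Nb = (N * k' * Nb) * κ := by ring
      rw [e, h1, zero_mul]
    · exact pow_ne_zero k hℓ.ne_zero h1
  obtain ⟨w, hw, hμw⟩ := cram1 h ((N * k' * Nb * ℓ ^ k : ℕ) : 𝓞 K) (by exact_mod_cast hx0) μ (by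
    intro i
    obtain ⟨a, ha⟩ := hμ i
    refine ⟨a, ?_⟩
    rw [ha, fr1_vn]
    push_cast
    ring)
  rw [map_natCast] at hμw
  obtain ⟨x', hx'⟩ := h.kb
  obtain ⟨R, hR⟩ := h.sm
  obtain ⟨y, hy⟩ := nf_dvd β b hR.nrm
  have hNb : (Nb : 𝓞 F) = β * (y * algebraMap (𝓞 K) (𝓞 F) (cK b)) := by
    have e1 : (Nb : 𝓞 F) = algebraMap (𝓞 K) (𝓞 F) (Nb : 𝓞 K) := (map_natCast _ _).symm
    rw [e1, ← h.nb, map_mul, hy, mul_assoc]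
  have hwm : ((N * k' * Nb : ℕ) : 𝓞 F) * w ∈ 𝔪 * 𝔟 := by
    have e : ((N * k' * Nb : ℕ) : 𝓞 F) * w = (N : 𝓞 F) * (((k' * Nb : ℕ) : 𝓞 F) * w) := by
      push_cast
      ring
    rw [e]
    exact Ideal.mul_mem_mul h.nm (𝔟.mul_mem_left _ hw)
  have hdel : del 𝔟 𝔪 t β' β b (z + μ) = del 𝔟 𝔪 t β' β b z := by
    rw [hμw]
    refine fr1_del (x' := x' * ((N * Nb * ℓ ^ k : ℕ) : 𝓞 F))
      (x := y * algebraMap (𝓞 K) (𝓞 F) (cK b) * ((N * k' * ℓ ^ k : ℕ) : 𝓞 F)) ?_ ?_ ?_ hw z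
    · have e : ((N * k' * Nb * ℓ ^ k : ℕ) : 𝓞 F) * w =
          ((ℓ ^ k : ℕ) : 𝓞 F) * (((N * k' * Nb : ℕ) : 𝓞 F) * w) := by
        push_cast
        ring
      rw [e]
      exact (𝔪 * 𝔟).mul_mem_left _ hwm
    · rw [← mul_assoc, ← hx']
      push_cast
      ring
    · rw [← mul_assoc, ← hNb]
      push_cast
      ring
  rw [hdel]
  by_cases hz : z ∈ cls 𝔟 𝔪 t
  · have h1 := hH.per z hz _ hwm
    have e : μ = ((((ℓ ^ k : ℕ) : 𝓞 F) * (((N * k' * Nb : ℕ) : 𝓞 F) * w) : 𝓞 F) : F) := by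
      rw [hμw]
      congr 1
      push_cast
      ring
    rw [e, h1]
  · have e : del 𝔟 𝔪 t β' β b z = 0 := by
      unfold del
      rw [if_neg (fun h => hz h.1)]
    rw [e, mul_zero, mul_zero]

end

end Pool.Agent.Lib.MP_1a91b9_nuW.VA
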