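import Pool.Agent.Lib.MP_1a91b9_nuW.VA.FD

/-!
# G7, stream VA, file FDe: existence of the data of a unimodular frame

PROOF of `fd_exists`.
(1) Constants which depend only on the frame `v` and on `β'` (this is the first part of the proof of `fr_val` in nuT/D6/Fr.lean):
    `fr1_mult hβ'` gives `k', x'` with `(k' : 𝓞 F) = β' x'`, `k'` prime to `ℓ`; `Unimod` gives `ku, u₀` and `kq_odd u₀` gives `cu, k₂` with
    `u₀ cu = k₂` prime to `ℓ`; `κ = k' ^ (m + 1) * k₂`. `cram`: `fr1_cramer` (nuT/S6/Fr1.lean) with `c₁ = 1`, exactly as in the proof of the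
    periodicity in `fr_val`: `Tr (v i μ) = κ a_i` for all `i` implies `Tr (bb j μ) ∈ 𝓞 K` for all `j`, so `μ ∈ 𝔟` (`hbb'`).
(2) The dual basis: `co3_zz hn v hli` (nuT/S6/Co3.lean) gives `zz`; `u j = zz (Pi.single j 1)`. `inj`: the linear map
    `z ↦ (Tr (v i z))_i` is surjective (`zz`) from `F` to `K ^ (m + 1)`, dimensions are equal (`hn`), so it is injective
    (`LinearMap.injective_iff_surjective_of_finrank_eq_finrank`).
(3) `α j = κ u j`: `Tr (v i (κ u j)) = κ δ_ij`, so by `cram` there is `α j ∈ 𝔟` with `(α j : F) = κ u j`; `α j ≠ 0`.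
    For each `j` the number `Ideal.absNorm (span {α j}) ≠ 0` has a largest divisor `n_j` prime to `ℓ`: `de2_cop` (nuT/D6/De.lean).
(4) `N'` = `Ideal.absNorm (span {b'})`, a natural number prime to `ℓ` (`b'` is prime to `ℓ`: `kq_odd b'`; better: take
    `N' = k₁` with `b' * c' = k₁` from `kq_odd b' hβ'.c0`), so `b' ∣ N'`.
    `R₁ = N * k' * κ * N' * ∏ j, n_j`, prime to `ℓ`.
(5) Let `R₁ ∣ R`, `β, b` smoothing with `R`. `Nb`: `kq_odd b` gives `b * c = Nb` with `(Nb : ℝ) = ‖embK b‖²`; `c = cK b` because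
    `embK (b * cK b) = embK b * conj (embK b) = ‖embK b‖²` (injectivity of the embedding). `Nb` is prime to `ℓ`.
    `b ≡ 1` modulo `R` (`nf_cong R β 1 b 1 ..` from `β ≡ 1` modulo `R`, see `sm_gt` in nuT/D6/Sm.lean), so `b` is prime to `R`, hence to
    `N k' κ` (`copb`). `cK b ≡ 1` modulo `R` as well (`cK R = R`), so `Nb ≡ 1` modulo `R`, hence modulo `N'`, so `Nb` is prime to `N'` and to its
    divisor `b'` (`copb'`). `copp = hβ.c0`. `alph`: `gen_mul` (file Char) with (3).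
    `nrm' = hβ'.nrm`, `ne' = smooth_ne`.
-/

set_option autoImplicit false

namespace Pool.Agent.Lib.MP_1a91b9_nuW.VA

variable [Pool.Agent.Lib.MP_1a91b9_nuT.CD]

open Pool.Agent.Lib.MP_1a91b9_nuT hiding cj
open Pool.Agent.Lib.MP_1a91b9_nuT.Ell
open NumberField Module

universe u

variable {F : Type u} [Field F] [NumberField F] [Algebra K F]

private theorem fde_inj {m : ℕ} (hn : finrank K F = m + 1) (w : Fin (m + 1) → F)
    (hw : LinearIndependent K w) (z : F) (hz : ∀ i, Algebra.trace K F (w i * z) = 0) : z = 0 := by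
  have hspan : Submodule.span K (Set.range w) = ⊤ :=
    hw.span_eq_top_of_card_eq_finrank (by rw [Fintype.card_fin, hn])
  have h1 : ∀ x : F, Algebra.trace K F (x * z) = 0 := by
    intro x
    have hx : x ∈ Submodule.span K (Set.range w) := by rw [hspan]; trivial
    induction hx using Submodule.span_induction with
    | mem x hx =>
      obtain ⟨i, rfl⟩ := hx
      exact hz i
    | zero => simp
    | add x y _ _ h1 h2 => rw [add_mul, map_add, h1, h2, add_zero]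
    | smul r x _ h1 => rw [smul_mul_assoc, map_smul, h1, smul_zero]
  by_contra hz0
  have : FiniteDimensional K F := Module.finite_of_finrank_pos (by omega)
  have hnd := traceForm_nondegenerate K F
  have h2 : ∀ x : F, Algebra.traceForm K F x z = 0 := fun x => by
    rw [Algebra.traceForm_apply]
    exact h1 x
  exact hz0 (hnd.2 z h2)

private theorem fde_cram {q : ℕ} (hq : q.Prime) {m : ℕ} (𝔟 : Ideal (𝓞 F)) {β' x' : 𝓞 F} {k' : ℕ}
    (hk' : k'.Coprime q) (hx' : (k' : 𝓞 F) = β' * x') (bb : Basis (Fin (m + 1)) K F)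
    (hbb : ∀ v : F, v ∈ DL 𝔟 ↔ ∀ i, ∃ a : 𝓞 K, bb.repr v i = a)
    (hbb' : ∀ z : F, (∀ i, ∃ a : 𝓞 K, Algebra.trace K F (bb i * z) = a) ↔ ∃ w ∈ 𝔟, (w : F) = z)
    (v : Fin (m + 1) → F) (hv : ∀ i, Gen 𝔟 β' (v i)) (hu : Unimod q bb v) :
    ∃ κ : ℕ, κ.Coprime q ∧ ∀ μ : F,
      (∀ i, ∃ a : 𝓞 K, Algebra.trace K F (v i * μ) = (κ : K) * a) → ∃ w ∈ 𝔟, (w : F) = μ := by
  have hkv : ∀ i, ((k' : 𝓞 F) : F) * v i ∈ DL 𝔟 := fun i => fr1_k hx' (hv i).1
  obtain ⟨ku, u, hku, hu2, hud⟩ := hu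
  obtain ⟨cu, k₂, hk₂, hcu, -⟩ := kq_odd u hu2
  have hk'0 : (k' : K) ≠ 0 := by
    exact_mod_cast cop_ne hq hk'
  have hk₂0 : (k₂ : K) ≠ 0 := by
    exact_mod_cast cop_ne hq hk₂
  refine ⟨k' ^ (m + 1) * k₂, Nat.Coprime.mul_left (Nat.Coprime.pow_left _ hk') hk₂, ?_⟩
  intro μ hμ
  choose a ha using hμ
  have hW : ∀ i j, ∃ s : 𝓞 K, (k' : K) * bb.repr (v i) j = s := by
    intro i j
    obtain ⟨s, hs⟩ := (hbb _).mp (hkv i) j
    refine ⟨s, ?_⟩
    rw [← hs, fr1_cast, ← Algebra.smul_def, map_smul, Finsupp.smul_apply, smul_eq_mul]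
  choose W hW using hW
  have hdet : (ku : K) * (Matrix.of fun i j => bb.repr (v i) j).det = u := by
    rw [← hud, Module.Basis.det_apply, ← Matrix.det_transpose]
    rfl
  have hy : ∀ i, ∑ j, (Matrix.of fun i j => bb.repr (v i) j) i j *
      Algebra.trace K F (bb j * μ) = ((1 * (k' ^ (m + 1) * k₂) : ℕ) : K) * a i := by
    intro i
    rw [one_mul, ← ha i]
    conv_rhs => rw [← bb.sum_repr (v i)]
    rw [Finset.sum_mul, map_sum]
    refine Finset.sum_congr rfl fun j _ => ?_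
    rw [smul_mul_assoc, map_smul, smul_eq_mul]
    rfl
  have hs := fun j => fr1_cramer (Matrix.of fun i j => bb.repr (v i) j) k' ku k₂ u cu
    (Matrix.of fun i j => W i j) (fun i j => (hW i j).symm) hdet hcu hk'0 hk₂0 1
    (fun j => Algebra.trace K F (bb j * μ)) a hy j
  refine (hbb' μ).mp fun i => ?_
  obtain ⟨s, hs'⟩ := hs i
  refine ⟨s, ?_⟩
  rw [Nat.cast_one, one_mul] at hs'
  exact hs'

private theorem fde_cong {q R : ℕ} {β : 𝓞 F} {b : 𝓞 K} (h : Ell.Smooth q R β b) :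
    (R : 𝓞 K) ∣ b - 1 := by
  refine nf_cong R β 1 b 1 h.nrm ?_ h.one
  have h8 : ((1 : 𝓞 K) : K) = 1 := map_one (algebraMap (𝓞 K) K)
  have h9 : ((1 : 𝓞 F) : F) = 1 := map_one (algebraMap (𝓞 F) F)
  rw [h8, h9, map_one]

private theorem fde_cop1 {x y : 𝓞 K} (h : y ∣ x - 1) : IsCoprime x y := by
  obtain ⟨s, hs⟩ := h
  exact ⟨1, -s, by linear_combination hs⟩

theorem fd_exists {p : 𝓞 K} {ℓ : ℕ} (hp : Spl p ℓ) {m : ℕ} (hn : finrank K F = m + 1)
    (𝔟 𝔪 : Ideal (𝓞 F)) (hb : 𝔟 ≠ ⊥) {N : ℕ} (hN : N.Coprime ℓ) (hNm : (N : 𝓞 F) ∈ 𝔪) {R' : ℕ}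
    {β' : 𝓞 F} {b' : 𝓞 K} (hβ' : Ell.Smooth ℓ R' β' b') (bb : Basis (Fin (m + 1)) K F)
    (hbb : ∀ v : F, v ∈ DL 𝔟 ↔ ∀ i, ∃ a : 𝓞 K, bb.repr v i = a)
    (hbb' : ∀ z : F, (∀ i, ∃ a : 𝓞 K, Algebra.trace K F (bb i * z) = a) ↔ ∃ w ∈ 𝔟, (w : F) = z)
    (v : Fin (m + 1) → F) (hv : ∀ i, Gen 𝔟 β' (v i)) (hli : LinearIndependent K v)
    (hu : Unimod ℓ bb v) :
    ∃ (u : Fin (m + 1) → F) (k' κ R₁ : ℕ), R₁.Coprime ℓ ∧ 0 < R₁ ∧
      ∀ (R : ℕ) (β : 𝓞 F) (b : 𝓞 K), R₁ ∣ R → Ell.Smooth ℓ R β b →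
        ∃ Nb : ℕ, FD p ℓ 𝔟 𝔪 β' β b' b v u N k' κ Nb := by
  classical
  have hq := hp.prime
  obtain ⟨k', x', hk', hx'⟩ := fr1_mult hβ'
  obtain ⟨κ, hκ, hcram⟩ := fde_cram hq 𝔟 hk' hx' bb hbb hbb' v hv hu
  obtain ⟨zz, hzz⟩ := co3_zz hn v hli
  have hdual : ∀ i j, Algebra.trace K F (v i * zz (Pi.single j 1)) = if i = j then 1 else 0 := by
    intro i j
    rw [hzz, Pi.single_apply]
  have hκK : (κ : K) ≠ 0 := by exact_mod_cast cop_ne hq hκ
  have hκF : (κ : F) ≠ 0 := by exact_mod_cast cop_ne hq hκ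
  have hα : ∀ j, ∃ α ∈ 𝔟, (α : F) = (κ : F) * zz (Pi.single j 1) := by
    intro j
    refine hcram _ fun i => ⟨if i = j then 1 else 0, ?_⟩
    have e1 : v i * ((κ : F) * zz (Pi.single j 1)) = (κ : K) • (v i * zz (Pi.single j 1)) := by
      rw [Algebra.smul_def, map_natCast]
      ring
    rw [e1, map_smul, hdual, smul_eq_mul]
    split_ifs
    · exact congrArg (fun z => (κ : K) * z) (map_one (algebraMap (𝓞 K) K)).symm
    · exact congrArg (fun z => (κ : K) * z) (map_zero (algebraMap (𝓞 K) K)).symm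
  choose α hαb hαe using hα
  have hα0 : ∀ j, α j ≠ 0 := by
    intro j h0
    have e1 := hαe j
    have e2 : ((0 : 𝓞 F) : F) = 0 := map_zero (algebraMap (𝓞 F) F)
    rw [h0, e2] at e1
    have e3 := (mul_eq_zero.1 e1.symm).resolve_left hκF
    have e4 := hdual j j
    rw [e3, mul_zero, map_zero, if_pos rfl] at e4
    exact zero_ne_one e4
  have hnj : ∀ j, ∃ n : ℕ, n.Coprime ℓ ∧
      ∀ t : ℕ, t.Coprime ℓ → t ∣ Ideal.absNorm (Ideal.span {α j}) → t ∣ n := by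
    intro j
    refine de2_cop hq _ fun h => ?_
    rw [Ideal.absNorm_eq_zero_iff, Ideal.span_singleton_eq_bot] at h
    exact hα0 j h
  choose nn hnn1 hnn2 using hnj
  obtain ⟨c', N', hN', hcN', -⟩ := kq_odd b' hβ'.c0
  obtain ⟨R₁, hR₁⟩ : ∃ R₁ : ℕ, R₁ = N * k' * κ * N' * ∏ j, nn j := ⟨_, rfl⟩
  have hR₁c : R₁.Coprime ℓ := by
    rw [hR₁]
    exact Nat.Coprime.mul_left (Nat.Coprime.mul_left (Nat.Coprime.mul_left
      (Nat.Coprime.mul_left hN hk') hκ) hN') (Nat.Coprime.prod_left fun j _ => hnn1 j)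
  refine ⟨fun j => zz (Pi.single j 1), k', κ, R₁, hR₁c, Nat.pos_of_ne_zero (cop_ne hq hR₁c), ?_⟩
  intro R β b hR hβ
  have hd1 : N * k' * κ ∣ R := by
    refine dvd_trans ?_ hR
    rw [hR₁, mul_assoc (N * k' * κ)]
    exact dvd_mul_right _ _
  have hd2 : N' ∣ R := by
    refine dvd_trans ?_ hR
    rw [hR₁]
    exact (dvd_mul_left N' _).mul_right _
  have hd3 : ∀ j, nn j ∣ R := by
    intro j
    refine dvd_trans ?_ hR
    rw [hR₁]
    exact (Finset.dvd_prod_of_mem nn (Finset.mem_univ j)).mul_left _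
  have hbR := fde_cong hβ
  have hbR' : (R : 𝓞 K) ∣ cK b - 1 := by
    have e1 := map_dvd (Pool.Agent.Lib.MP_1a91b9_nuT.cj) hbR
    rwa [map_natCast, map_sub, map_one] at e1
  have hNb : b * cK b = ((Ideal.absNorm (Ideal.span {b}) : ℕ) : 𝓞 K) :=
    Pool.Agent.Lib.MP_1a91b9_nuT.mul_cj b
  have hNbr : ((Ideal.absNorm (Ideal.span {b}) : ℕ) : ℝ) = ‖embK (b : K)‖ ^ 2 := by
    rw [← Pool.Agent.Lib.MP_1a91b9_nuT.normSq_emb, Complex.normSq_eq_norm_sq]
  have hNbc : (Ideal.absNorm (Ideal.span {b})).Coprime ℓ := kq_norm b hβ.c0 _ hNbr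
  refine ⟨Ideal.absNorm (Ideal.span {b}), ?_⟩
  exact
    { spl := hp
      bne := hb
      nm := hNm
      cop := Nat.Coprime.mul_left (Nat.Coprime.mul_left (Nat.Coprime.mul_left hN hk') hκ) hNbc
      kb := ⟨x', hx'⟩
      gen := hv
      dual := hdual
      inj := fun μ h => fde_inj hn v hli μ h
      cram := hcram
      nrm' := hβ'.nrm
      ne' := smooth_ne hq.one_lt.ne' hβ'
      sm := ⟨R, hβ⟩
      nb := hNb
      copb := (fde_cop1 hbR).of_isCoprime_of_dvd_right (Nat.cast_dvd_cast hd1)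
      copp := hβ.c0
      copb' := by
        rw [← hNb]
        have e1 : IsCoprime (b * cK b) (R : 𝓞 K) :=
          IsCoprime.mul_left (fde_cop1 hbR) (fde_cop1 hbR')
        refine e1.of_isCoprime_of_dvd_right (dvd_trans ?_ (Nat.cast_dvd_cast hd2))
        rw [← hcN']
        exact dvd_mul_right _ _
      alph := fun j => ⟨α j, hαb j, hαe j, fun y => gen_mul hq hβ (α j) (hαb j) (hα0 j)
        (fun t ht htd => (hnn2 j t ht htd).trans (hd3 j)) y⟩ }


end Pool.Agent.Lib.MP_1a91b9_nuW.VA
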