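import Pool.Agent.Lib.MP_1a91b9_nuW.VA.FD

/-!
# G7, stream VA, file FG: the hypotheses of `core_sum` for a frame

`c₁ = N k' κ (cK p)^k`, `c₂ = Nb p^k`, `D = k'`. For `x : Fin (m + 1) → 𝓞 K` the point is
`pt x = ∑ j, (x j / k') u j`, with `Tr (v i (pt x)) = x i / k'` (`dual`).

PROOFS (`h : FD ..`).
* `tr_pt`: `dual`, linearity of the trace.
* `GG_mem`: obvious (`0 ∈ A`).
* `GG_per`: `μ = pt x - pt y`, `Tr (v i μ) = (x i - y i) / k' = c₁ a_i = κ (N k' (cK p)^k) a_i`, so by `cram1`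
  `μ = N k' (cK p)^k w`, `w ∈ 𝔟`; `N k' (cK p)^k w ∈ 𝔪 𝔟`, and `pt x = pt y + μ`. The conditions `pt x ∈ cls`, `pt x ∈ mulI 𝔟 β'` are
  equivalent to those for `pt y` (`de2_cls`, `de2_mulI` with `k' = β' x'`). If they hold, `pt y = (z : 𝓞 F)`, `pt x = z + N k' (cK p)^k w`
  and `g (z + ..) = g z` by `hg` (the element `N k' w` is in `𝔪 𝔟`).
* `GG_ne`: let `z ∈ 𝓞 F`, `z - t ∈ 𝔪 𝔟`, `(z : F) = pt x`, `z ∉ mulI 𝔟 β'`. `z ∈ 𝔟`. By `gen_ne` (nuT/S6/Du2.lean) `x j / k' = Tr (v j z)` is not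
  in `𝓞 K`. And `b' x j / k' ∈ 𝓞 K`: `b' = β' y` (`nf_dvd`), `β' v j ∈ DL 𝔟`. Suppose `k' c₁ ∣ cK c₂ * x j` where
  `cK c₂ = Nb (cK p)^k` (`cK` is multiplicative, `cK Nb = Nb`): `Nb (cK p)^k x j = k' N k' κ (cK p)^k a`, so
  `Nb x j / k' = N k' κ a ∈ 𝓞 K`. With `copb'`: `x j / k' ∈ 𝓞 K`, contradiction.
* `YY1`: let `Y = Tr (y u j)` and suppose `(Nb p^k) y` pairs integrally with `𝔟`: for all `z ∈ 𝔟`, `Nb p^k Tr (y z) ∈ 𝓞 K`. `κ u j = α ∈ 𝔟` (`alph`).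
  So `c₁ c₂ Y = N k' (cK p)^k (Nb p^k Tr (y α)) ∈ 𝓞 K`.
* `YY2`: `y = y₁ + a v₀` with `p^k Tr (y₁ z) ∈ 𝓞 K` for `z ∈ 𝔟`, `Gen 𝔟 β v₀`, `¬ b ∣ a`. Suppose `c₁ Y ∈ 𝓞 K`. `κ u j = α`, so
  `N k' (cK p)^k Tr (y α) ∈ 𝓞 K`; multiply by `p^k`: `N k' ℓ^k Tr (y α) ∈ 𝓞 K` and `p^k Tr (y₁ α) ∈ 𝓞 K` give
  `N k' ℓ^k a Tr (v₀ α) ∈ 𝓞 K`. By `tr_b` `b Tr (v₀ α) = u₀ ∈ 𝓞 K`, and `u₀` is prime to `b` (`cop_u` with `alph`). So
  `b ∣ N k' ℓ^k a u₀`, and `b` is prime to `N k'` (`copb`), to `ℓ` (`copp`) and to `u₀`: `b ∣ a`, contradiction.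
-/

set_option autoImplicit false

namespace Pool.Agent.Lib.MP_1a91b9_nuW.VA

variable [Pool.Agent.Lib.MP_1a91b9_nuT.CD]

open Pool.Agent.Lib.MP_1a91b9_nuT hiding cj
open Pool.Agent.Lib.MP_1a91b9_nuT.Ell
open NumberField Module

universe u

variable {F : Type u} [Field F] [NumberField F] [Algebra K F]

/-- the point with the coordinates `x / D` -/
noncomputable def pt {m : ℕ} (u : Fin (m + 1) → F) (D : ℕ) (x : Fin (m + 1) → 𝓞 K) : F :=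
  ∑ j, algebraMap K F ((x j : K) / D) * u j

/-- the coefficient function of the frame -/
noncomputable def GG {m : ℕ} (𝔟 𝔪 : Ideal (𝓞 F)) (t β' : 𝓞 F) (g : 𝓞 F → ℂ) (u : Fin (m + 1) → F)
    (D : ℕ) (x : Fin (m + 1) → 𝓞 K) : ℂ := by
  classical
  exact if pt u D x ∈ mulI 𝔟 β' then 0 else extW 𝔟 𝔪 t g (pt u D x)

section
variable {p : 𝓞 K} {ℓ : ℕ} {𝔟 𝔪 : Ideal (𝓞 F)} {β' β : 𝓞 F} {b' b : 𝓞 K} {m : ℕ}
  {v u : Fin (m + 1) → F} {N k' κ Nb : ℕ}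

omit [NumberField F] in
private theorem fg_tr (a : K) (x y : F) :
    Algebra.trace K F (x * (algebraMap K F a * y)) = a * Algebra.trace K F (x * y) := by
  have e1 : x * (algebraMap K F a * y) = a • (x * y) := by
    rw [Algebra.smul_def]
    ring
  rw [e1, map_smul, smul_eq_mul]

private theorem fg_vm (a b : 𝓞 K) : ((a * b : 𝓞 K) : K) = (a : K) * (b : K) :=
  map_mul (algebraMap (𝓞 K) K) a b

private theorem fg_va (a b : 𝓞 K) : ((a + b : 𝓞 K) : K) = (a : K) + (b : K) :=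
  map_add (algebraMap (𝓞 K) K) a b

private theorem fg_vn (n : ℕ) : ((n : 𝓞 K) : K) = (n : K) := map_natCast (algebraMap (𝓞 K) K) n

private theorem fg_vp (a : 𝓞 K) (n : ℕ) : ((a ^ n : 𝓞 K) : K) = (a : K) ^ n :=
  map_pow (algebraMap (𝓞 K) K) a n

private theorem fg_inj {a b : 𝓞 K} (h : (a : K) = (b : K)) : a = b := RingOfIntegers.ext h

theorem tr_pt (h : FD p ℓ 𝔟 𝔪 β' β b' b v u N k' κ Nb) (x : Fin (m + 1) → 𝓞 K) (i) :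
    Algebra.trace K F (v i * pt u k' x) = (x i : K) / k' := by
  unfold pt
  rw [Finset.mul_sum, map_sum]
  have e : ∀ j, Algebra.trace K F (v i * (algebraMap K F ((x j : K) / k') * u j)) =
      if i = j then (x j : K) / k' else 0 := by
    intro j
    rw [fg_tr, h.dual, mul_ite, mul_one, mul_zero]
  rw [Finset.sum_congr rfl fun j _ => e j, Finset.sum_ite_eq, if_pos (Finset.mem_univ _)]

theorem GG_mem {A : ValuationSubring ℂ} {t : 𝓞 F} {g : 𝓞 F → ℂ} (hg : ∀ z, g z ∈ A) (D : ℕ)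
    (x : Fin (m + 1) → 𝓞 K) : GG 𝔟 𝔪 t β' g u D x ∈ A := by
  unfold GG
  split_ifs
  · exact A.zero_mem
  · unfold extW
    split_ifs
    · exact hg _
    · exact A.zero_mem

theorem GG_per (h : FD p ℓ 𝔟 𝔪 β' β b' b v u N k' κ Nb) {t : 𝓞 F} {g : 𝓞 F → ℂ} {k : ℕ}
    (hg : ∀ z w, w ∈ Ideal.span {algebraMap (𝓞 K) (𝓞 F) (cK p ^ k)} * (𝔪 * 𝔟) → g (z + w) = g z)
    (x y : Fin (m + 1) → 𝓞 K)
    (hxy : ∀ i, (k' : 𝓞 K) * (((N * k' * κ : ℕ) : 𝓞 K) * cK p ^ k) ∣ x i - y i) :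
    GG 𝔟 𝔪 t β' g u k' x = GG 𝔟 𝔪 t β' g u k' y := by
  have hℓ : ℓ.Prime := h.spl.prime
  have hne : N * k' * κ * Nb ≠ 0 := by
    intro h0
    have hcop := h.cop
    rw [h0, Nat.coprime_zero_left] at hcop
    exact hℓ.one_lt.ne' hcop
  have hNk : N * k' ≠ 0 := by
    intro h0
    exact hne (by rw [h0, zero_mul, zero_mul])
  have hk0 : (k' : K) ≠ 0 := by
    intro h0
    exact hNk (by rw [Nat.cast_eq_zero.1 h0, mul_zero])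
  have hp0 : cK p ≠ 0 := by
    intro h0
    have e := h.spl.mul
    rw [h0, mul_zero] at e
    exact hℓ.ne_zero (by exact_mod_cast e.symm)
  have hx0 : ((N * k' : ℕ) : 𝓞 K) * cK p ^ k ≠ 0 :=
    mul_ne_zero (by exact_mod_cast hNk) (pow_ne_zero k hp0)
  obtain ⟨w, hw, hμw⟩ := cram1 h (((N * k' : ℕ) : 𝓞 K) * cK p ^ k) hx0 (pt u k' x - pt u k' y) (by
    intro i
    obtain ⟨a, ha⟩ := hxy i
    refine ⟨a, ?_⟩
    have e1 := congrArg (fun z : 𝓞 K => (z : K)) ha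
    rw [mul_sub, map_sub, tr_pt h, tr_pt h, div_sub_div_same, div_eq_iff hk0]
    have e2 : ((x i - y i : 𝓞 K) : K) = (x i : K) - (y i : K) :=
      map_sub (algebraMap (𝓞 K) K) _ _
    rw [← e2]
    refine e1.trans ?_
    change (((k' : 𝓞 K) * (((N * k' * κ : ℕ) : 𝓞 K) * cK p ^ k) * a : 𝓞 K) : K) = _
    rw [fg_vm, fg_vm, fg_vm, fg_vm, fg_vn, fg_vn, fg_vn]
    push_cast
    ring)
  have hwm : ((N * k' : ℕ) : 𝓞 F) * w ∈ 𝔪 * 𝔟 := by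
    have e : ((N * k' : ℕ) : 𝓞 F) * w = (N : 𝓞 F) * ((k' : 𝓞 F) * w) := by
      push_cast
      ring
    rw [e]
    exact Ideal.mul_mem_mul h.nm (𝔟.mul_mem_left _ hw)
  have hc : algebraMap (𝓞 K) (𝓞 F) (((N * k' : ℕ) : 𝓞 K) * cK p ^ k) * w =
      algebraMap (𝓞 K) (𝓞 F) (cK p ^ k) * (((N * k' : ℕ) : 𝓞 F) * w) := by
    rw [map_mul, map_natCast]
    ring
  have hcm : algebraMap (𝓞 K) (𝓞 F) (((N * k' : ℕ) : 𝓞 K) * cK p ^ k) * w ∈ 𝔪 * 𝔟 := by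
    rw [hc]
    exact (𝔪 * 𝔟).mul_mem_left _ hwm
  have hpt : pt u k' x = pt u k' y +
      ((algebraMap (𝓞 K) (𝓞 F) (((N * k' : ℕ) : 𝓞 K) * cK p ^ k) * w : 𝓞 F) : F) := by
    rw [← hμw]
    ring
  obtain ⟨x', hx'⟩ := h.kb
  have h1 : pt u k' x ∈ mulI 𝔟 β' ↔ pt u k' y ∈ mulI 𝔟 β' := by
    rw [hpt]
    refine fr1_mulI (x := x' * (N : 𝓞 F) * algebraMap (𝓞 K) (𝓞 F) (cK p ^ k)) ?_ hw _
    rw [map_mul, map_natCast, Nat.cast_mul, hx']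
    ring
  have h2 : extW 𝔟 𝔪 t g (pt u k' x) = extW 𝔟 𝔪 t g (pt u k' y) := by
    by_cases hy : pt u k' y ∈ cls 𝔟 𝔪 t
    · obtain ⟨z, hz, hzt⟩ := hy
      have e : pt u k' x =
          ((z + algebraMap (𝓞 K) (𝓞 F) (((N * k' : ℕ) : 𝓞 K) * cK p ^ k) * w : 𝓞 F) : F) := by
        rw [hpt, ← hz]
        rfl
      rw [e, ← hz, extW_coe hzt, extW_coe]
      · refine hg _ _ ?_
        rw [hc]
        exact Ideal.mul_mem_mul (Ideal.mem_span_singleton_self _) hwm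
      · have e3 : z + algebraMap (𝓞 K) (𝓞 F) (((N * k' : ℕ) : 𝓞 K) * cK p ^ k) * w - t =
            (z - t) + algebraMap (𝓞 K) (𝓞 F) (((N * k' : ℕ) : 𝓞 K) * cK p ^ k) * w := by ring
        rw [e3]
        exact (𝔪 * 𝔟).add_mem hzt hcm
    · rw [extW_of_not hy, extW_of_not]
      intro h3
      apply hy
      rw [hpt, fr1_cls hcm] at h3
      exact h3
  unfold GG
  by_cases h3 : pt u k' y ∈ mulI 𝔟 β'
  · rw [if_pos h3, if_pos (h1.2 h3)]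
  · rw [if_neg h3, if_neg (fun h4 => h3 (h1.1 h4)), h2]

theorem GG_ne (h : FD p ℓ 𝔟 𝔪 β' β b' b v u N k' κ Nb) {t : 𝓞 F} (ht : t ∈ 𝔟) {g : 𝓞 F → ℂ} {k : ℕ}
    (x : Fin (m + 1) → 𝓞 K) (hx : GG 𝔟 𝔪 t β' g u k' x ≠ 0) (j) :
    ¬ (k' : 𝓞 K) * (((N * k' * κ : ℕ) : 𝓞 K) * cK p ^ k) ∣
      cK ((Nb : 𝓞 K) * p ^ k) * x j := by
  have hℓ : ℓ.Prime := h.spl.prime
  have hne : N * k' * κ * Nb ≠ 0 := by
    intro h0
    have hcop := h.cop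
    rw [h0, Nat.coprime_zero_left] at hcop
    exact hℓ.one_lt.ne' hcop
  have hk0 : (k' : K) ≠ 0 := by
    intro h0
    exact hne (by rw [Nat.cast_eq_zero.1 h0, mul_zero, zero_mul, zero_mul])
  have hp0 : cK p ≠ 0 := by
    intro h0
    have e := h.spl.mul
    rw [h0, mul_zero] at e
    exact hℓ.ne_zero (by exact_mod_cast e.symm)
  have h1 : pt u k' x ∉ mulI 𝔟 β' := by
    intro h1
    apply hx
    unfold GG
    rw [if_pos h1]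
  have h2 : pt u k' x ∈ cls 𝔟 𝔪 t := by
    by_contra h2
    apply hx
    unfold GG
    rw [if_neg h1, extW_of_not h2]
  obtain ⟨z, hz, hzt⟩ := h2
  have hzb : z ∈ 𝔟 := by
    have e1 : z - t ∈ 𝔟 := Ideal.mul_le_right hzt
    have e2 : z = (z - t) + t := by ring
    rw [e2]
    exact 𝔟.add_mem e1 ht
  rintro ⟨d, hd⟩
  apply h1
  rw [← hz]
  have hT : Algebra.trace K F (v j * (z : F)) = (x j : K) / k' := by
    rw [hz, tr_pt h]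
  -- the first relation
  have e1 : (Nb : K) * (x j : K) = (k' : K) * ((N * k' * κ : ℕ) : K) * (d : K) := by
    have e := congrArg (fun z : 𝓞 K => (z : K)) hd
    change ((cK ((Nb : 𝓞 K) * p ^ k) * x j : 𝓞 K) : K) =
      (((k' : 𝓞 K) * (((N * k' * κ : ℕ) : 𝓞 K) * cK p ^ k) * d : 𝓞 K) : K) at e
    have e' : cK ((Nb : 𝓞 K) * p ^ k) = (Nb : 𝓞 K) * cK p ^ k := by
      change Pool.Agent.Lib.MP_1a91b9_nuT.cj ((Nb : 𝓞 K) * p ^ k) =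
        (Nb : 𝓞 K) * (Pool.Agent.Lib.MP_1a91b9_nuT.cj p) ^ k
      rw [map_mul, map_natCast, map_pow]
    rw [e', fg_vm, fg_vm, fg_vm, fg_vm, fg_vm, fg_vn, fg_vn, fg_vn, fg_vp] at e
    have hp1 : ((cK p : 𝓞 K) : K) ^ k ≠ 0 :=
      pow_ne_zero k fun h0 => hp0 (RingOfIntegers.coe_eq_zero_iff.1 h0)
    refine mul_left_cancel₀ hp1 ?_
    linear_combination e
  -- the second relation
  obtain ⟨y, hy⟩ := nf_dvd β' b' h.nrm'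
  obtain ⟨e, he⟩ := (h.gen j).1 (y * z) (𝔟.mul_mem_left _ hzb)
  have e2 : (b' : K) * ((x j : K) / k') = (e : K) := by
    rw [← hT, ← he]
    have e3 : (β' : F) * v j * ((y * z : 𝓞 F) : F) = v j * (algebraMap K F (b' : K) * (z : F)) := by
      have e4 : algebraMap K F (b' : K) = ((algebraMap (𝓞 K) (𝓞 F) b' : 𝓞 F) : F) := rfl
      rw [e4, hy, fr1_vm, fr1_vm]
      ring
    rw [e3, fg_tr]
  obtain ⟨r, s, hrs⟩ := h.copb'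
  refine gen_ne 𝔟 h.bne β' h.ne' (v j) (h.gen j) z hzb
    (r * (((N * k' * κ : ℕ) : 𝓞 K) * d) + s * e) ?_
  rw [hT]
  have e5 := congrArg (fun z : 𝓞 K => (z : K)) hrs
  change ((r * (Nb : 𝓞 K) + s * b' : 𝓞 K) : K) = ((1 : 𝓞 K) : K) at e5
  rw [fg_va, fg_vm, fg_vm, fg_vn] at e5
  have e6 : ((1 : 𝓞 K) : K) = 1 := map_one (algebraMap (𝓞 K) K)
  rw [e6] at e5
  rw [fg_va, fg_vm, fg_vm, fg_vm, fg_vn]
  have e7 : (Nb : K) * ((x j : K) / k') = ((N * k' * κ : ℕ) : K) * (d : K) := by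
    rw [mul_div_assoc', e1]
    field_simp
  linear_combination (-((x j : K) / k')) * e5 + (r : K) * e7 + (s : K) * e2

theorem YY1 (h : FD p ℓ 𝔟 𝔪 β' β b' b v u N k' κ Nb) {k : ℕ} (y : F)
    (hy : ∀ z ∈ 𝔟, ∃ a : 𝓞 K, (Nb : K) * (p : K) ^ k * Algebra.trace K F (y * ((z : 𝓞 F) : F)) = a)
    (j) : ∃ a : 𝓞 K, ((((N * k' * κ : ℕ) : 𝓞 K) * cK p ^ k : 𝓞 K) : K) *
      (((Nb : 𝓞 K) * p ^ k : 𝓞 K) : K) * Algebra.trace K F (y * u j) = a := by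
  obtain ⟨α, hα, hαu, -⟩ := h.alph j
  obtain ⟨a, ha⟩ := hy α hα
  refine ⟨((N * k' : ℕ) : 𝓞 K) * cK p ^ k * a, ?_⟩
  have e : Algebra.trace K F (y * (α : F)) = (κ : K) * Algebra.trace K F (y * u j) := by
    rw [hαu, ← fg_tr, map_natCast]
  rw [e] at ha
  rw [fg_vm, fg_vm, fg_vm, fg_vm, fg_vn, fg_vn, fg_vn, fg_vp, fg_vp, ← ha]
  push_cast
  ring

theorem YY2 (h : FD p ℓ 𝔟 𝔪 β' β b' b v u N k' κ Nb) {k : ℕ} (y₁ v₀ : F) (a : 𝓞 K)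
    (hv₀ : Gen 𝔟 β v₀) (ha : ¬ b ∣ a)
    (hy : ∀ z ∈ 𝔟, ∃ c : 𝓞 K, (p : K) ^ k * Algebra.trace K F (y₁ * ((z : 𝓞 F) : F)) = c) (j) :
    ¬ ∃ c : 𝓞 K, ((((N * k' * κ : ℕ) : 𝓞 K) * cK p ^ k : 𝓞 K) : K) *
      Algebra.trace K F ((y₁ + algebraMap K F (a : K) * v₀) * u j) = c := by
  rintro ⟨c, hc⟩
  apply ha
  have hℓ : ℓ.Prime := h.spl.prime
  obtain ⟨α, hα, hαu, hα2⟩ := h.alph j
  obtain ⟨R, hR⟩ := h.sm
  obtain ⟨c₁, hc₁⟩ := hy α hα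
  obtain ⟨u₀, hu₀⟩ := tr_b hR hv₀ hα
  have hcop := cop_u hℓ.ne_one h.bne hR hv₀ hα hα2 u₀ hu₀
  have e : (κ : K) * Algebra.trace K F ((y₁ + algebraMap K F (a : K) * v₀) * u j) =
      Algebra.trace K F (y₁ * (α : F)) + (a : K) * Algebra.trace K F (v₀ * (α : F)) := by
    rw [hαu, ← fg_tr, ← fg_tr, ← map_add, map_natCast]
    congr 1
    ring
  have key : b * (c * p ^ k) = ((N * k' : ℕ) : 𝓞 K) * cK p ^ k * (b * c₁ + a * p ^ k * u₀) := by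
    apply fg_inj
    rw [fg_vm, fg_vm, fg_vm, fg_vm, fg_va, fg_vm, fg_vm, fg_vm, fg_vp, fg_vp, fg_vn, ← hc, ← hc₁,
      ← hu₀, fg_vm, fg_vp, fg_vn]
    push_cast
    linear_combination ((b : K) * (N : K) * (k' : K) * ((cK p : 𝓞 K) : K) ^ k * (p : K) ^ k) * e
  have h1 : b ∣ ((N * k' : ℕ) : 𝓞 K) * cK p ^ k * (a * p ^ k * u₀) :=
    ⟨c * p ^ k - ((N * k' : ℕ) : 𝓞 K) * cK p ^ k * c₁, by linear_combination -key⟩
  have hℓK : cK p ^ k * p ^ k = (ℓ : 𝓞 K) ^ k := by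
    rw [← mul_pow, mul_comm, h.spl.mul]
  have h2 : b ∣ (((N * k' : ℕ) : 𝓞 K) * (ℓ : 𝓞 K) ^ k * u₀) * a := by
    rw [← hℓK]
    refine h1.trans (dvd_of_eq ?_)
    ring
  have h3 : IsCoprime b (((N * k' : ℕ) : 𝓞 K) * (ℓ : 𝓞 K) ^ k * u₀) := by
    refine IsCoprime.mul_right (IsCoprime.mul_right ?_ (h.copp.pow_right)) hcop.symm
    refine h.copb.of_isCoprime_of_dvd_right ⟨(κ : 𝓞 K), ?_⟩
    push_cast
    ring
  exact h3.dvd_of_dvd_mul_left h2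

end

end Pool.Agent.Lib.MP_1a91b9_nuW.VA
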