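import Pool.Agent.Lib.MP_1a91b9_nuW.VA.FG

/-!
# G7, stream VA, file FI: the smoothed weight as a sum of characters

PROOFS.
* `ix_pt`: `zz_eq` (file FD) and `ixK D c x = (x.1 + x.2 om) / D` (nuT/S2/Defs.lean).
* `del_exp`: let `z = pt u k' X`. If `z ∉ cls 𝔟 𝔪 t` then `extW .. z = 0` (`extW_of_not`) on the left and in `GG`. If `z ∈ mulI 𝔟 β'` then
  `del = 0` and `GG = 0`. Otherwise `z = (w : F)`, `w - t ∈ 𝔪 𝔟`, `w ∈ 𝔟`; `extW .. wt z = wt w = ∑ eF (y i) w * g i w` (`extW_coe`),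
  `del .. z = 1 - ‖embK b‖² [w ∈ mulI 𝔟 β] = -∑_{j, ¬ b ∣ a j} exK (embK (a j * Tr (v₀ w)))` (`one_sub`), `GG .. (g i) .. X = g i w`,
  and `eF (y i) w * exK (embK (a j * Tr (v₀ w))) = exK (embK (Tr ((y i + a j v₀) w)))`
  `= ∏_l exK (embK (Tr ((y i + a j v₀) u l) * (X l / k')))` because `w = ∑_l (X l / k') u l` (`exK_sum`, linearity of trace and `embK`).
-/

set_option autoImplicit false

namespace Pool.Agent.Lib.MP_1a91b9_nuW.VA

variable [Pool.Agent.Lib.MP_1a91b9_nuT.CD]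

open Pool.Agent.Lib.MP_1a91b9_nuT hiding cj
open Pool.Agent.Lib.MP_1a91b9_nuT.Ell
open NumberField Module

universe u

variable {F : Type u} [Field F] [NumberField F] [Algebra K F]

section
variable {p : 𝓞 K} {ℓ : ℕ} {𝔟 𝔪 : Ideal (𝓞 F)} {β' β : 𝓞 F} {b' b : 𝓞 K} {m : ℕ}
  {v u : Fin (m + 1) → F} {N k' κ Nb : ℕ}

theorem ix_pt (h : FD p ℓ 𝔟 𝔪 β' β b' b v u N k' κ Nb) (zz : (Fin (m + 1) → K) → F)
    (hz : ∀ a i, Algebra.trace K F (v i * zz a) = a i) (c : ℕ)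
    (x : Fin (m + 1) → Fin (c * k') × Fin (c * k')) :
    zz (fun i => ixK k' c (x i)) =
      pt u k' (fun i => (((x i).1 : ℕ) : 𝓞 K) + (((x i).2 : ℕ) : 𝓞 K) * ta) := by
  rw [zz_eq h zz hz]
  unfold pt
  refine Finset.sum_congr rfl fun j _ => ?_
  congr 2

private theorem fi_tr (X : Fin (m + 1) → 𝓞 K) (D : ℕ) (y : F) :
    Algebra.trace K F (y * pt u D X) =
      ∑ l, Algebra.trace K F (y * u l) * ((X l : K) / D) := by
  unfold pt
  rw [Finset.mul_sum, map_sum]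
  refine Finset.sum_congr rfl fun l _ => ?_
  have e : y * (algebraMap K F ((X l : K) / D) * u l) = ((X l : K) / D) • (y * u l) := by
    rw [Algebra.smul_def]
    ring
  rw [e, map_smul, smul_eq_mul, mul_comm]

private theorem fi_exp (X : Fin (m + 1) → 𝓞 K) (D : ℕ) (y v₀ : F) (a : K) {w : F}
    (hw : w = pt u D X) :
    eF y w * exK (embK (a * Algebra.trace K F (v₀ * w))) =
      ∏ l, exK (embK (Algebra.trace K F ((y + algebraMap K F a * v₀) * u l) *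
        ((X l : K) / D))) := by
  rw [← exK_sum, ← map_sum, ← fi_tr, ← hw]
  unfold eF
  rw [← exK_add, ← map_add]
  congr 2
  have e : (y + algebraMap K F a * v₀) * w = y * w + a • (v₀ * w) := by
    rw [Algebra.smul_def]
    ring
  rw [e, map_add, map_smul, smul_eq_mul]

open Classical in
theorem del_exp (h : FD p ℓ 𝔟 𝔪 β' β b' b v u N k' κ Nb) {t : 𝓞 F} (ht : t ∈ 𝔟)
    {wt : 𝓞 F → ℂ} {ι : Type*} [Fintype ι] (y : ι → F) (g : ι → 𝓞 F → ℂ)
    (hexp : ∀ z, z - t ∈ 𝔪 * 𝔟 → wt z = ∑ i, eF (y i) (z : F) * g i z)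
    {ι' : Type*} [Fintype ι'] (a : ι' → 𝓞 K) (ha : IsCRS b a) (v₀ : F) (hv₀ : Gen 𝔟 β v₀)
    (X : Fin (m + 1) → 𝓞 K) :
    extW 𝔟 𝔪 t wt (pt u k' X) * del 𝔟 𝔪 t β' β b (pt u k' X) =
      -∑ i, ∑ j ∈ Finset.univ.filter (fun j => ¬ b ∣ a j), GG 𝔟 𝔪 t β' (g i) u k' X *
        ∏ l, exK (embK (Algebra.trace K F ((y i + algebraMap K F (a j : K) * v₀) * u l) *
          ((X l : K) / k'))) := by
  by_cases hc : pt u k' X ∈ cls 𝔟 𝔪 t
  swap
  · have h0 : ∀ i, GG 𝔟 𝔪 t β' (g i) u k' X = 0 := by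
      intro i
      unfold GG
      split_ifs
      · rfl
      · exact extW_of_not hc
    rw [extW_of_not hc, zero_mul]
    simp only [h0, zero_mul, Finset.sum_const_zero, neg_zero]
  by_cases hm : pt u k' X ∈ mulI 𝔟 β'
  · have h0 : ∀ i, GG 𝔟 𝔪 t β' (g i) u k' X = 0 := by
      intro i
      unfold GG
      rw [if_pos hm]
    have h1 : del 𝔟 𝔪 t β' β b (pt u k' X) = 0 := by
      unfold del
      rw [if_neg (fun hh => hh.2 hm)]
    rw [h1, mul_zero]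
    simp only [h0, zero_mul, Finset.sum_const_zero, neg_zero]
  obtain ⟨w, hw, hwt⟩ := hc
  have hwb : w ∈ 𝔟 := by
    have h4 : w = (w - t) + t := by ring
    rw [h4]
    exact Ideal.add_mem _ (Ideal.mul_le_right hwt) ht
  obtain ⟨R, hsm⟩ := h.sm
  have hG : ∀ i, GG 𝔟 𝔪 t β' (g i) u k' X = g i w := by
    intro i
    unfold GG
    rw [if_neg hm, ← hw, extW_coe hwt]
  have hd : del 𝔟 𝔪 t β' β b (pt u k' X) = -∑ j ∈ Finset.univ.filter (fun j => ¬ b ∣ a j),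
      exK (embK ((a j : K) * Algebra.trace K F (v₀ * (w : F)))) := by
    rw [← one_sub h.spl.prime.one_lt.ne' h.bne hsm hv₀ ha hwb]
    unfold del
    rw [if_pos ⟨⟨w, hw, hwt⟩, hm⟩, hw]
  rw [hd, ← hw, extW_coe hwt, hexp w hwt, mul_neg, Finset.sum_mul]
  congr 1
  refine Finset.sum_congr rfl fun i _ => ?_
  rw [Finset.mul_sum]
  refine Finset.sum_congr rfl fun j _ => ?_
  rw [hG, ← fi_exp X k' (y i) v₀ (a j : K) hw]
  ring

end

end Pool.Agent.Lib.MP_1a91b9_nuW.VA
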