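import Pool.Agent.Lib.MP_1a91b9_nuW.VA.FrS
import Pool.Agent.Lib.MP_1a91b9_nuW.VA.FDe
import Pool.Agent.Lib.MP_1a91b9_nuW.VA.Det

/-!
# G7, stream VA, file FrM: the values of the unimodular frames

`V = A.valuation`.
PROOFS.
* `BdM`: the valuation property: `V (x + y) ≤ max (V x) (V y)` after dividing by `Om ^ n`; `V (x / Om ^ n) ^ 2 * V d ≤ 1` is preserved
  (`max`: `le_total`), `V (-x) = V x`, `V 0 = 0`.
* `BdM_mul`: `V a ≤ 1`.
* `frOK_main`: for every `w : Fin (m + 1) → F` with vectors in `S` which is linearly independent and unimodular, `fd_exists` (with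
  `N = Ideal.absNorm 𝔪`, prime to `ℓ` by `absNorm_cop`, `Ideal.absNorm_mem`) gives `u, k', κ, R₁(w)`. The set of these `w` is finite:
  `R₁` = the product of the `R₁(w)` over `w ∈ Fintype.piFinset (fun _ => S)` (`1` if `w` is not linearly independent or unimodular; use
  `choose` with a hypothesis or `Classical` if-then-else), prime to `ℓ` (`Nat.Coprime.prod_left`). For `R₁ ∣ R` and `SmE ℓ R k ε β b`, and `w`:
  `FD p ℓ 𝔟 𝔪 β' β b' b w u N k' κ Nb`. `FrVal` with `D = k'`, `c = N k' κ Nb ℓ^k` (positive: `cop_ne`), first condition `supp1`, second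
  condition `per1` (with `wtA_of_good`), `zz` from `co3_zz`: `y = det * ∑ ...`, and the sum is the sum of `fr_sum` (the terms are
  `H z * del z * ∏`). So `V (y / Om ^ (m+1)) = V det * V (sum / Om ^ (m+1)) ≤ V det` and `V det ^ 2 * V d ≤ 1` (`det_le`).
-/

set_option autoImplicit false

namespace Pool.Agent.Lib.MP_1a91b9_nuW.VA

variable [Pool.Agent.Lib.MP_1a91b9_nuT.CD]

open Pool.Agent.Lib.MP_1a91b9_nuT hiding cj
open Pool.Agent.Lib.MP_1a91b9_nuT.Ell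
open NumberField Module

universe u

/-- The complex numbers `x` with `V (x / Om ^ n) ^ 2 * V d ≤ 1`. -/
noncomputable def BdM (A : ValuationSubring ℂ) (n : ℕ) (d : 𝓞 K) : AddSubgroup ℂ where
  carrier := {x | A.valuation (x / Om ^ n) ^ 2 * A.valuation (embK (d : K)) ≤ 1}
  zero_mem' := by
    change A.valuation (0 / Om ^ n) ^ 2 * A.valuation (embK (d : K)) ≤ 1
    rw [zero_div, map_zero, zero_pow two_ne_zero, zero_mul]
    exact zero_le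
  add_mem' := by
    intro x y hx hy
    change A.valuation ((x + y) / Om ^ n) ^ 2 * A.valuation (embK (d : K)) ≤ 1
    change A.valuation (x / Om ^ n) ^ 2 * A.valuation (embK (d : K)) ≤ 1 at hx
    change A.valuation (y / Om ^ n) ^ 2 * A.valuation (embK (d : K)) ≤ 1 at hy
    rw [add_div]
    have h1 := A.valuation.map_add (x / Om ^ n) (y / Om ^ n)
    rcases le_total (A.valuation (x / Om ^ n)) (A.valuation (y / Om ^ n)) with h2 | h2
    · rw [max_eq_right h2] at h1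
      exact (mul_le_mul_left (pow_le_pow_left' h1 2) _).trans hy
    · rw [max_eq_left h2] at h1
      exact (mul_le_mul_left (pow_le_pow_left' h1 2) _).trans hx
  neg_mem' := by
    intro x hx
    change A.valuation (-x / Om ^ n) ^ 2 * A.valuation (embK (d : K)) ≤ 1
    rw [neg_div, Valuation.map_neg]
    exact hx

theorem BdM_mem {A : ValuationSubring ℂ} {n : ℕ} {d : 𝓞 K} {x : ℂ} :
    x ∈ BdM A n d ↔ A.valuation (x / Om ^ n) ^ 2 * A.valuation (embK (d : K)) ≤ 1 := Iff.rfl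

theorem BdM_mul {A : ValuationSubring ℂ} {n : ℕ} {d : 𝓞 K} (a : ℂ) (ha : a ∈ A) (x : ℂ)
    (hx : x ∈ BdM A n d) : a * x ∈ BdM A n d := by
  rw [BdM_mem] at hx ⊢
  have h1 : A.valuation a ≤ 1 := (A.valuation_le_one_iff a).2 ha
  rw [mul_div_assoc, map_mul]
  have h2 : A.valuation a * A.valuation (x / Om ^ n) ≤ A.valuation (x / Om ^ n) := by
    calc A.valuation a * A.valuation (x / Om ^ n) ≤ 1 * A.valuation (x / Om ^ n) :=
          mul_le_mul_left h1 _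
      _ = A.valuation (x / Om ^ n) := one_mul _
  exact (mul_le_mul_left (pow_le_pow_left' h2 2) _).trans hx

variable {F : Type u} [Field F] [NumberField F] [Algebra K F]

theorem frOK_main {p : 𝓞 K} {ℓ : ℕ} (hp : Spl p ℓ) {A : ValuationSubring ℂ} (hA : PlP p A) {m : ℕ}
    (σ : Fin (m + 1) → (F →ₐ[K] ℂ)) (hσ : Function.Bijective σ) (𝔟 𝔪 : Ideal (𝓞 F)) (hb : 𝔟 ≠ ⊥)
    (hbq : IsCoprime 𝔟 (Ideal.span {(ℓ : 𝓞 F)})) (hm : 𝔪 ≠ ⊥)
    (hmq : IsCoprime 𝔪 (Ideal.span {(ℓ : 𝓞 F)})) (t : 𝓞 F) (ht : t ∈ 𝔟) {k : ℕ} {ε : 𝓞 K}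
    {wt : 𝓞 F → ℂ} (hh : GoodW p k ε 𝔪 𝔟 t A wt) (bb : Basis (Fin (m + 1)) K F)
    (hbb : ∀ v : F, v ∈ DL 𝔟 ↔ ∀ i, ∃ a : 𝓞 K, bb.repr v i = a)
    (hbb' : ∀ z : F, (∀ i, ∃ a : 𝓞 K, Algebra.trace K F (bb i * z) = a) ↔ ∃ w ∈ 𝔟, (w : F) = z)
    (d : 𝓞 K) (hd : Ideal.relNorm (𝓞 K) (differentIdeal (𝓞 K) (𝓞 F)) = Ideal.span {d})
    (R' : ℕ) (β' : 𝓞 F) (b' : 𝓞 K) (hβ' : SmE ℓ R' k ε β' b') (S : Finset F)
    (hS : ∀ w ∈ S, Gen 𝔟 β' w) :
    FrOK ℓ k ε 𝔟 𝔪 t β' (extW 𝔟 𝔪 t wt) σ bb S (BdM A (m + 1) d) := by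
  classical
  have hq : ℓ.Prime := hp.prime
  have hn : finrank K F = m + 1 := nf_card σ hσ
  obtain ⟨N, hN, hNm⟩ : ∃ N : ℕ, N.Coprime ℓ ∧ (N : 𝓞 F) ∈ 𝔪 :=
    ⟨Ideal.absNorm 𝔪, absNorm_cop hq 𝔪 hmq, Ideal.absNorm_mem 𝔪⟩
  have key : ∀ w : Fin (m + 1) → F, ∃ R₁ : ℕ, R₁.Coprime ℓ ∧
      ((∀ i, w i ∈ S) → LinearIndependent K w → Unimod ℓ bb w →
        ∃ (u : Fin (m + 1) → F) (k' κ : ℕ), ∀ (R : ℕ) (β : 𝓞 F) (b : 𝓞 K), R₁ ∣ R →
          Ell.Smooth ℓ R β b → ∃ Nb : ℕ, FD p ℓ 𝔟 𝔪 β' β b' b w u N k' κ Nb) := by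
    intro w
    by_cases hw : (∀ i, w i ∈ S) ∧ LinearIndependent K w ∧ Unimod ℓ bb w
    · obtain ⟨u, k', κ, R₁, h1, -, h2⟩ := fd_exists hp hn 𝔟 𝔪 hb hN hNm hβ'.1 bb hbb hbb' w
        (fun i => hS _ (hw.1 i)) hw.2.1 hw.2.2
      exact ⟨R₁, h1, fun _ _ _ => ⟨u, k', κ, h2⟩⟩
    · refine ⟨1, Nat.coprime_one_left _, fun h1 h2 h3 => absurd ⟨h1, h2, h3⟩ hw⟩
  choose RR hRR1 hRR2 using key
  refine ⟨∏ w ∈ Fintype.piFinset (fun _ : Fin (m + 1) => S), RR w,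
    Nat.Coprime.prod_left (fun w _ => hRR1 w), ?_⟩
  intro R β b hR hβ w hw hli hu y hy
  have hwS : w ∈ Fintype.piFinset (fun _ : Fin (m + 1) => S) := Fintype.mem_piFinset.2 hw
  obtain ⟨u, k', κ, hFD⟩ := hRR2 w hw hli hu
  obtain ⟨Nb, h⟩ := hFD R β b ((Finset.dvd_prod_of_mem RR hwS).trans hR) hβ.1
  obtain ⟨zz, hzz⟩ := co3_zz hn w hli
  have hc1 : N * k' * κ * Nb ≠ 0 := cop_ne hq h.cop
  have hk0 : k' ≠ 0 := by
    rintro rfl
    apply hc1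
    simp
  have hc0 : N * k' * κ * Nb * ℓ ^ k ≠ 0 := mul_ne_zero hc1 (pow_ne_zero _ hq.ne_zero)
  obtain ⟨c, hc⟩ : ∃ c : ℕ, c = N * k' * κ * Nb * ℓ ^ k := ⟨_, rfl⟩
  have hcpos : 0 < c := by
    rw [hc]
    exact Nat.pos_of_ne_zero hc0
  have e := hy k' c (Nat.pos_of_ne_zero hk0) hcpos
    (fun i z hz => supp1 h ht _ i z hz)
    (fun μ hμ z => per1 h ht (wtA_of_good hp ht hm hb hh) μ (by rw [← hc]; exact hμ) z) zz hzz
  have h1 := fr_sum h ht hA hh zz hzz c hc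
  have h2 := det_le hq A (plP_pl hp hA) 𝔟 hbq β' b' hβ'.1 σ hσ w (fun i => hS _ (hw i)) d hd
  rw [BdM_mem, e, mul_div_assoc, map_mul]
  have h3 := (A.valuation_le_one_iff _).2 h1
  have h4 : A.valuation (Matrix.of fun i j => σ j (w i)).det * A.valuation
      ((∑ x : Fin (m + 1) → Fin (c * k') × Fin (c * k'),
        extW 𝔟 𝔪 t wt (zz fun i => ixK k' c (x i)) *
          del 𝔟 𝔪 t β' β b (zz fun i => ixK k' c (x i)) *
            ∏ i, (c : ℂ)⁻¹ * E1 (ixC k' c (x i) / c)) / Om ^ (m + 1)) ≤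
      A.valuation (Matrix.of fun i j => σ j (w i)).det := by
    calc _ ≤ A.valuation (Matrix.of fun i j => σ j (w i)).det * 1 := mul_le_mul_right h3 _
      _ = _ := mul_one _
  exact (mul_le_mul_left (pow_le_pow_left' h4 2) _).trans h2

end Pool.Agent.Lib.MP_1a91b9_nuW.VA
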