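import Pool.Agent.Lib.MP_1a91b9_nuW.VA.FI
import Pool.Agent.Lib.MP_1a91b9_nuW.VA.Core

/-!
# G7, stream VA, file FrS: the sum attached to a unimodular frame is integral

PROOFS.
* `plP_pl`: `ℓ = p * cK p`; if `(ℓ : ℂ)⁻¹ ∈ A` then `(embK p)⁻¹ = embK (cK p) * (ℓ)⁻¹ ∈ A` (`kq_intA`).
* `val_cK`: `V (embK p) < 1` (`embK p ∈ A` and `PlP`), Bezout `x p + y cK p = 1` (`Spl.cop`), so `V (embK (cK p)) = 1`.
* `fr_sum`: `V = A.valuation`, `c = N k' κ Nb ℓ^k`, `c₁ = (N k' κ) (cK p)^k`, `c₂ = Nb p^k`, so `c₁ c₂ = c`; `V (embK c₁) = 1`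
  (`v_cop` of nuT/D3/Tors.lean for `N k' κ` with `plP_pl`, `val_cK`), `cK c₂ = Nb (cK p)^k`, `V (embK (cK c₂)) = 1`; `V (k') = 1`.
  `0 < k'`, `0 < c` because they are prime to `ℓ` up to a power of `ℓ` (`h.cop`, `cop_ne`).
  Let `v₀` be a generator for `β` (`gen_exists` with `h.sm`), `a` a complete residue system modulo `b` (`crs_exists`, `b ≠ 0` by `kq_ne`),
  `y, g` from `GoodW.exp`. By `ix_pt` and `del_exp` the sum is `-∑_i ∑_j S_ij`,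
  `S_ij = ∑_x GG (g i) (X x) * ∏_l (exK (embK (Y l * ixK k' c (x l))) * (c⁻¹ * E1 (ixC k' c (x l) / c)))`, with
  `Y l = Tr ((y i + a j v₀) u l)`, `X x l = x.1 + x.2 ta`, `(X x l : K) / k' = ixK k' c (x l)` (exchange of finite sums,
  `Finset.prod_mul_distrib`). Each `S_ij / Om ^ (m + 1)` is in `A` by `core_sum` with `G = GG .. (g i) ..`: `hGA = GG_mem`, `hGp = GG_per`,
  `hY1 = YY1` (for `z ∈ 𝔟`: `Nb p^k Tr (y i z) ∈ 𝓞 K` by `GoodW.exp`; `Nb a Tr (v₀ z) = cK b a (b Tr (v₀ z)) ∈ 𝓞 K` by `tr_b` and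
  `h.nb`), `hY2 = YY2`, `hne = GG_ne`.
-/

set_option autoImplicit false

namespace Pool.Agent.Lib.MP_1a91b9_nuW.VA

variable [Pool.Agent.Lib.MP_1a91b9_nuT.CD]

open Pool.Agent.Lib.MP_1a91b9_nuT hiding cj
open Pool.Agent.Lib.MP_1a91b9_nuT.Ell
open NumberField Module

universe u

theorem plP_pl {p : 𝓞 K} {ℓ : ℕ} (hp : Spl p ℓ) {A : ValuationSubring ℂ} (hA : PlP p A) : Pl ℓ A := by
  intro h
  have h1 : embK (p : K) * embK ((cK p : 𝓞 K) : K) = (ℓ : ℂ) := by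
    have h2 := kf_castN ℓ
    rw [← hp.mul, RingOfIntegers.coe_eq_algebraMap, map_mul, map_mul] at h2
    exact h2
  have h0 : (ℓ : ℂ) ≠ 0 := by exact_mod_cast hp.prime.ne_zero
  have h2 : embK ((cK p : 𝓞 K) : K) ≠ 0 := by
    intro h3
    rw [h3, mul_zero] at h1
    exact h0 h1.symm
  have h3 : (embK (p : K))⁻¹ = embK ((cK p : 𝓞 K) : K) * (ℓ : ℂ)⁻¹ := by
    rw [← h1, mul_inv, mul_comm (embK (p : K))⁻¹, ← mul_assoc, mul_inv_cancel₀ h2, one_mul]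
  exact hA (by
    rw [h3]
    exact mul_mem (kq_intA A _) h)

theorem val_cK {p : 𝓞 K} {ℓ : ℕ} (hp : Spl p ℓ) {A : ValuationSubring ℂ} (hA : PlP p A) :
    A.valuation (embK ((cK p : 𝓞 K) : K)) = 1 := by
  have hle : ∀ x : 𝓞 K, A.valuation (embK (x : K)) ≤ 1 := fun x =>
    (A.valuation_le_one_iff _).mpr (kq_intA A x)
  have hlt : A.valuation (embK (p : K)) < 1 := by
    refine lt_of_le_of_ne (hle p) fun h => hA ?_
    rw [← A.valuation_le_one_iff, map_inv₀, h, inv_one]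
  obtain ⟨x, y, hxy⟩ := hp.cop
  refine le_antisymm (hle _) ?_
  by_contra hcon
  push Not at hcon
  have h1 : embK (x : K) * embK (p : K) + embK (y : K) * embK ((cK p : 𝓞 K) : K) = 1 := by
    have h2 := congrArg (fun z : 𝓞 K => embK (z : K)) hxy
    simp only [map_add, map_mul, map_one] at h2
    exact h2
  have h2 : A.valuation (1 : ℂ) < 1 := by
    rw [← h1]
    refine lt_of_le_of_lt (A.valuation.map_add _ _) (max_lt ?_ ?_)
    · rw [map_mul]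
      exact lt_of_le_of_lt (mul_le_of_le_one_left' (hle x)) hlt
    · rw [map_mul]
      exact lt_of_le_of_lt (mul_le_of_le_one_left' (hle y)) hcon
  rw [map_one] at h2
  exact lt_irrefl _ h2

variable {F : Type u} [Field F] [NumberField F] [Algebra K F]

section
variable {p : 𝓞 K} {ℓ : ℕ} {𝔟 𝔪 : Ideal (𝓞 F)} {β' β : 𝓞 F} {b' b : 𝓞 K} {m : ℕ}
  {v u : Fin (m + 1) → F} {N k' κ Nb : ℕ}

private theorem frs_ix (D c : ℕ) (x : Fin (c * D) × Fin (c * D)) :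
    (((((x.1 : ℕ) : 𝓞 K) + ((x.2 : ℕ) : 𝓞 K) * ta : 𝓞 K) : K)) / D = ixK D c x := by
  unfold ixK
  congr 1

theorem fr_sum (h : FD p ℓ 𝔟 𝔪 β' β b' b v u N k' κ Nb) {t : 𝓞 F} (ht : t ∈ 𝔟) {k : ℕ} {ε : 𝓞 K}
    {A : ValuationSubring ℂ} (hA : PlP p A) {wt : 𝓞 F → ℂ} (hh : GoodW p k ε 𝔪 𝔟 t A wt)
    (zz : (Fin (m + 1) → K) → F) (hz : ∀ a i, Algebra.trace K F (v i * zz a) = a i) (c : ℕ)
    (hc : c = N * k' * κ * Nb * ℓ ^ k) :
    (∑ x : Fin (m + 1) → Fin (c * k') × Fin (c * k'),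
      extW 𝔟 𝔪 t wt (zz fun i => ixK k' c (x i)) *
        del 𝔟 𝔪 t β' β b (zz fun i => ixK k' c (x i)) *
          ∏ i, (c : ℂ)⁻¹ * E1 (ixC k' c (x i) / c)) / Om ^ (m + 1) ∈ A := by
  classical
  have hℓ1 : ℓ ≠ 1 := h.spl.prime.one_lt.ne'
  have hPl : Pl ℓ A := plP_pl h.spl hA
  have hvc : A.valuation (embK ((cK p : 𝓞 K) : K)) = 1 := val_cK h.spl hA
  obtain ⟨R, hsm⟩ := h.sm
  have hb0 : b ≠ 0 := kq_ne hℓ1 hsm.c0
  obtain ⟨v₀, hv₀⟩ := gen_exists hℓ1 𝔟 h.bne hsm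
  obtain ⟨ι', hι', a, ha⟩ := crs_exists b hb0
  obtain ⟨ι, hι, y, g, hy, hgA, hgp, hexp⟩ := hh.exp
  -- the constants
  have hcopk' : (k' : ℕ).Coprime ℓ := by
    refine Nat.Coprime.coprime_dvd_left ?_ h.cop
    exact ⟨N * κ * Nb, by ring⟩
  have hcop1 : (N * k' * κ : ℕ).Coprime ℓ :=
    Nat.Coprime.coprime_dvd_left ⟨Nb, rfl⟩ h.cop
  have hcopNb : (Nb : ℕ).Coprime ℓ := Nat.Coprime.coprime_dvd_left ⟨N * k' * κ, by ring⟩ h.cop
  have hk'0 : 0 < k' := Nat.pos_of_ne_zero (cop_ne h.spl.prime hcopk')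
  have hc0 : 0 < c := by
    rw [hc]
    exact Nat.mul_pos (Nat.pos_of_ne_zero (cop_ne h.spl.prime h.cop))
      (pow_pos h.spl.prime.pos k)
  obtain ⟨c₁, hc₁⟩ : ∃ c₁ : 𝓞 K, c₁ = ((N * k' * κ : ℕ) : 𝓞 K) * cK p ^ k := ⟨_, rfl⟩
  obtain ⟨c₂, hc₂⟩ : ∃ c₂ : 𝓞 K, c₂ = (Nb : 𝓞 K) * p ^ k := ⟨_, rfl⟩
  have hcc : c₁ * c₂ = (c : 𝓞 K) := by
    rw [hc₁, hc₂, hc]
    push_cast
    rw [← h.spl.mul]
    ring
  have hembN : ∀ n : ℕ, n.Coprime ℓ → A.valuation (embK (((n : ℕ) : 𝓞 K) : K)) = 1 := by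
    intro n hn
    rw [kf_castN]
    exact v_cop hPl hn
  have hv1 : A.valuation (embK (c₁ : K)) = 1 := by
    have e : embK (c₁ : K) = embK (((N * k' * κ : ℕ) : 𝓞 K) : K) *
        embK ((cK p : 𝓞 K) : K) ^ k := by
      rw [hc₁]
      simp only [RingOfIntegers.coe_eq_algebraMap, map_mul, map_pow]
    rw [e, map_mul, map_pow, hembN _ hcop1, hvc, one_pow, one_mul]
  have hcKc₂ : cK c₂ = (Nb : 𝓞 K) * cK p ^ k := by
    rw [hc₂]
    show Pool.Agent.Lib.MP_1a91b9_nuT.cj ((Nb : 𝓞 K) * p ^ k) = _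
    rw [map_mul, map_natCast, map_pow]
  have hv2 : A.valuation (embK ((cK c₂ : 𝓞 K) : K)) = 1 := by
    have e : embK ((cK c₂ : 𝓞 K) : K) = embK (((Nb : ℕ) : 𝓞 K) : K) *
        embK ((cK p : 𝓞 K) : K) ^ k := by
      rw [hcKc₂]
      simp only [RingOfIntegers.coe_eq_algebraMap, map_mul, map_pow]
    rw [e, map_mul, map_pow, hembN _ hcopNb, hvc, one_pow, one_mul]
  have hvk' : A.valuation (k' : ℂ) = 1 := v_cop hPl hcopk'
  -- the pieces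
  obtain ⟨X, hX⟩ : ∃ X : (Fin (m + 1) → Fin (c * k') × Fin (c * k')) → Fin (m + 1) → 𝓞 K,
      X = fun x i => (((x i).1 : ℕ) : 𝓞 K) + (((x i).2 : ℕ) : 𝓞 K) * ta := ⟨_, rfl⟩
  obtain ⟨Y, hY⟩ : ∃ Y : ι → ι' → Fin (m + 1) → K, Y = fun i j l =>
      Algebra.trace K F ((y i + algebraMap K F (a j : K) * v₀) * u l) := ⟨_, rfl⟩
  have hXi : ∀ x l, ((X x l : 𝓞 K) : K) / k' = ixK k' c (x l) := fun x l => by
    rw [hX]
    exact frs_ix k' c (x l)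
  have hterm : ∀ x : Fin (m + 1) → Fin (c * k') × Fin (c * k'),
      extW 𝔟 𝔪 t wt (zz fun i => ixK k' c (x i)) *
        del 𝔟 𝔪 t β' β b (zz fun i => ixK k' c (x i)) *
          ∏ i, (c : ℂ)⁻¹ * E1 (ixC k' c (x i) / c) =
      -∑ i, ∑ j ∈ Finset.univ.filter (fun j => ¬ b ∣ a j),
        (GG 𝔟 𝔪 t β' (g i) u k' (X x) * ∏ l, (exK (embK (Y i j l * ixK k' c (x l))) *
          ((c : ℂ)⁻¹ * E1 (ixC k' c (x l) / c)))) := by
    intro x
    have e1 : zz (fun i => ixK k' c (x i)) = pt u k' (X x) := by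
      rw [hX]
      exact ix_pt h zz hz c x
    rw [e1, del_exp h ht y g hexp a ha v₀ hv₀ (X x), neg_mul, Finset.sum_mul]
    congr 1
    refine Finset.sum_congr rfl fun i _ => ?_
    rw [Finset.sum_mul]
    refine Finset.sum_congr rfl fun j _ => ?_
    rw [mul_assoc, ← Finset.prod_mul_distrib]
    congr 1
    refine Finset.prod_congr rfl fun l _ => ?_
    rw [hXi, hY]
  rw [Finset.sum_congr rfl fun x _ => hterm x, Finset.sum_neg_distrib, Finset.sum_comm, neg_div,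
    Finset.sum_div]
  refine neg_mem (sum_mem fun i _ => ?_)
  rw [Finset.sum_comm, Finset.sum_div]
  refine sum_mem fun j hj => ?_
  have hj' : ¬ b ∣ a j := (Finset.mem_filter.mp hj).2
  have hcore := core_sum (A := A) k' c hk'0 hc0 hvk' c₁ c₂ hcc hv1 hv2
    (fun x => GG 𝔟 𝔪 t β' (g i) u k' x) (fun x => GG_mem (hgA i) k' x)
    (fun x y' hxy => GG_per h (fun z w hw => hgp i z w hw) x y' (by
      rw [hc₁] at hxy
      exact hxy)) (Y i j) ?_ ?_ ?_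
  · rw [hX]
    exact hcore
  · intro l
    rw [hc₁, hc₂, hY]
    refine YY1 h _ ?_ l
    intro z hzb
    obtain ⟨e1, he1⟩ := hy i z hzb
    obtain ⟨e2, he2⟩ := tr_b hsm hv₀ hzb
    refine ⟨(Nb : 𝓞 K) * e1 + cK b * p ^ k * a j * e2, ?_⟩
    have hNb : (Nb : K) = (b : K) * ((cK b : 𝓞 K) : K) := by
      have h2 := congrArg (fun z : 𝓞 K => (z : K)) h.nb
      simp only [map_mul, map_natCast] at h2
      exact h2.symm
    have h3 : Algebra.trace K F ((y i + algebraMap K F (a j : K) * v₀) * ((z : 𝓞 F) : F)) =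
        Algebra.trace K F (y i * (z : F)) + (a j : K) * Algebra.trace K F (v₀ * (z : F)) := by
      have h4 : (y i + algebraMap K F (a j : K) * v₀) * ((z : 𝓞 F) : F) =
          y i * (z : F) + (a j : K) • (v₀ * (z : F)) := by
        rw [Algebra.smul_def]
        ring
      rw [h4, map_add, map_smul, smul_eq_mul]
    have h5 : (((Nb : 𝓞 K) * e1 + cK b * p ^ k * a j * e2 : 𝓞 K) : K) =
        (Nb : K) * (e1 : K) + ((cK b : 𝓞 K) : K) * (p : K) ^ k * (a j : K) * (e2 : K) := by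
      simp only [RingOfIntegers.coe_eq_algebraMap, map_add, map_mul, map_pow, map_natCast]
    rw [h3, h5, ← he1, ← he2]
    linear_combination ((p : K) ^ k * (a j : K) * Algebra.trace K F (v₀ * (z : F))) * hNb
  · intro l
    rw [hc₁, hY]
    exact YY2 h (y i) v₀ (a j) hv₀ hj' (fun z hzb => hy i z hzb) l
  · intro x hx l
    rw [hc₁, hc₂]
    exact GG_ne h ht x hx l

end

end Pool.Agent.Lib.MP_1a91b9_nuW.VA
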