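import Pool.Agent.Lib.MP_1a91b9_nuW.VA.FrM
import Pool.Agent.Lib.MP_1a91b9_nuW.VA.Co3

/-!
# G7, stream VA, file Main: the values of the series with good weights

PROOF of `valW_main`. Let `m, b, t, k, A, h` be as in `ValW`. The units congruent to `1` modulo `m` have relative norm `1` and are torsion
free: `up_le` (nuX/AN/Val.lean), `un_norm`, `un_tors` as in `valueProp_eps` (nuX/AN/Val.lean). `nf_exists` (nuT/S6) gives the embeddings
`σ` indexed by `Fin (finrank K F) = Fin (m' + 1)` as in `d6_gen` (nuT/D6/Main.lean). `dl_basis b` gives `bb`. `𝓞 K` is a principal ideal domain,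
so `relNorm (different) = span {d₀}` for some `d₀`. Apply `co_valW` with `H = extW b m t h` (`wtA_of_good`), `M = BdM A (m' + 1) d₀`
(`BdM_mul`), `hFr = frOK_main`, `hA` from `plP_pl`. This gives `g`. For a set of representatives `R` (`IsRep m b t R`):
`repsU_of_isRep` (nuT/S7/Plug.lean) gives `IsRepsU m (cls b m t) (coeSet R)`, and
`HasSum (fun z : coeSet R => extW .. z * term s z) (g s)` is transported to `R` by the injection `𝓞 F → F` (as in `hasSum_coe`), with
`extW .. (r : F) = h r` (`extW_coe`, `r - t ∈ m b` for `r ∈ R`); `term s (r : F) = conj (Nm r) * ‖Nm r‖ ^ (-2 s)` by definition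
(`NF` and `Nm` are the same).
For an arbitrary generator `d`: `span {d} = span {d₀}`, so `d = d₀ * unit` (`Ideal.span_singleton_eq_span_singleton`) and
`V (embK d) = V (embK d₀)` (the unit and its inverse are in `A`, `kq_intA`).
-/

set_option autoImplicit false

namespace Pool.Agent.Lib.MP_1a91b9_nuW.VA

variable [Pool.Agent.Lib.MP_1a91b9_nuT.CD]

open Pool.Agent.Lib.MP_1a91b9_nuT hiding cj
open Pool.Agent.Lib.MP_1a91b9_nuT.Ell Pool.Agent.Lib.MP_1a91b9_nuX
open NumberField Module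

universe u

theorem valW_main [HC] {p : 𝓞 K} {ℓ : ℕ} (hp : Spl p ℓ) (ε : 𝓞 K) (hε : IsCoprime ε (ℓ : 𝓞 K))
    (F : Type u) [Field F] [NumberField F] [Algebra K F]
    (hε1 : IsCoprime (ε ^ finrank K F - 1) (ℓ : 𝓞 K)) : ValW p ℓ ε F := by
  intro m b t hm0 hmf hmq hb0 hbq htb htm k A h hA hh
  obtain ⟨r, hr, h3⟩ := AN.up_le F m hmf
  have hex := nf_exists (F := F)
  have hfin := nfa_finite (F := F)
  have hfr : finrank K F ≠ 0 := (finrank_pos (R := K) (M := F)).ne'
  obtain ⟨n, hn⟩ : ∃ n, finrank K F = n + 1 := Nat.exists_eq_succ_of_ne_zero hfr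
  rw [hn] at hex
  obtain ⟨σ, hσ⟩ := hex
  obtain ⟨bb, hbb, hbb'⟩ := dl_basis b hb0 hn
  have hpid : IsPrincipalIdealRing (𝓞 K) := CD.pidK
  obtain ⟨d₀, hd₀⟩ : ∃ d₀ : 𝓞 K,
      Ideal.relNorm (𝓞 K) (differentIdeal (𝓞 K) (𝓞 F)) = Ideal.span {d₀} :=
    (IsPrincipalIdealRing.principal _).principal
  obtain ⟨g, hg, hgs, hg1⟩ := co_valW hp.prime ε hε hε1 k σ hσ b m hb0 hbq hm0 hmq
    (fun v hv => un_norm m r hr h3 v hv) (fun v hv k hk hvk => un_tors m r hr h3 v hv k hk hvk)
    t htb htm (extW b m t h) (wtA_of_good hp htb hm0 hb0 hh) bb hbb hbb' A (plP_pl hp hA)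
    (BdM A (n + 1) d₀) (fun a ha x hx => BdM_mul a ha x hx)
    (fun R' β' b' hβ' S hS => frOK_main hp hA σ hσ b m hb0 hbq hm0 hmq t htb hh bb hbb hbb' d₀
      hd₀ R' β' b' hβ' S hS)
  refine ⟨g, hg, ?_, ?_⟩
  · intro R hR s hs
    have h1 := hgs _ (S7.repsU_of_isRep htm hR) s hs
    have hinj : Function.Injective (fun z : 𝓞 F => (z : F)) := RingOfIntegers.coe_injective
    have h2 := (Equiv.Set.image (fun z : 𝓞 F => (z : F)) R hinj).hasSum_iff.2 h1
    have h4 : (fun x : R => h x * ((starRingEnd ℂ) (S4.Nm ((x : 𝓞 F) : F)) *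
        ((‖S4.Nm ((x : 𝓞 F) : F)‖ : ℝ) : ℂ) ^ (-2 * s))) =
        (fun z : S7.coeSet R => extW b m t h (z : F) * term s (z : F)) ∘
          (Equiv.Set.image (fun z : 𝓞 F => (z : F)) R hinj) := by
      funext x
      show _ = extW b m t h ((x : 𝓞 F) : F) * term s ((x : 𝓞 F) : F)
      rw [extW_coe (hR.mem _ x.2)]
      rfl
    rw [h4]
    exact h2
  · intro d hd
    rw [hn]
    have h4 := BdM_mem.1 hg1
    have h5 : Associated d₀ d := Ideal.span_singleton_eq_span_singleton.1 (hd₀.symm.trans hd)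
    obtain ⟨w, hw⟩ := h5
    have h6 : A.valuation (embK (d : K)) ≤ A.valuation (embK (d₀ : K)) := by
      have h7 : embK (d : K) = embK (d₀ : K) * embK (((w : 𝓞 K) : K)) := by
        rw [← hw, RingOfIntegers.coe_eq_algebraMap, map_mul, map_mul]
      rw [h7, map_mul]
      exact mul_le_of_le_one_right' ((A.valuation_le_one_iff _).2 (kq_intA A _))
    exact (mul_le_mul_right h6 _).trans h4

end Pool.Agent.Lib.MP_1a91b9_nuW.VA
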