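import Pool.Agent.Lib.MP_1a91b9_nuW.Ex
import Pool.Agent.Lib.MP_1a91b9_nuW.VA.Crs

/-!
# G7, stream VA, file Orth: orthogonality of the characters of `𝓞 K / b`

PROOFS.
* `orth`: if `x ∈ 𝓞 K` all the terms are `1` and the number of classes is `‖embK b‖²` (`de_fam` of nuT/S6/De1.lean gives a family with
  `r = ‖embK b‖²` elements and the same property; two complete residue systems have the same number of elements). If `x ∉ 𝓞 K`, there
  is `c : 𝓞 K` with `exK (embK (x c)) ≠ 1` (`exK_faith`); translation by `c` permutes the classes and `exK (embK (x a))` depends only on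
  `a` modulo `b` (because `b x ∈ 𝓞 K`, `exK_int`), so the sum `S` satisfies `S = exK (embK (x c)) * S`, `S = 0`.
-/

set_option autoImplicit false

namespace Pool.Agent.Lib.MP_1a91b9_nuW.VA

variable [Pool.Agent.Lib.MP_1a91b9_nuT.CD]

open Pool.Agent.Lib.MP_1a91b9_nuT hiding cj
open NumberField Module

private theorem orth_card {b : 𝓞 K} {ι κ : Type*} [Fintype ι] [Fintype κ] {a : ι → 𝓞 K}
    {s : κ → 𝓞 K} (ha : IsCRS b a) (hs : IsCRS b s) : Fintype.card ι ≤ Fintype.card κ := by
  choose f hf _ using fun i => hs.ex (a i)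
  refine Fintype.card_le_of_injective f fun i i' h => ?_
  have h1 : b ∣ a i - s (f i) := hf i
  have h2 : b ∣ a i' - s (f i') := hf i'
  rw [← h] at h2
  have h3 : b ∣ a i - a i' := by
    have e := dvd_sub h1 h2
    rwa [sub_sub_sub_cancel_right] at e
  exact (ha.ex (a i)).unique (by rw [sub_self]; exact dvd_zero b) h3

private theorem orth_cong {b : 𝓞 K} (x : K) (hx : ∃ c : 𝓞 K, (b : K) * x = c) {y z : 𝓞 K}
    (h : b ∣ y - z) : exK (embK ((y : K) * x)) = exK (embK ((z : K) * x)) := by
  obtain ⟨c, hc⟩ := hx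
  obtain ⟨d, hd⟩ := h
  have h1 : (y : K) = (z : K) + (b : K) * (d : K) := by
    have e : y = z + b * d := by rw [← hd]; ring
    rw [e]
    change algebraMap (𝓞 K) K (z + b * d) =
      algebraMap (𝓞 K) K z + algebraMap (𝓞 K) K b * algebraMap (𝓞 K) K d
    rw [map_add, map_mul]
  have h2 : (y : K) * x = (z : K) * x + ((d * c : 𝓞 K) : K) := by
    have e : ((d * c : 𝓞 K) : K) = (d : K) * (c : K) := by
      change algebraMap (𝓞 K) K (d * c) = algebraMap (𝓞 K) K d * algebraMap (𝓞 K) K c
      rw [map_mul]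
    rw [e, ← hc, h1]
    ring
  rw [h2, map_add, exK_add, exK_int, mul_one]

open Classical in
theorem orth {b : 𝓞 K} (hb : b ≠ 0) {ι : Type*} [Fintype ι] {a : ι → 𝓞 K} (ha : IsCRS b a) (x : K)
    (hx : ∃ c : 𝓞 K, (b : K) * x = c) :
    ∑ i, exK (embK ((a i : K) * x)) =
      if ∃ c : 𝓞 K, x = c then (((‖embK (b : K)‖ ^ 2 : ℝ)) : ℂ) else 0 := by
  classical
  by_cases h : ∃ c : 𝓞 K, x = c
  · rw [if_pos h]
    obtain ⟨c, rfl⟩ := h
    have h1 : ∀ i, exK (embK ((a i : K) * (c : K))) = 1 := by
      intro i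
      have e : (a i : K) * (c : K) = ((a i * c : 𝓞 K) : K) := by
        change algebraMap (𝓞 K) K (a i) * algebraMap (𝓞 K) K c = algebraMap (𝓞 K) K (a i * c)
        rw [map_mul]
      rw [e]
      exact exK_int _
    rw [Finset.sum_congr rfl fun i _ => h1 i, Finset.sum_const, nsmul_eq_mul, mul_one,
      Finset.card_univ]
    obtain ⟨r, s, hr, -, hs⟩ := de_fam b hb
    have hs' : IsCRS b s := ⟨fun y => by
      obtain ⟨j, hj, hj'⟩ := hs y
      exact ⟨j, (dvd_sub_comm.1 hj), fun j' h' => hj' j' (dvd_sub_comm.1 h')⟩⟩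
    have h2 : Fintype.card ι = r := by
      have e1 := orth_card ha hs'
      have e2 := orth_card hs' ha
      rw [Fintype.card_fin] at e1 e2
      omega
    rw [h2, ← hr]
    push_cast
    rfl
  · rw [if_neg h]
    obtain ⟨c, hc⟩ : ∃ c : 𝓞 K, exK (embK (x * (c : K))) ≠ 1 := by
      by_contra hcon
      push Not at hcon
      exact h (exK_faith x hcon)
    choose f hf _ using fun i => ha.ex (a i + c)
    have hinj : Function.Injective f := by
      intro i i' hii
      have h1 : b ∣ a i + c - a (f i) := hf i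
      have h2 : b ∣ a i' + c - a (f i') := hf i'
      rw [← hii] at h2
      have h3 : b ∣ a i - a i' := by
        have e := dvd_sub h1 h2
        have e2 : a i + c - a (f i) - (a i' + c - a (f i)) = a i - a i' := by ring
        rwa [e2] at e
      exact (ha.ex (a i)).unique (by rw [sub_self]; exact dvd_zero b) h3
    have hbij : Function.Bijective f := Finite.injective_iff_bijective.1 hinj
    have h1 : ∑ i, exK (embK ((a i : K) * x)) =
        exK (embK (x * (c : K))) * ∑ i, exK (embK ((a i : K) * x)) := by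
      rw [Finset.mul_sum]
      refine Eq.trans (Equiv.sum_comp (Equiv.ofBijective f hbij)
        (fun i => exK (embK ((a i : K) * x)))).symm ?_
      refine Finset.sum_congr rfl fun i _ => ?_
      change exK (embK ((a (f i) : K) * x)) = _
      rw [← orth_cong x hx (hf i), ← exK_add, ← map_add]
      congr 2
      have e : ((a i + c : 𝓞 K) : K) = (a i : K) + (c : K) := by
        change algebraMap (𝓞 K) K (a i + c) = algebraMap (𝓞 K) K (a i) + algebraMap (𝓞 K) K c
        rw [map_add]
      rw [e]
      ring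
    have h2 : (1 - exK (embK (x * (c : K)))) * ∑ i, exK (embK ((a i : K) * x)) = 0 := by
      linear_combination h1
    exact (mul_eq_zero.1 h2).resolve_left (sub_ne_zero.2 (Ne.symm hc))


end Pool.Agent.Lib.MP_1a91b9_nuW.VA
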