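import Pool.Agent.Lib.MP_1a91b9_nuW.VA.Defs

/-!
# G7, stream VA, file Sm: smoothing elements congruent to `ε` modulo `q ^ k`
-/

set_option autoImplicit false

namespace Pool.Agent.Lib.MP_1a91b9_nuW.VA

variable [Pool.Agent.Lib.MP_1a91b9_nuT.CD]

open Pool.Agent.Lib.MP_1a91b9_nuT hiding cj
open Pool.Agent.Lib.MP_1a91b9_nuT.Ell
open NumberField Module Polynomial

universe u

variable {F : Type u} [Field F] [NumberField F] [Algebra K F] {q : ℕ}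

theorem smE_elt (ε : 𝓞 K) (hε1 : IsCoprime (ε ^ Module.finrank K F - 1) (q : 𝓞 K)) (θ : 𝓞 F)
    (D : ℕ) (hθ : ∀ z : 𝓞 F, ∃ P : (𝓞 K)[X], (D : 𝓞 F) * z = aeval θ P) (R k : ℕ)
    (c : 𝓞 K) (hc1 : (R : 𝓞 K) ∣ c - 1) (hc2 : (q : 𝓞 K) ∣ c - ε)
    (hck : ((q ^ k : ℕ) : 𝓞 K) ∣ c - ε)
    (hc3 : IsCoprime c ((q * R * (q ^ k * D) : ℕ) : 𝓞 K)) (b : 𝓞 K)
    (hb : Algebra.norm K ((algebraMap (𝓞 K) (𝓞 F) c +
      ((q * R * (q ^ k * D) : ℕ) : 𝓞 F) * θ : 𝓞 F) : F) = b) :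
    SmE q R k ε (algebraMap (𝓞 K) (𝓞 F) c + ((q * R * (q ^ k * D) : ℕ) : 𝓞 F) * θ) b := by
  have hθ' : ∀ z : 𝓞 F, ∃ P : (𝓞 K)[X], ((q ^ k * D : ℕ) : 𝓞 F) * z = aeval θ P := by
    intro z
    obtain ⟨P, hP⟩ := hθ z
    refine ⟨C ((q ^ k : ℕ) : 𝓞 K) * P, ?_⟩
    rw [map_mul, aeval_C, ← hP, map_natCast]
    push_cast
    ring
  refine ⟨Ell.sm_elt ε hε1 θ (q ^ k * D) hθ' R c hc1 hc2 hc3 b hb, ?_⟩
  obtain ⟨t, ht⟩ := hck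
  refine ⟨algebraMap (𝓞 K) (𝓞 F) t + ((q * R * D : ℕ) : 𝓞 F) * θ, ?_⟩
  have h1 : algebraMap (𝓞 K) (𝓞 F) c - algebraMap (𝓞 K) (𝓞 F) ε =
      ((q ^ k : ℕ) : 𝓞 F) * algebraMap (𝓞 K) (𝓞 F) t := by
    rw [← map_sub, ht, map_mul, map_natCast]
  have h2 : algebraMap (𝓞 K) (𝓞 F) c + ((q * R * (q ^ k * D) : ℕ) : 𝓞 F) * θ -
      algebraMap (𝓞 K) (𝓞 F) ε = (algebraMap (𝓞 K) (𝓞 F) c - algebraMap (𝓞 K) (𝓞 F) ε) +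
        ((q * R * (q ^ k * D) : ℕ) : 𝓞 F) * θ := by ring
  rw [h2, h1]
  push_cast
  ring

theorem smE_c (hq : q.Prime) (ε : 𝓞 K) (hε : IsCoprime ε (q : 𝓞 K)) (R D k : ℕ)
    (hR : R.Coprime q) (hD : 0 < D) :
    ∃ c₀ : 𝓞 K, ∀ c : 𝓞 K, ((q * R * (q ^ k * D) : ℕ) : 𝓞 K) ∣ c - c₀ →
      (R : 𝓞 K) ∣ c - 1 ∧ (q : 𝓞 K) ∣ c - ε ∧ ((q ^ k : ℕ) : 𝓞 K) ∣ c - ε ∧
        IsCoprime c ((q * R * (q ^ k * D) : ℕ) : 𝓞 K) := by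
  obtain ⟨j, D', hD', rfl⟩ := Nat.exists_eq_pow_mul_and_not_dvd hD.ne' q hq.one_lt.ne'
  have hDq : D'.Coprime q := ((Nat.Prime.coprime_iff_not_dvd hq).2 hD').symm
  obtain ⟨e, he⟩ : ∃ e : ℕ, e = R * D' := ⟨_, rfl⟩
  have heq : e.Coprime (q ^ (k + 1)) := by
    rw [he]
    exact (Nat.Coprime.mul_left hR hDq).pow_right _
  obtain ⟨x, y, hxy⟩ := kq_nat heq
  push_cast at hxy
  refine ⟨1 + (e : 𝓞 K) * x * (ε - 1), fun c hc => ?_⟩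
  obtain ⟨t, ht⟩ := hc
  have hM : ((q * R * (q ^ k * (q ^ j * D')) : ℕ) : 𝓞 K) =
      (q : 𝓞 K) ^ (k + 1) * ((q : 𝓞 K) ^ j * (e : 𝓞 K)) := by
    rw [he]; push_cast; ring
  rw [hM] at ht
  have hc : c = (1 + (e : 𝓞 K) * x * (ε - 1)) +
      (q : 𝓞 K) ^ (k + 1) * ((q : 𝓞 K) ^ j * (e : 𝓞 K)) * t := by
    rw [← ht]; ring
  have hc1 : (e : 𝓞 K) ∣ c - 1 := by
    refine ⟨(q : 𝓞 K) ^ (k + 1) * (q : 𝓞 K) ^ j * t + x * (ε - 1), ?_⟩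
    rw [hc]
    ring
  have hc2 : (q : 𝓞 K) ^ (k + 1) ∣ c - ε := by
    refine ⟨(q : 𝓞 K) ^ j * (e : 𝓞 K) * t - y * (ε - 1), ?_⟩
    rw [hc]
    linear_combination (ε - 1) * hxy
  have hq1 : (q : 𝓞 K) ∣ c - ε := (dvd_pow_self _ (Nat.succ_ne_zero k)).trans hc2
  refine ⟨dvd_trans ⟨(D' : 𝓞 K), by rw [he]; push_cast; ring⟩ hc1, hq1, ?_, ?_⟩
  · push_cast
    exact (pow_dvd_pow _ (Nat.le_succ k)).trans hc2
  have hcop1 : IsCoprime c (e : 𝓞 K) := by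
    obtain ⟨s, hs⟩ := hc1
    exact ⟨1, -s, by linear_combination hs⟩
  have hcop2 : IsCoprime c (q : 𝓞 K) := by
    obtain ⟨s, hs⟩ := hq1
    have h1 : c = ε + (q : 𝓞 K) * s := by rw [← hs]; ring
    rw [h1]
    exact hε.add_mul_left_left s
  rw [hM]
  exact (hcop2.pow_right).mul_right ((hcop2.pow_right).mul_right hcop1)

theorem smE_exists (hq : q.Prime) (ε : 𝓞 K) (hε : IsCoprime ε (q : 𝓞 K))
    (hε1 : IsCoprime (ε ^ Module.finrank K F - 1) (q : 𝓞 K)) (k R : ℕ) (hR : R.Coprime q) :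
    ∃ (β : 𝓞 F) (b : 𝓞 K), SmE q R k ε β b := by
  obtain ⟨θ, D, hD, hθ⟩ := sm_theta F
  obtain ⟨c₀, hc⟩ := smE_c hq ε hε R D k hR hD
  obtain ⟨h1, h2, h3, h4⟩ := hc c₀ (by simp)
  obtain ⟨b, hb⟩ := nf_int
    (algebraMap (𝓞 K) (𝓞 F) c₀ + ((q * R * (q ^ k * D) : ℕ) : 𝓞 F) * θ : 𝓞 F)
  exact ⟨_, b, smE_elt ε hε1 θ D hθ R k c₀ h1 h2 h3 h4 b hb⟩

theorem smE_var (hq : q.Prime) (ε : 𝓞 K) (hε : IsCoprime ε (q : 𝓞 K))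
    (hε1 : IsCoprime (ε ^ Module.finrank K F - 1) (q : 𝓞 K)) (k f : ℕ) (hf : 3 ≤ f) (R : ℕ)
    (hR : R.Coprime q) (h3 : f ∣ R) (s₀ : ℂ) :
    ∃ (β : 𝓞 F) (b : 𝓞 K), SmE q R k ε β b ∧
      1 - (‖embK (b : K)‖ ^ 2 : ℝ) * (starRingEnd ℂ) (embK (b : K)) *
        (‖embK (b : K)‖ : ℂ) ^ (-2 * s₀) ≠ 0 := by
  by_contra hcon
  push Not at hcon
  obtain ⟨θ, D, hD, hθ⟩ := sm_theta F
  obtain ⟨c₀, hc⟩ := smE_c hq ε hε R D k hR hD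
  obtain ⟨M, hM⟩ : ∃ M : ℕ, M = q * R * (q ^ k * D) := ⟨_, rfl⟩
  have hR0 : 0 < R := by
    rcases Nat.eq_zero_or_pos R with h | h
    · rw [h, Nat.coprime_zero_left] at hR
      exact absurd hR hq.one_lt.ne'
    · exact h
  have hM0 : 0 < M := by
    have := hq.pos
    rw [hM]
    positivity
  obtain ⟨ρ, hρ0, hρ1'⟩ := exists_rho
  have hc' : ∀ j : ℕ, (M : 𝓞 K) ∣ (c₀ + (M : 𝓞 K) * j * ρ) - c₀ := fun j =>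
    ⟨j * ρ, by ring⟩
  choose b hb using fun j : ℕ =>
    nf_int (algebraMap (𝓞 K) (𝓞 F) (c₀ + (M : 𝓞 K) * j * ρ) + (M : 𝓞 F) * θ : 𝓞 F)
  have hsm : ∀ j : ℕ, SmE q R k ε
      (algebraMap (𝓞 K) (𝓞 F) (c₀ + (M : 𝓞 K) * j * ρ) + (M : 𝓞 F) * θ : 𝓞 F) (b j) := by
    intro j
    obtain ⟨h1, h2, h4, h5⟩ := hc _ (by rw [← hM]; exact hc' j)
    have h6 := smE_elt ε hε1 θ D hθ R k _ h1 h2 h4 h5 (b j) (by rw [← hM]; exact hb j)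
    rw [← hM] at h6
    exact h6
  have hgt : ∀ j, 2 ≤ ‖embK (b j : K)‖ ^ 2 := fun j =>
    sm_gt hq.one_lt.ne' f hf R h3 _ _ (hsm j).1
  have hfr : Module.finrank K F ≠ 0 := by
    have := nfa_finite (F := F)
    exact (Module.finrank_pos (R := K) (M := F)).ne'
  have hρ1 := hρ1' (Module.finrank K F) hfr
  have hρn : ‖embK (ρ : K)‖ ≠ 0 := norm_ne_zero_iff.2 hρ0
  have hρC : (‖embK (ρ : K)‖ : ℂ) ≠ 0 := by exact_mod_cast hρn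
  have hlim := sm_lim' θ M hM0 c₀ ρ hρ0 b hb
  have hT := fun j => sm2_term _ (hgt j) s₀ (hcon _ _ (hsm j))
  have h6 := sm2_main' (Module.finrank K F) hfr (M * ‖embK (ρ : K)‖)
    (mul_pos (by exact_mod_cast hM0) (norm_pos_iff.2 hρ0))
    (embK (ρ : K) / (‖embK (ρ : K)‖ : ℂ)) (by
      rw [norm_div, Complex.norm_real, norm_norm, div_self hρn])
    s₀.im (fun j => embK (b j : K)) (fun j h => by
      have := hgt j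
      rw [h] at this
      norm_num at this) (by
      refine hlim.congr fun k => ?_
      congr 2
      push_cast
      field_simp) (fun j => (hT j).2)
  exact hρ1 h6.2

end Pool.Agent.Lib.MP_1a91b9_nuW.VA
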