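import Pool.Agent.Lib.MP_1a91b9_nuW.VA.Main

/-!
# G7, stream VA: the values for `ε = 2 ^ ℓ`
-/

set_option autoImplicit false

namespace Pool.Agent.Lib.MP_1a91b9_nuW.VA

variable [Pool.Agent.Lib.MP_1a91b9_nuT.CD]

open Pool.Agent.Lib.MP_1a91b9_nuT hiding cj
open Pool.Agent.Lib.MP_1a91b9_nuT.Ell Pool.Agent.Lib.MP_1a91b9_nuX
open NumberField Module

universe u

/-- **The values of the partial series with good weights are integral**, with `ε = 2 ^ ℓ`. -/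
theorem valW_two [HC] {p : 𝓞 K} {ℓ : ℕ} (hp : Spl p ℓ) (F : Type u) [Field F] [NumberField F]
    [Algebra K F] (h : ¬ ℓ ∣ 2 ^ finrank K F - 1) : ValW p ℓ (2 ^ ℓ) F := by
  have hℓ : Fact ℓ.Prime := ⟨hp.prime⟩
  have key : ∀ a b : ℕ, Nat.Coprime a b → IsCoprime (a : 𝓞 K) (b : 𝓞 K) := by
    intro a b hab
    have h1 := (Nat.isCoprime_iff_coprime.2 hab).map (Int.castRingHom (𝓞 K))
    simpa using h1
  have h2 : Nat.Coprime (2 ^ ℓ) ℓ :=
    Nat.Coprime.pow_left ℓ ((Nat.coprime_primes Nat.prime_two hp.prime).2 (Ne.symm hp.odd))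
  have h3 : Nat.Coprime ((2 ^ ℓ) ^ finrank K F - 1) ℓ := by
    refine Nat.Coprime.symm ((Nat.Prime.coprime_iff_not_dvd hp.prime).2 fun h4 => h ?_)
    have h5 : ((2 ^ ℓ) ^ finrank K F - 1 : ℕ) + 1 = (2 ^ finrank K F) ^ ℓ := by
      rw [Nat.sub_add_cancel (Nat.one_le_pow _ _ (by positivity)), ← pow_mul, ← pow_mul, mul_comm]
    have h6 : (2 ^ finrank K F - 1 : ℕ) + 1 = 2 ^ finrank K F :=
      Nat.sub_add_cancel (Nat.one_le_pow _ _ (by norm_num))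
    have h7 : (((2 ^ ℓ) ^ finrank K F - 1 : ℕ) : ZMod ℓ) = 0 := (ZMod.natCast_eq_zero_iff _ _).2 h4
    have h8 : (((2 ^ finrank K F) ^ ℓ : ℕ) : ZMod ℓ) = 1 := by
      rw [← h5, Nat.cast_add, h7, zero_add, Nat.cast_one]
    rw [Nat.cast_pow, ZMod.pow_card] at h8
    rw [← h6, Nat.cast_add, Nat.cast_one] at h8
    exact (ZMod.natCast_eq_zero_iff _ _).1 (by linear_combination h8)
  refine valW_main hp (2 ^ ℓ) ?_ F ?_
  · have h4 := key _ _ h2
    rwa [Nat.cast_pow, Nat.cast_ofNat] at h4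
  · have h4 := key _ _ h3
    rwa [Nat.cast_sub (Nat.one_le_pow _ _ (by positivity)), Nat.cast_pow, Nat.cast_pow,
      Nat.cast_ofNat, Nat.cast_one] at h4

end Pool.Agent.Lib.MP_1a91b9_nuW.VA
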