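import Pool.Agent.Lib.MP_1a91b9_nuW.Ex
import Pool.Agent.Lib.MP_1a91b9_nuW.VA.Defs

/-!
# G7, stream VA, file Wt: good weights as functions on `F`

PROOFS.
* `extW_coe`: injectivity of `𝓞 F → F`.
* `good_per`: for `z - t ∈ m b` and `w ∈ m b`: `(z + ℓ^k w) - t ∈ m b`, and by `GoodW.exp`
  `h (z + ℓ^k w) = ∑ eF (y i) (z + ℓ^k w) * g i (z + ℓ^k w)`. `ℓ^k w = cK p ^ k * (p^k w)` lies in `span {cK p ^ k} * (m b)`, so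
  `g i (z + ℓ^k w) = g i z`. `eF (y i) (z + ℓ^k w) = eF (y i) z * eF (y i) (ℓ^k w)` and
  `Tr (y i ℓ^k w) = cK p ^ k * (p ^ k Tr (y i w)) ∈ 𝓞 K` as `w ∈ b`, so `eF (y i) (ℓ^k w) = 1` (`exK_int`).
* `wtA_of_good`: `per` from `good_per`; `unit`, `beta` from `GoodW` (`ℓ = p * cK p`), using that the class is stable
  (`(β - 1) z ∈ m b` for `z ∈ b`). `bdd`: on the class, `h` depends only on the class modulo the ideal `J = span {ℓ^k} * (m b) ≠ 0`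
  (`good_per`; an element of `J` is `ℓ^k w`, `Ideal.mem_span_singleton_mul`), and `𝓞 F ⧸ J` is finite
  (`Ideal.finiteQuotientOfFreeOfNeBot` or `Ring.HasFiniteQuotients`), so `h` takes finitely many values on the class; a finite set of
  complex numbers is bounded.
-/

set_option autoImplicit false

namespace Pool.Agent.Lib.MP_1a91b9_nuW.VA

variable [Pool.Agent.Lib.MP_1a91b9_nuT.CD]

open Pool.Agent.Lib.MP_1a91b9_nuT hiding cj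
open NumberField Module

universe u

variable {F : Type u} [Field F] [NumberField F] [Algebra K F]

open Classical in
/-- A function on the class `t + 𝔪 𝔟`, extended by `0` to `F`. -/
noncomputable def extW (𝔟 𝔪 : Ideal (𝓞 F)) (t : 𝓞 F) (h : 𝓞 F → ℂ) (z : F) : ℂ :=
  if hz : ∃ w : 𝓞 F, (w : F) = z ∧ w - t ∈ 𝔪 * 𝔟 then h hz.choose else 0

theorem extW_coe {𝔟 𝔪 : Ideal (𝓞 F)} {t : 𝓞 F} {h : 𝓞 F → ℂ} {w : 𝓞 F} (hw : w - t ∈ 𝔪 * 𝔟) :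
    extW 𝔟 𝔪 t h (w : F) = h w := by
  have hz : ∃ w' : 𝓞 F, (w' : F) = (w : F) ∧ w' - t ∈ 𝔪 * 𝔟 := ⟨w, rfl, hw⟩
  unfold extW
  rw [dif_pos hz]
  have h1 : hz.choose = w := RingOfIntegers.coe_injective hz.choose_spec.1
  rw [h1]

theorem extW_of_not {𝔟 𝔪 : Ideal (𝓞 F)} {t : 𝓞 F} {h : 𝓞 F → ℂ} {z : F} (hz : z ∉ cls 𝔟 𝔪 t) :
    extW 𝔟 𝔪 t h z = 0 := by
  unfold extW
  rw [dif_neg]
  exact hz

private theorem wt_ell {p : 𝓞 K} {ℓ : ℕ} (hp : Spl p ℓ) (k : ℕ) :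
    ((ℓ ^ k : ℕ) : 𝓞 F) = algebraMap (𝓞 K) (𝓞 F) (cK p ^ k) * algebraMap (𝓞 K) (𝓞 F) (p ^ k) := by
  rw [← map_mul, ← mul_pow, mul_comm, hp.mul, map_pow, map_natCast, Nat.cast_pow]

private theorem wt_coe (a : 𝓞 K) : ((algebraMap (𝓞 K) (𝓞 F) a : 𝓞 F) : F) = algebraMap K F (a : K) :=
  rfl

private theorem wt_eF {p : 𝓞 K} {ℓ : ℕ} (hp : Spl p ℓ) {k : ℕ} {y : F} {w : 𝓞 F}
    (hy : ∃ a : 𝓞 K, (p : K) ^ k * Algebra.trace K F (y * (w : F)) = a) :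
    eF y (((((ℓ ^ k : ℕ) : 𝓞 F) * w : 𝓞 F)) : F) = 1 := by
  obtain ⟨a, ha⟩ := hy
  have h1 : (((((ℓ ^ k : ℕ) : 𝓞 F) * w : 𝓞 F)) : F) =
      algebraMap K F ((cK p : K) ^ k) * (algebraMap K F ((p : K) ^ k) * (w : F)) := by
    rw [wt_ell hp k]
    change algebraMap (𝓞 F) F (algebraMap (𝓞 K) (𝓞 F) (cK p ^ k) * algebraMap (𝓞 K) (𝓞 F) (p ^ k) * w) = _
    rw [map_mul, map_mul, mul_assoc]
    change algebraMap K F (((cK p ^ k : 𝓞 K)) : K) * (algebraMap K F (((p ^ k : 𝓞 K)) : K) * (w : F)) = _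
    have e1 : (((cK p ^ k : 𝓞 K)) : K) = (cK p : K) ^ k := map_pow (algebraMap (𝓞 K) K) _ _
    have e2 : (((p ^ k : 𝓞 K)) : K) = (p : K) ^ k := map_pow (algebraMap (𝓞 K) K) _ _
    rw [e1, e2]
  have h2 : Algebra.trace K F (y * (((((ℓ ^ k : ℕ) : 𝓞 F) * w : 𝓞 F)) : F)) = ((cK p ^ k * a : 𝓞 K) : K) := by
    have e3 : y * (algebraMap K F ((cK p : K) ^ k) * (algebraMap K F ((p : K) ^ k) * (w : F))) =
        ((cK p : K) ^ k * (p : K) ^ k) • (y * (w : F)) := by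
      rw [Algebra.smul_def, map_mul]
      ring
    rw [h1, e3, map_smul, smul_eq_mul, mul_assoc, ha]
    change _ = algebraMap (𝓞 K) K (cK p ^ k * a)
    rw [map_mul, map_pow]
  unfold eF
  rw [h2]
  exact exK_int _

theorem good_per {p : 𝓞 K} {ℓ : ℕ} (hp : Spl p ℓ) {k : ℕ} {ε : 𝓞 K} {𝔪 𝔟 : Ideal (𝓞 F)} {t : 𝓞 F}
    {A : ValuationSubring ℂ} {h : 𝓞 F → ℂ} (hh : GoodW p k ε 𝔪 𝔟 t A h) {z : 𝓞 F}
    (hz : z - t ∈ 𝔪 * 𝔟) {w : 𝓞 F} (hw : w ∈ 𝔪 * 𝔟) : h (z + ((ℓ ^ k : ℕ) : 𝓞 F) * w) = h z := by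
  obtain ⟨ι, hι, y, g, h1, h2, h3, h4⟩ := hh.exp
  have hlw : ((ℓ ^ k : ℕ) : 𝓞 F) * w ∈ 𝔪 * 𝔟 := Ideal.mul_mem_left _ _ hw
  have hz' : z + ((ℓ ^ k : ℕ) : 𝓞 F) * w - t ∈ 𝔪 * 𝔟 := by
    have e1 : z + ((ℓ ^ k : ℕ) : 𝓞 F) * w - t = (z - t) + ((ℓ ^ k : ℕ) : 𝓞 F) * w := by ring
    rw [e1]
    exact Ideal.add_mem _ hz hlw
  rw [h4 _ hz', h4 _ hz]
  refine Finset.sum_congr rfl fun i _ => ?_
  have e2 : g i (z + ((ℓ ^ k : ℕ) : 𝓞 F) * w) = g i z := by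
    refine h3 i z _ ?_
    rw [wt_ell hp k, mul_assoc]
    exact Ideal.mul_mem_mul (Ideal.mem_span_singleton_self _) (Ideal.mul_mem_left _ _ hw)
  have e3 : ((z + ((ℓ ^ k : ℕ) : 𝓞 F) * w : 𝓞 F) : F) = (z : F) + ((((ℓ ^ k : ℕ) : 𝓞 F) * w : 𝓞 F) : F) :=
    map_add (algebraMap (𝓞 F) F) _ _
  rw [e2, e3, eF_add_right, wt_eF hp (h1 i w (Ideal.mul_le_right hw)), mul_one]

theorem wtA_of_good {p : 𝓞 K} {ℓ : ℕ} (hp : Spl p ℓ) {k : ℕ} {ε : 𝓞 K} {𝔪 𝔟 : Ideal (𝓞 F)}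
    {t : 𝓞 F} (ht : t ∈ 𝔟) (hm : 𝔪 ≠ ⊥) (hb : 𝔟 ≠ ⊥) {A : ValuationSubring ℂ} {h : 𝓞 F → ℂ}
    (hh : GoodW p k ε 𝔪 𝔟 t A h) : WtA ℓ k ε 𝔟 𝔪 t (extW 𝔟 𝔪 t h) := by
  classical
  have hinb : ∀ w : 𝓞 F, w - t ∈ 𝔪 * 𝔟 → w ∈ 𝔟 := by
    intro w hw
    have h1 := Ideal.add_mem _ (Ideal.mul_le_right hw) ht
    rwa [sub_add_cancel] at h1
  have hstab : ∀ (β w : 𝓞 F), β - 1 ∈ 𝔪 → w - t ∈ 𝔪 * 𝔟 → β * w - t ∈ 𝔪 * 𝔟 := by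
    intro β w hβ hw
    have e1 : β * w - t = (β - 1) * w + (w - t) := by ring
    rw [e1]
    exact Ideal.add_mem _ (Ideal.mul_mem_mul hβ (hinb w hw)) hw
  refine ⟨?_, ?_, ?_, ?_⟩
  · have hℓ0 : ((ℓ ^ k : ℕ) : 𝓞 F) ≠ 0 := Nat.cast_ne_zero.2 (pow_ne_zero _ hp.prime.ne_zero)
    obtain ⟨J, hJ⟩ : ∃ J : Ideal (𝓞 F), J = Ideal.span {((ℓ ^ k : ℕ) : 𝓞 F)} * (𝔪 * 𝔟) := ⟨_, rfl⟩
    have hJ0 : J ≠ ⊥ := by
      rw [hJ]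
      refine mul_ne_zero ?_ (mul_ne_zero hm hb)
      intro h1
      exact hℓ0 (Ideal.span_singleton_eq_bot.1 h1)
    have hfin : Finite (𝓞 F ⧸ J) := Ideal.finiteQuotientOfFreeOfNeBot J hJ0
    let f : (𝓞 F ⧸ J) → ℂ := fun c =>
      if hc : ∃ w : 𝓞 F, Ideal.Quotient.mk J w = c ∧ w - t ∈ 𝔪 * 𝔟 then h hc.choose else 0
    have hf : ∀ w : 𝓞 F, w - t ∈ 𝔪 * 𝔟 → h w = f (Ideal.Quotient.mk J w) := by
      intro w hw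
      have hc : ∃ w' : 𝓞 F, Ideal.Quotient.mk J w' = Ideal.Quotient.mk J w ∧ w' - t ∈ 𝔪 * 𝔟 :=
        ⟨w, rfl, hw⟩
      have h1 : f (Ideal.Quotient.mk J w) = h hc.choose := dif_pos hc
      obtain ⟨h2, h3⟩ := hc.choose_spec
      rw [h1]
      obtain ⟨w', hw'⟩ : ∃ w', w' = hc.choose := ⟨_, rfl⟩
      rw [← hw'] at h2 h3 ⊢
      have h4 : w - w' ∈ J := Ideal.Quotient.eq.1 h2.symm
      rw [hJ, Ideal.mem_span_singleton_mul] at h4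
      obtain ⟨w'', hw'', h5⟩ := h4
      have h6 := good_per hp hh h3 hw''
      rw [h5] at h6
      have e1 : w' + (w - w') = w := by ring
      rwa [e1] at h6
    have hne : Nonempty (𝓞 F ⧸ J) := ⟨Ideal.Quotient.mk J 0⟩
    obtain ⟨c0, hc0⟩ := Finite.exists_max (fun c => ‖f c‖)
    refine ⟨‖f c0‖, fun z => ?_⟩
    by_cases hz : z ∈ cls 𝔟 𝔪 t
    · obtain ⟨w, rfl, hw⟩ := hz
      rw [extW_coe hw, hf w hw]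
      exact hc0 _
    · rw [extW_of_not hz, norm_zero]
      exact norm_nonneg _
  · rintro z ⟨w0, rfl, hw0⟩ w hw
    have e3 : (w0 : F) + ((((ℓ ^ k : ℕ) : 𝓞 F) * w : 𝓞 F) : F) = ((w0 + ((ℓ ^ k : ℕ) : 𝓞 F) * w : 𝓞 F) : F) :=
      (map_add (algebraMap (𝓞 F) F) _ _).symm
    have hz' : w0 + ((ℓ ^ k : ℕ) : 𝓞 F) * w - t ∈ 𝔪 * 𝔟 := by
      have e1 : w0 + ((ℓ ^ k : ℕ) : 𝓞 F) * w - t = (w0 - t) + ((ℓ ^ k : ℕ) : 𝓞 F) * w := by ring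
      rw [e1]
      exact Ideal.add_mem _ hw0 (Ideal.mul_mem_left _ _ hw)
    rw [e3, extW_coe hz', extW_coe hw0]
    exact good_per hp hh hw0 hw
  · rintro v hv z ⟨w0, rfl, hw0⟩
    have hv' : (v : 𝓞 F) - 1 ∈ 𝔪 := hv
    have e3 : ((v : 𝓞 F) : F) * (w0 : F) = (((v : 𝓞 F) * w0 : 𝓞 F) : F) :=
      (map_mul (algebraMap (𝓞 F) F) _ _).symm
    rw [e3, extW_coe (hstab _ _ hv' hw0), extW_coe hw0]
    exact hh.unit v hv' w0 hw0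
  · rintro β hβ hβε z ⟨w0, rfl, hw0⟩
    have e3 : (β : F) * (w0 : F) = ((β * w0 : 𝓞 F) : F) := (map_mul (algebraMap (𝓞 F) F) _ _).symm
    rw [e3, extW_coe (hstab _ _ hβ hw0), extW_coe hw0]
    refine hh.beta β hβ ?_ w0 hw0
    rw [hp.mul, map_pow, map_natCast, ← Nat.cast_pow]
    exact hβε

end Pool.Agent.Lib.MP_1a91b9_nuW.VA
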